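import Mathlib

set_option autoImplicit false
set_option linter.unusedSectionVars false
set_option linter.unusedVariables false

/-!
# Planar configurations: definitions

`v : ι → ℂ` is a configuration of `N = card ι` points of the plane.
-/

namespace Pool.Agent.H11.TV

open Finset

/-- real inner product on `ℂ` -/
def ip (u x : ℂ) : ℝ := u.re * x.re + u.im * x.im

/-- primitive cube root of unity -/
noncomputable def om : ℂ := ⟨-1 / 2, Real.sqrt 3 / 2⟩

/-- coordinatewise multiplication with `om` -/
noncomputable def tau {κ : Type} (x : κ → ℂ) : κ → ℂ := fun i => om * x i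

section
variable {ι : Type} [Fintype ι]

/-- the points with indices in `P` capture the origin -/
def Cap (v : ι → ℂ) (P : ι → Prop) : Prop :=
  ∃ w : ι → ℝ, (∀ i, 0 ≤ w i) ∧ (∀ i, ¬ P i → w i = 0) ∧ ∑ i, w i = 1 ∧ ∑ i, (w i : ℂ) * v i = 0

/-- `r` disjoint index sets capture the origin -/
def TVr (r : ℕ) (v : ι → ℂ) : Prop :=
  ∃ c : ι → ℕ, ∀ l < r, Cap v (fun i => c i = l)

open Classical in
/-- number of points in the closed half plane with inner normal `u` -/
noncomputable def cnt (v : ι → ℂ) (u : ℂ) : ℕ := (univ.filter fun i => 0 ≤ ip u (v i)).card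

open Classical in
/-- number of points in the open half plane with inner normal `u` -/
noncomputable def cnt' (v : ι → ℂ) (u : ℂ) : ℕ := (univ.filter fun i => 0 < ip u (v i)).card

/-- every closed half plane contains at least `r` points -/
def Deep (r : ℕ) (v : ι → ℂ) : Prop := ∀ u : ℂ, r ≤ cnt v u

/-- a continuous function, positive exactly if the closed half plane contains less than `r`
points -/
noncomputable def psi (r : ℕ) (v : ι → ℂ) (u : ℂ) : ℝ :=
  ∑ I ∈ powersetCard (Fintype.card ι + 1 - r) univ, ∏ i ∈ I, max (-ip u (v i)) 0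

/-- the mean direction of the bad closed half planes -/
noncomputable def G (r : ℕ) (v : ι → ℂ) : ℂ :=
  ∫ θ in (0 : ℝ)..(2 * Real.pi),
    (psi r v (Complex.exp (θ * Complex.I)) : ℂ) * Complex.exp (θ * Complex.I)

end

/-- `x` and `y` lie on opposite rays -/
def Anti (x y : ℂ) : Prop := ∃ t : ℝ, 0 < t ∧ y = -(t : ℂ) * x

/-! ### elementary facts -/

lemma ip_comm (u x : ℂ) : ip u x = ip x u := by unfold ip; ring

lemma ip_add (u x y : ℂ) : ip u (x + y) = ip u x + ip u y := by unfold ip; simp; ring

lemma ip_sub (u x y : ℂ) : ip u (x - y) = ip u x - ip u y := by unfold ip; simp; ring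

lemma ip_neg (u x : ℂ) : ip u (-x) = -ip u x := by unfold ip; simp; ring

lemma ip_neg_left (u x : ℂ) : ip (-u) x = -ip u x := by unfold ip; simp; ring

lemma ip_smul (u : ℂ) (t : ℝ) (x : ℂ) : ip u ((t : ℂ) * x) = t * ip u x := by
  unfold ip; simp; ring

lemma ip_smul_left (u : ℂ) (t : ℝ) (x : ℂ) : ip ((t : ℂ) * u) x = t * ip u x := by
  unfold ip; simp; ring

lemma ip_add_left (u u' x : ℂ) : ip (u + u') x = ip u x + ip u' x := by unfold ip; simp; ring

@[simp] lemma ip_zero (u : ℂ) : ip u 0 = 0 := by unfold ip; simp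

@[simp] lemma zero_ip (u : ℂ) : ip 0 u = 0 := by unfold ip; simp

lemma ip_self (u : ℂ) : ip u u = ‖u‖ ^ 2 := by
  unfold ip; rw [← Complex.normSq_eq_norm_sq, Complex.normSq_apply]

lemma ip_rot (z u x : ℂ) : ip (z * u) (z * x) = ‖z‖ ^ 2 * ip u x := by
  unfold ip; rw [← Complex.normSq_eq_norm_sq, Complex.normSq_apply]; simp; ring

lemma ip_I_self (u : ℂ) : ip u (Complex.I * u) = 0 := by unfold ip; simp; ring

/-- decomposition with respect to a unit vector and its rotation -/
lemma eq_ip_add (u x : ℂ) (hu : ‖u‖ = 1) :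
    x = (ip u x : ℂ) * u + (ip (Complex.I * u) x : ℂ) * (Complex.I * u) := by
  have h : u.re * u.re + u.im * u.im = 1 := by
    have h1 := ip_self u
    rw [hu] at h1
    unfold ip at h1
    linarith
  apply Complex.ext
  · simp [ip]
    linear_combination (-x.re) * h
  · simp [ip]
    linear_combination (-x.im) * h

lemma continuous_ip : Continuous (fun p : ℂ × ℂ => ip p.1 p.2) := by
  unfold ip; fun_prop

lemma om_cube : om ^ 3 = 1 := by
  have h3 : Real.sqrt 3 * Real.sqrt 3 = 3 := Real.mul_self_sqrt (by norm_num)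
  apply Complex.ext
  · simp [pow_succ, om]
    nlinarith
  · simp [pow_succ, om]
    linear_combination (-Real.sqrt 3 / 8) * h3

lemma norm_om : ‖om‖ = 1 := by
  have h := congrArg norm om_cube
  rw [norm_pow, norm_one] at h
  have h0 := norm_nonneg om
  have h1 : (‖om‖ - 1) * (‖om‖ ^ 2 + ‖om‖ + 1) = 0 := by ring_nf; rw [h]; ring
  rcases mul_eq_zero.1 h1 with h2 | h2
  · linarith
  · nlinarith

lemma om_ne_zero : om ≠ 0 := by
  intro h
  have := norm_om
  rw [h, norm_zero] at this
  exact zero_ne_one this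

lemma tau_tau_tau {κ : Type} (x : κ → ℂ) : tau (tau (tau x)) = x := by
  funext i
  have := om_cube
  simp only [tau]
  linear_combination (x i) * this

lemma tau_ne_zero {κ : Type} {x : κ → ℂ} (h : x ≠ 0) : tau x ≠ 0 := by
  intro h'
  apply h
  rw [← tau_tau_tau x, h']
  funext i
  simp [tau]

end Pool.Agent.H11.TV
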