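import Pool.Agent.H11.TV.Mono
import Pool.Agent.H11.TV.PDefs

set_option autoImplicit false
set_option linter.unusedSectionVars false
set_option linter.unusedVariables false

/-!
# Sector: labels of nonzero vectors of `C^d`

PROOF. For `z : ℂ` let `L g z = ip (om ^ g) z` for `g = 0, 1, 2` (index it by `ZMod 3`, e.g. with
`om ^ g.val`). Facts: `L 0 z + L 1 z + L 2 z = 0`, `L (g+1) (om * z) = L g z` (`ip_rot`, `norm_om`,
`om_cube`), `L 0 z ^ 2 + L 1 z ^ 2 + L 2 z ^ 2 = (3/2) ‖z‖ ^ 2`.
Call `z` of kind (a, g) if `0 < L g z` and `L h z ≤ 0` for the two other `h`; of kind (b, g) if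
`L g z < 0` and `0 < L h z` for the two other `h`. Every nonzero `z` has exactly one kind (the three
numbers have sum zero and are not all zero: either exactly one is positive, or two are positive
and then the third is negative). `om * z` has kind (a, g+1) resp. (b, g+1). For kind (a, g):
`L g z = |L h z| + |L h' z|`, so `(3/2) ‖z‖² ≤ 2 (L g z)²` and `L g z ≥ ‖z‖ / 2`; same for kind (b, g):
`- L g z ≥ ‖z‖ / 2`. Hence if `z, z'` are both of kind (a, ·) with different `g ≠ g'` then
`‖z - z'‖ ≥ L g z - L g z' ≥ ‖z‖ / 2`; for kind (b, ·): `‖z - z'‖ ≥ L g z' - L g z ≥ ‖z‖ / 2`.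

Label of `w ≠ 0` in `C^d`: let `j` be the least index with `‖w j‖ = ‖w‖` (it exists since the sup
norm is attained; `d > 0`); the label is `(2 j, g)` if `w j` is of kind (a, g), and `(2 j + 1, g)` if it
is of kind (b, g). Equivariance: `j` does not change (`norm_om`). Last property: if the types
agree then `j` and the kind agree; `c ≤ ‖w j‖ `, `dist (w j) (w' j) ≤ dist w w' < c / 2`.
(For `w = 0` any label.)
-/

namespace Pool.Agent.H11.TV

/-- the three linear forms -/
private noncomputable def sL (g : ZMod 3) (z : ℂ) : ℝ := ip (om ^ g.val) z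

private theorem sL_zero (z : ℂ) : sL 0 z = z.re := by
  unfold sL ip
  simp

private theorem sL_one (z : ℂ) : sL 1 z = -1 / 2 * z.re + Real.sqrt 3 / 2 * z.im := by
  have h : (1 : ZMod 3).val = 1 := rfl
  unfold sL ip
  rw [h, pow_one]
  rfl

private theorem sL_two (z : ℂ) : sL 2 z = -1 / 2 * z.re - Real.sqrt 3 / 2 * z.im := by
  have h : (2 : ZMod 3).val = 2 := rfl
  have h3 : Real.sqrt 3 * Real.sqrt 3 = 3 := Real.mul_self_sqrt (by norm_num)
  have h4 : om ^ 2 = ⟨-1 / 2, -(Real.sqrt 3 / 2)⟩ := by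
    rw [pow_two]
    apply Complex.ext
    · rw [Complex.mul_re]
      simp only [om]
      nlinarith
    · rw [Complex.mul_im]
      simp only [om]
      ring
  unfold sL ip
  rw [h, h4]
  ring

private theorem sL_sum (g : ZMod 3) (z : ℂ) : sL g z + sL (g + 1) z + sL (g + 2) z = 0 := by
  have h : g = 0 ∨ g = 1 ∨ g = 2 := by revert g; decide
  rcases h with rfl | rfl | rfl
  · rw [show (0 + 1 : ZMod 3) = 1 from rfl, show (0 + 2 : ZMod 3) = 2 from rfl, sL_zero, sL_one, sL_two]
    ring
  · rw [show (1 + 1 : ZMod 3) = 2 from rfl, show (1 + 2 : ZMod 3) = 0 from rfl, sL_zero, sL_one, sL_two]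
    ring
  · rw [show (2 + 1 : ZMod 3) = 0 from rfl, show (2 + 2 : ZMod 3) = 1 from rfl, sL_zero, sL_one, sL_two]
    ring

private theorem sL_sq (g : ZMod 3) (z : ℂ) :
    sL g z ^ 2 + sL (g + 1) z ^ 2 + sL (g + 2) z ^ 2 = 3 / 2 * ‖z‖ ^ 2 := by
  have h : g = 0 ∨ g = 1 ∨ g = 2 := by revert g; decide
  have h3 : Real.sqrt 3 * Real.sqrt 3 = 3 := Real.mul_self_sqrt (by norm_num)
  have hz : ‖z‖ ^ 2 = z.re ^ 2 + z.im ^ 2 := by
    rw [← Complex.normSq_eq_norm_sq, Complex.normSq_apply]
    ring
  have key : z.re ^ 2 + (-1 / 2 * z.re + Real.sqrt 3 / 2 * z.im) ^ 2 +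
      (-1 / 2 * z.re - Real.sqrt 3 / 2 * z.im) ^ 2 = 3 / 2 * ‖z‖ ^ 2 := by
    rw [hz]
    linear_combination (z.im ^ 2 / 2) * h3
  rcases h with rfl | rfl | rfl
  · rw [show (0 + 1 : ZMod 3) = 1 from rfl, show (0 + 2 : ZMod 3) = 2 from rfl, sL_zero, sL_one, sL_two]
    exact key
  · rw [show (1 + 1 : ZMod 3) = 2 from rfl, show (1 + 2 : ZMod 3) = 0 from rfl, sL_zero, sL_one, sL_two]
    rw [← key]
    ring
  · rw [show (2 + 1 : ZMod 3) = 0 from rfl, show (2 + 2 : ZMod 3) = 1 from rfl, sL_zero, sL_one, sL_two]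
    rw [← key]
    ring

private theorem sL_sub (g : ZMod 3) (z z' : ℂ) : sL g (z - z') = sL g z - sL g z' := ip_sub _ _ _

private theorem sL_rot (g : ZMod 3) (z : ℂ) : sL (g + 1) (om * z) = sL g z := by
  have h : g = 0 ∨ g = 1 ∨ g = 2 := by revert g; decide
  have h1 : om ^ (g + 1).val = om * om ^ g.val := by
    rcases h with rfl | rfl | rfl
    · show om ^ 1 = om * om ^ 0
      ring
    · show om ^ 2 = om * om ^ 1
      ring
    · show om ^ 0 = om * om ^ 2
      rw [← pow_succ', om_cube, pow_zero]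
  unfold sL
  rw [h1, ip_rot, norm_om, one_pow, one_mul]

private theorem sL_le (g : ZMod 3) (z : ℂ) : sL g z ≤ ‖z‖ := by
  have h1 := sL_sum g z
  have h2 := sL_sq g z
  have hx : sL g z ^ 2 = (sL (g + 1) z + sL (g + 2) z) ^ 2 := by
    have : sL g z = -(sL (g + 1) z + sL (g + 2) z) := by linarith
    rw [this]
    ring
  have h3 : sL g z ^ 2 ≤ ‖z‖ ^ 2 := by
    nlinarith [sq_nonneg (sL (g + 1) z - sL (g + 2) z)]
  exact le_trans (le_abs_self _) (abs_le_of_sq_le_sq h3 (norm_nonneg z))

/-- the kinds -/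
private def sK (b : Bool) (g : ZMod 3) (z : ℂ) : Prop :=
  if b then sL g z < 0 ∧ ∀ h, h ≠ g → 0 < sL h z else 0 < sL g z ∧ ∀ h, h ≠ g → sL h z ≤ 0

private theorem sK_exists {z : ℂ} (hz : z ≠ 0) : ∃ p : Bool × ZMod 3, sK p.1 p.2 z := by
  have hsum := sL_sum 0 z
  have hsq := sL_sq 0 z
  rw [show (0 + 1 : ZMod 3) = 1 from rfl, show (0 + 2 : ZMod 3) = 2 from rfl] at hsum hsq
  have hcase : ∀ h : ZMod 3, h = 0 ∨ h = 1 ∨ h = 2 := by decide
  have hpos : 0 < 3 / 2 * ‖z‖ ^ 2 := by
    have := norm_pos_iff.2 hz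
    positivity
  rcases lt_or_ge 0 (sL 0 z) with h0 | h0
  · rcases lt_or_ge 0 (sL 1 z) with h1 | h1
    · refine ⟨(true, 2), by show sL 2 z < 0; linarith, fun h hh => ?_⟩
      rcases hcase h with rfl | rfl | rfl
      · exact h0
      · exact h1
      · exact absurd rfl hh
    · rcases lt_or_ge 0 (sL 2 z) with h2 | h2
      · refine ⟨(true, 1), by show sL 1 z < 0; linarith, fun h hh => ?_⟩
        rcases hcase h with rfl | rfl | rfl
        · exact h0
        · exact absurd rfl hh
        · exact h2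
      · refine ⟨(false, 0), h0, fun h hh => ?_⟩
        rcases hcase h with rfl | rfl | rfl
        · exact absurd rfl hh
        · exact h1
        · exact h2
  · rcases lt_or_ge 0 (sL 1 z) with h1 | h1
    · rcases lt_or_ge 0 (sL 2 z) with h2 | h2
      · refine ⟨(true, 0), by show sL 0 z < 0; linarith, fun h hh => ?_⟩
        rcases hcase h with rfl | rfl | rfl
        · exact absurd rfl hh
        · exact h1
        · exact h2
      · refine ⟨(false, 1), h1, fun h hh => ?_⟩
        rcases hcase h with rfl | rfl | rfl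
        · exact h0
        · exact absurd rfl hh
        · exact h2
    · have h2 : 0 < sL 2 z := by
        by_contra hcon
        rw [not_lt] at hcon
        have e2 : sL 2 z = 0 := by linarith
        have e1 : sL 1 z = 0 := by linarith
        have e0 : sL 0 z = 0 := by linarith
        rw [e0, e1, e2] at hsq
        linarith
      refine ⟨(false, 2), h2, fun h hh => ?_⟩
      rcases hcase h with rfl | rfl | rfl
      · exact h0
      · exact h1
      · exact absurd rfl hh

private theorem sK_unique {z : ℂ} {b b' : Bool} {g g' : ZMod 3} (h : sK b g z) (h' : sK b' g' z) :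
    b = b' ∧ g = g' := by
  have hthird : ∀ g g' : ZMod 3, ∃ h, h ≠ g ∧ h ≠ g' := by decide
  obtain ⟨t, ht, ht'⟩ := hthird g g'
  cases b <;> cases b'
  · refine ⟨rfl, ?_⟩
    by_contra hne
    exact absurd h.1 (not_lt.2 (h'.2 g hne))
  · exact absurd (h'.2 t ht') (not_lt.2 (h.2 t ht))
  · exact absurd (h.2 t ht) (not_lt.2 (h'.2 t ht'))
  · refine ⟨rfl, ?_⟩
    by_contra hne
    exact absurd (h'.2 g hne) (not_lt.2 h.1.le)

private theorem sK_rot {z : ℂ} {b : Bool} {g : ZMod 3} (h : sK b g z) : sK b (g + 1) (om * z) := by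
  have hr : ∀ t, sL t (om * z) = sL (t - 1) z := by
    intro t
    have := sL_rot (t - 1) z
    rwa [sub_add_cancel] at this
  cases b
  · refine ⟨by rw [hr, add_sub_cancel_right]; exact h.1, fun t ht => ?_⟩
    rw [hr]
    exact h.2 _ fun h' => ht (by rw [← h', sub_add_cancel])
  · refine ⟨by rw [hr, add_sub_cancel_right]; exact h.1, fun t ht => ?_⟩
    rw [hr]
    exact h.2 _ fun h' => ht (by rw [← h', sub_add_cancel])

private theorem sK_bound {z : ℂ} {b : Bool} {g : ZMod 3} (h : sK b g z) :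
    ‖z‖ / 2 ≤ |sL g z| := by
  have hsum := sL_sum g z
  have hsq := sL_sq g z
  have h1 : ∀ g : ZMod 3, g + 1 ≠ g := by decide
  have h2 : ∀ g : ZMod 3, g + 2 ≠ g := by decide
  have hprod : 0 ≤ sL (g + 1) z * sL (g + 2) z := by
    cases b
    · exact mul_nonneg_of_nonpos_of_nonpos (h.2 _ (h1 g)) (h.2 _ (h2 g))
    · exact (mul_pos (h.2 _ (h1 g)) (h.2 _ (h2 g))).le
  have hx : sL g z ^ 2 = (sL (g + 1) z + sL (g + 2) z) ^ 2 := by
    have : sL g z = -(sL (g + 1) z + sL (g + 2) z) := by linarith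
    rw [this]
    ring
  have h3 : (‖z‖ / 2) ^ 2 ≤ |sL g z| ^ 2 := by
    rw [sq_abs]
    nlinarith [sq_nonneg ‖z‖]
  exact le_trans (le_abs_self _) (abs_le_of_sq_le_sq h3 (abs_nonneg _))

private theorem sK_diff {z z' : ℂ} {b : Bool} {g g' : ZMod 3} (h : sK b g z) (h' : sK b g' z')
    (hne : g ≠ g') : ‖z‖ / 2 ≤ ‖z - z'‖ := by
  have hb := sK_bound h
  cases b
  · rw [abs_of_pos h.1] at hb
    have h1 := h'.2 g hne
    have h2 := sL_le g (z - z')
    rw [sL_sub] at h2
    linarith
  · rw [abs_of_neg h.1] at hb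
    have h1 := h'.2 g hne
    have h2 := sL_le g (z' - z)
    rw [sL_sub, norm_sub_rev] at h2
    linarith

private theorem sector_norm_tau {n : ℕ} (w : Fin n → ℂ) (i : Fin n) : ‖tau w i‖ = ‖w i‖ := by
  unfold tau
  rw [norm_mul, norm_om, one_mul]

private theorem sector_norm_tau' {n : ℕ} (w : Fin n → ℂ) : ‖tau w‖ = ‖w‖ := by
  apply le_antisymm
  · rw [pi_norm_le_iff_of_nonneg (norm_nonneg _)]
    intro i
    rw [sector_norm_tau]
    exact norm_le_pi_norm w i
  · rw [pi_norm_le_iff_of_nonneg (norm_nonneg _)]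
    intro i
    rw [← sector_norm_tau]
    exact norm_le_pi_norm (tau w) i

/-- an index where the norm is attained -/
private noncomputable def sector_J {n : ℕ} (w : Fin (n + 1) → ℂ) : Fin (n + 1) :=
  Classical.epsilon fun j => ‖w j‖ = ‖w‖

private theorem sector_J_spec {n : ℕ} {w : Fin (n + 1) → ℂ} (hw : w ≠ 0) :
    ‖w (sector_J w)‖ = ‖w‖ := by
  have hpos : 0 < ‖w‖ := norm_pos_iff.2 hw
  have hex : ∃ j, ‖w j‖ = ‖w‖ := by
    by_contra hcon
    have h1 : ∀ j, ‖w j‖ < ‖w‖ := fun j =>
      lt_of_le_of_ne (norm_le_pi_norm w j) fun h => hcon ⟨j, h⟩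
    exact lt_irrefl _ ((pi_norm_lt_iff hpos).2 h1)
  exact Classical.epsilon_spec hex

private theorem sector_J_tau {n : ℕ} (w : Fin (n + 1) → ℂ) : sector_J (tau w) = sector_J w := by
  unfold sector_J
  congr 1
  funext j
  rw [sector_norm_tau, sector_norm_tau']

private noncomputable def sector_kind (z : ℂ) : Bool × ZMod 3 :=
  Classical.epsilon fun p : Bool × ZMod 3 => sK p.1 p.2 z

private theorem sector_kind_spec {z : ℂ} (hz : z ≠ 0) : sK (sector_kind z).1 (sector_kind z).2 z :=
  Classical.epsilon_spec (sK_exists hz)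

theorem exists_label (d : ℕ) : ∃ lab : (Fin d → ℂ) → Lab,
    (∀ w, w ≠ 0 → (lab w).1 < 2 * d) ∧
    (∀ w, w ≠ 0 → lab (tau w) = up (lab w)) ∧
    ∀ (w w' : Fin d → ℂ) (c : ℝ), 0 < c → c ≤ ‖w‖ → c ≤ ‖w'‖ → dist w w' < c / 2 →
      (lab w).1 = (lab w').1 → (lab w).2 = (lab w').2 := by
  cases d with
  | zero =>
    refine ⟨fun _ => (0, 0), fun w hw => absurd (Subsingleton.elim w 0) hw,
      fun w hw => absurd (Subsingleton.elim w 0) hw, ?_⟩
    intro w w' c hc hcw
    rw [Subsingleton.elim w 0, norm_zero] at hcw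
    exact absurd hc (not_lt.2 hcw)
  | succ n =>
    have hne : ∀ w : Fin (n + 1) → ℂ, w ≠ 0 → w (sector_J w) ≠ 0 := by
      intro w hw h0
      have h1 := sector_J_spec hw
      rw [h0, norm_zero] at h1
      exact hw (norm_eq_zero.1 h1.symm)
    refine ⟨fun w => (2 * (sector_J w).val + (if (sector_kind (w (sector_J w))).1 then 1 else 0),
      (sector_kind (w (sector_J w))).2), ?_, ?_, ?_⟩
    · intro w _
      show 2 * (sector_J w).val + (if (sector_kind (w (sector_J w))).1 then 1 else 0) < 2 * (n + 1)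
      have := (sector_J w).2
      split_ifs <;> omega
    · intro w hw
      have h1 : sector_kind (tau w (sector_J (tau w))) =
          ((sector_kind (w (sector_J w))).1, (sector_kind (w (sector_J w))).2 + 1) := by
        rw [sector_J_tau]
        have h2 := sK_rot (sector_kind_spec (hne w hw))
        have h3 : tau w (sector_J w) ≠ 0 := mul_ne_zero om_ne_zero (hne w hw)
        obtain ⟨e1, e2⟩ := sK_unique (sector_kind_spec h3) h2
        exact Prod.ext e1 e2
      show (2 * (sector_J (tau w)).val +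
          (if (sector_kind (tau w (sector_J (tau w)))).1 then 1 else 0),
          (sector_kind (tau w (sector_J (tau w)))).2) = _
      rw [h1, sector_J_tau]
      rfl
    · intro w w' c hc hcw hcw' hd ht
      have hw : w ≠ 0 := by
        rintro rfl
        rw [norm_zero] at hcw
        exact absurd hc (not_lt.2 hcw)
      have hw' : w' ≠ 0 := by
        rintro rfl
        rw [norm_zero] at hcw'
        exact absurd hc (not_lt.2 hcw')
      have ht' : 2 * (sector_J w).val + (if (sector_kind (w (sector_J w))).1 then 1 else 0) =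
          2 * (sector_J w').val + (if (sector_kind (w' (sector_J w'))).1 then 1 else 0) := ht
      have hJ : sector_J w = sector_J w' := by
        apply Fin.ext
        split_ifs at ht' <;> omega
      have hb : (sector_kind (w (sector_J w))).1 = (sector_kind (w' (sector_J w'))).1 := by
        cases hx : (sector_kind (w (sector_J w))).1 <;>
          cases hy : (sector_kind (w' (sector_J w'))).1
        · rfl
        · rw [hx, hy] at ht'
          simp only [Bool.false_eq_true, if_false, if_true] at ht'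
          omega
        · rw [hx, hy] at ht'
          simp only [Bool.false_eq_true, if_false, if_true] at ht'
          omega
        · rfl
      show (sector_kind (w (sector_J w))).2 = (sector_kind (w' (sector_J w'))).2
      by_contra hg
      have h1 := sector_kind_spec (hne w hw)
      have h2 := sector_kind_spec (hne w' hw')
      rw [← hb] at h2
      have h3 := sK_diff h1 h2 hg
      have h4 : ‖w (sector_J w) - w' (sector_J w')‖ ≤ dist w w' := by
        rw [← hJ, ← dist_eq_norm]
        exact dist_le_pi_dist w w' _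
      rw [sector_J_spec hw] at h3
      linarith

end Pool.Agent.H11.TV
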