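import Pool.Agent.H11.TV.Chain

set_option autoImplicit false
set_option linter.unusedSectionVars false
set_option linter.unusedVariables false

/-!
# Small: iterated barycentric subdivision

PROOF.
`sd_small` by induction on `n` (generalising `C`, `δ`, `c`). By `On.map` it suffices to treat
`c = gen l`, `l` of length `n + 1` with points in `C` and mutual distances at most `δ`;
`sd bary (n+1) (gen l) = cone (bary l) (sd bary n (bdl l))`. Let `C' = convexHull ℝ {x | x ∈ l} ⊆ C`.
`n = 0`: `bdl l = gen []`, `sd bary 0 (gen []) = gen []`, `bary [x] = x`.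
`n = m + 1`: `bdl l` is on lists of length `m + 1` in `C'` with mutual distances at most `δ`
(`on_bdl`), so by induction `sd bary (m+1) (bdl l)` is on lists `l'` in `C'` with mutual distances
at most `m/(m+1) δ ≤ (m+1)/(m+2) δ`. Every `y` in `C'` has distance at most `(n/(n+1)) δ` from
`b = bary l`: the closed ball with centre `b` and this radius is convex, and it contains every
point `x` of `l` since `b - x = (1/(n+1)) ∑ (x_j - x)`, where one of the `n + 1` summands is zero
(e.g. erase `x` from the list, or: `‖b - x‖ ≤ (1/(n+1)) * sum of the norms`, and the sum of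
`dist x_j x` over the list is at most `(length - 1) * δ` because `x` itself occurs: prove by
induction on the list: `x ∈ l → (∀ y ∈ l, dist y x ≤ δ) → (l.map (dist · x)).sum ≤ (l.length - 1) * δ`).
Also `b ∈ C' ⊆ C` (`bary l` is a convex combination; for instance by induction on the list or
`Convex.sum_mem` over `Fin l.length`).

`bd_sdI`: induction on `N` with `bd_sd`. `sdI_pmap`: `sd_pmap` with `bary (l.map T) = T (bary l)`.
`sdI_hull`: induction on `N` with `sd_small` (for `n = 0` only the list `[]` occurs).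
`sdI_small`: `On (Sm C n ((n-1)/n)^N * D)` by induction, and `((n-1)/n)^N → 0`.
-/

namespace Pool.Agent.H11.TV

variable {E : Type} [NormedAddCommGroup E] [NormedSpace ℝ E]

/-- the barycentre of a list -/
noncomputable def bary (l : List E) : E := ((l.length : ℝ))⁻¹ • l.sum

/-- lists of length `n` in `C` with mutual distances at most `δ` -/
def Sm (C : Set E) (n : ℕ) (δ : ℝ) (l : List E) : Prop :=
  l.length = n ∧ (∀ x ∈ l, x ∈ C) ∧ ∀ x ∈ l, ∀ y ∈ l, dist x y ≤ δ

/-- `N`-fold barycentric subdivision of lists of length `n` -/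
noncomputable def sdI (n N : ℕ) : Ch E →ₗ[ZMod 3] Ch E := (sd bary n) ^ N

private lemma small_sum (δ : ℝ) (hδ : 0 ≤ δ) (x : E) (l : List E) (h : ∀ y ∈ l, dist y x ≤ δ) :
    (l.map (fun y => dist y x)).sum ≤ (l.length : ℝ) * δ := by
  induction l with
  | nil => simp
  | cons y l ih =>
    rw [List.map_cons, List.sum_cons, List.length_cons]
    have h1 := h y (by simp)
    have h2 := ih fun z hz => h z (by simp [hz])
    push_cast
    linarith

private lemma small_sum' (δ : ℝ) (hδ : 0 ≤ δ) (x : E) (l : List E) (hx : x ∈ l)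
    (h : ∀ y ∈ l, dist y x ≤ δ) :
    (l.map (fun y => dist y x)).sum ≤ ((l.length : ℝ) - 1) * δ := by
  induction l with
  | nil => simp at hx
  | cons y l ih =>
    rw [List.map_cons, List.sum_cons, List.length_cons]
    have hl : ∀ z ∈ l, dist z x ≤ δ := fun z hz => h z (by simp [hz])
    by_cases hyx : y = x
    · have h2 := small_sum δ hδ x l hl
      rw [hyx, dist_self]
      push_cast
      linarith
    · have hx' : x ∈ l := by
        rcases List.mem_cons.1 hx with h' | h'
        · exact absurd h'.symm hyx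
        · exact h'
      have h1 := h y (by simp)
      have h2 := ih hx' hl
      push_cast
      linarith

private lemma small_norm (x : E) (l : List E) :
    ‖l.sum - (l.length : ℝ) • x‖ ≤ (l.map (fun y => dist y x)).sum := by
  induction l with
  | nil => simp
  | cons y l ih =>
    rw [List.map_cons, List.sum_cons, List.sum_cons, List.length_cons]
    have e : y + l.sum - ((l.length + 1 : ℕ) : ℝ) • x =
        (y - x) + (l.sum - (l.length : ℝ) • x) := by
      push_cast
      rw [add_smul, one_smul]
      abel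
    rw [e]
    refine (norm_add_le _ _).trans ?_
    rw [dist_eq_norm]
    linarith

private lemma small_dist (n : ℕ) (δ : ℝ) (hδ : 0 ≤ δ) (l : List E) (hl : l.length = n + 1)
    (h : ∀ x ∈ l, ∀ y ∈ l, dist x y ≤ δ) (y : E) (hy : y ∈ convexHull ℝ {x | x ∈ l}) :
    dist y (bary l) ≤ (n : ℝ) / (n + 1) * δ := by
  have hsub : {x | x ∈ l} ⊆ Metric.closedBall (bary l) ((n : ℝ) / (n + 1) * δ) := by
    intro x hx
    rw [Set.mem_ofPred_eq] at hx
    rw [Metric.mem_closedBall, dist_comm, dist_eq_norm]
    have hn : (0 : ℝ) < (n : ℝ) + 1 := by positivity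
    have hlen : (l.length : ℝ) = (n : ℝ) + 1 := by rw [hl]; push_cast; ring
    have e : bary l - x = ((n : ℝ) + 1)⁻¹ • (l.sum - (l.length : ℝ) • x) := by
      unfold bary
      rw [smul_sub, hlen, smul_smul, inv_mul_cancel₀ hn.ne', one_smul]
    rw [e, norm_smul, Real.norm_of_nonneg (by positivity)]
    have h1 := small_norm x l
    have h2 := small_sum' δ hδ x l hx (fun y hy => h y hy x hx)
    have h3 : ‖l.sum - (l.length : ℝ) • x‖ ≤ (n : ℝ) * δ := by
      rw [hlen] at h2 h1 ⊢
      linarith
    calc ((n : ℝ) + 1)⁻¹ * ‖l.sum - (l.length : ℝ) • x‖ ≤ ((n : ℝ) + 1)⁻¹ * ((n : ℝ) * δ) :=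
          mul_le_mul_of_nonneg_left h3 (by positivity)
      _ = (n : ℝ) / (n + 1) * δ := by field_simp
  exact Metric.mem_closedBall.1 (convexHull_min hsub (convex_closedBall _ _) hy)

private lemma small_bary_mem (C : Set E) (hC : Convex ℝ C) (l : List E) (hl : l ≠ [])
    (h : ∀ x ∈ l, x ∈ C) : bary l ∈ C := by
  induction l with
  | nil => exact absurd rfl hl
  | cons y l ih =>
    by_cases hl' : l = []
    · subst hl'
      have e : bary [y] = y := by unfold bary; simp
      rw [e]
      exact h y (by simp)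
    · have h1 := ih hl' fun x hx => h x (by simp [hx])
      have h2 : y ∈ C := h y (by simp)
      have hpos : (0 : ℝ) < (l.length : ℝ) := by
        exact_mod_cast List.length_pos_of_ne_nil hl'
      have e : bary (y :: l) = ((l.length : ℝ) + 1)⁻¹ • y +
          ((l.length : ℝ) * ((l.length : ℝ) + 1)⁻¹) • bary l := by
        unfold bary
        rw [List.length_cons, List.sum_cons, smul_add, smul_smul]
        push_cast
        congr 2
        field_simp
      rw [e]
      refine hC h2 h1 (by positivity) (by positivity) ?_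
      field_simp
      ring

theorem sd_small (C : Set E) (hC : Convex ℝ C) (n : ℕ) (δ : ℝ) (hδ : 0 ≤ δ) (c : Ch E)
    (h : On (Sm C (n + 1) δ) c) :
    On (Sm C (n + 1) ((n : ℝ) / (n + 1) * δ)) (sd bary (n + 1) c) := by
  induction n generalizing C δ c with
  | zero =>
    refine h.map _ ?_
    rintro l ⟨hl, hlC, hld⟩
    obtain ⟨x, rfl⟩ := List.length_eq_one_iff.1 hl
    have e : bary [x] = x := by unfold bary; simp
    rw [sd_succ_gen, bdl_cons, bdl_nil, map_zero, sub_zero, sd_zero_gen, cone_gen, e]
    refine on_gen ⟨rfl, hlC, ?_⟩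
    intro a ha b hb
    rw [List.mem_singleton] at ha hb
    rw [ha, hb, dist_self]
    simp
  | succ m ih =>
    refine h.map _ ?_
    rintro l ⟨hl, hlC, hld⟩
    rw [sd_succ_gen]
    have hsub : convexHull ℝ {x | x ∈ l} ⊆ C := convexHull_min (fun x hx => hlC x hx) hC
    have h1 : On (Sm (convexHull ℝ {x | x ∈ l}) (m + 1) δ) (bdl l) := by
      refine (on_bdl l).mono ?_
      rintro k ⟨hk, hk'⟩
      refine ⟨by omega, fun x hx => subset_convexHull ℝ _ (hk.subset hx), ?_⟩
      intro x hx y hy
      exact hld x (hk.subset hx) y (hk.subset hy)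
    have h2 := ih (convexHull ℝ {x | x ∈ l}) (convex_convexHull ℝ _) δ hδ (bdl l) h1
    have hlne : l ≠ [] := by
      intro h0
      rw [h0] at hl
      simp at hl
    have hb : bary l ∈ C := small_bary_mem C hC l hlne hlC
    refine h2.cone (bary l) ?_
    rintro k ⟨hk, hkC, hkd⟩
    have hr : (m : ℝ) / (m + 1) * δ ≤ ((m + 1 : ℕ) : ℝ) / (((m + 1 : ℕ) : ℝ) + 1) * δ := by
      apply mul_le_mul_of_nonneg_right _ hδ
      rw [div_le_div_iff₀ (by positivity) (by positivity)]
      push_cast
      nlinarith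
    have hr0 : 0 ≤ ((m + 1 : ℕ) : ℝ) / (((m + 1 : ℕ) : ℝ) + 1) * δ := by positivity
    have hd : ∀ y ∈ k, dist y (bary l) ≤ ((m + 1 : ℕ) : ℝ) / (((m + 1 : ℕ) : ℝ) + 1) * δ :=
      fun y hy => small_dist (m + 1) δ hδ l hl hld y (hkC y hy)
    refine ⟨by rw [List.length_cons, hk], ?_, ?_⟩
    · intro x hx
      rcases List.mem_cons.1 hx with rfl | hx
      · exact hb
      · exact hsub (hkC x hx)
    · intro x hx y hy
      rcases List.mem_cons.1 hx with rfl | hx
      · rcases List.mem_cons.1 hy with rfl | hy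
        · rw [dist_self]; exact hr0
        · rw [dist_comm]; exact hd y hy
      · rcases List.mem_cons.1 hy with rfl | hy
        · exact hd x hx
        · exact (hkd x hx y hy).trans hr

private lemma small_sdI_zero (n : ℕ) (c : Ch E) : sdI n 0 c = c := by
  unfold sdI
  rw [pow_zero]
  rfl

private lemma small_sdI_succ (n N : ℕ) (c : Ch E) :
    sdI n (N + 1) c = sd bary n (sdI n N c) := by
  unfold sdI
  rw [pow_succ']
  rfl

theorem bd_sdI (n N : ℕ) (c : Ch E) : bd (sdI (n + 1) N c) = sdI n N (bd c) := by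
  induction N with
  | zero => rw [small_sdI_zero, small_sdI_zero]
  | succ N ih => rw [small_sdI_succ, small_sdI_succ, bd_sd, ih]

theorem sdI_pmap (T : E →ₗ[ℝ] E) (n N : ℕ) (c : Ch E) :
    sdI n N (pmap T c) = pmap T (sdI n N c) := by
  have hb : ∀ l : List E, l ≠ [] → bary (l.map T) = T (bary l) := by
    intro l _
    unfold bary
    rw [List.length_map, map_smul, map_list_sum]
  induction N with
  | zero => rw [small_sdI_zero, small_sdI_zero]
  | succ N ih =>
    rw [small_sdI_succ, small_sdI_succ, ih]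
    exact sd_pmap bary bary T T hb n (sdI n N c)

private lemma small_sd_hull (C : Set E) (hC : Convex ℝ C) (n : ℕ) (δ : ℝ) (hδ : 0 ≤ δ) (c : Ch E)
    (h : On (Sm C n δ) c) : On (Sm C n δ) (sd bary n c) := by
  cases n with
  | zero =>
    refine h.map _ ?_
    rintro l ⟨hl, hlC, hld⟩
    have e : l = [] := List.length_eq_zero_iff.1 hl
    subst e
    rw [sd_zero_gen]
    exact on_gen ⟨rfl, hlC, hld⟩
  | succ m =>
    refine (sd_small C hC m δ hδ c h).mono ?_
    rintro l ⟨hl, hlC, hld⟩
    refine ⟨hl, hlC, fun x hx y hy => (hld x hx y hy).trans ?_⟩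
    have h1 : (m : ℝ) / (m + 1) ≤ 1 := by
      rw [div_le_one (by positivity)]
      linarith
    calc (m : ℝ) / (m + 1) * δ ≤ 1 * δ := mul_le_mul_of_nonneg_right h1 hδ
      _ = δ := one_mul δ

theorem sdI_hull (C : Set E) (hC : Convex ℝ C) (n : ℕ) (δ : ℝ) (hδ : 0 ≤ δ) (N : ℕ) (c : Ch E)
    (h : On (Sm C n δ) c) : On (Sm C n δ) (sdI n N c) := by
  induction N with
  | zero => rw [small_sdI_zero]; exact h
  | succ N ih =>
    rw [small_sdI_succ]
    exact small_sd_hull C hC n δ hδ _ ih

theorem sdI_small (n : ℕ) (D ε : ℝ) (hD : 0 ≤ D) (hε : 0 < ε) :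
    ∃ N : ℕ, ∀ C : Set E, Convex ℝ C → ∀ c : Ch E, On (Sm C n D) c →
      On (Sm C n ε) (sdI n N c) := by
  cases n with
  | zero =>
    refine ⟨0, fun C hC c h => ?_⟩
    rw [small_sdI_zero]
    refine h.mono ?_
    rintro l ⟨hl, hlC, hld⟩
    have e : l = [] := List.length_eq_zero_iff.1 hl
    subst e
    exact ⟨rfl, hlC, fun x hx => by simp at hx⟩
  | succ m =>
    have h0 : (0 : ℝ) ≤ (m : ℝ) / (m + 1) := by positivity
    have h1 : (m : ℝ) / (m + 1) < 1 := by
      rw [div_lt_one (by positivity)]
      linarith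
    have hD1 : (0 : ℝ) < D + 1 := by linarith
    obtain ⟨N, hN⟩ := exists_pow_lt_of_lt_one (div_pos hε hD1) h1
    refine ⟨N, fun C hC c h => ?_⟩
    have key : ∀ N : ℕ, On (Sm C (m + 1) (((m : ℝ) / (m + 1)) ^ N * D)) (sdI (m + 1) N c) := by
      intro N
      induction N with
      | zero => rw [small_sdI_zero, pow_zero, one_mul]; exact h
      | succ N ih =>
        rw [small_sdI_succ, pow_succ', mul_assoc]
        exact sd_small C hC m _ (mul_nonneg (pow_nonneg h0 N) hD) _ ih
    refine (key N).mono ?_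
    rintro l ⟨hl, hlC, hld⟩
    refine ⟨hl, hlC, fun x hx y hy => (hld x hx y hy).trans ?_⟩
    calc ((m : ℝ) / (m + 1)) ^ N * D ≤ ε / (D + 1) * D :=
          mul_le_mul_of_nonneg_right hN.le hD
      _ ≤ ε := by
          rw [div_mul_eq_mul_div, div_le_iff₀ hD1]
          nlinarith

end Pool.Agent.H11.TV
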