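import Pool.Agent.H11.TV.Fund
import Pool.Agent.H11.TV.Small
import Pool.Agent.H11.TV.Sector

set_option autoImplicit false
set_option linter.unusedSectionVars false
set_option linter.unusedVariables false

/-!
# BU3: a Borsuk-Ulam theorem for the group of order three

PROOF of `bu3`. Suppose `f x ≠ 0` for all `x ≠ 0`. Put `n = d + 1`, take `lab` from `exists_label d`.
Let `K` be the union of the convex hulls of the (finitely many) lists in the support of
`Ec n d` (`nice_Ec n d`): compact (`Set.Finite.isCompact_convexHull`, finite union), `0 ∉ K`. On `K` the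
function `‖f x‖` is continuous and positive, so `c ≤ ‖f x‖` with some `c > 0`, and `f` is uniformly
continuous on `K`: there is `ε > 0` with `dist (f x) (f y) < c / 2` for `x, y ∈ K`, `dist x y ≤ ε`
(if `K` is empty everything is trivial; it need not be discussed separately if one takes
`c = 1`, or use the `IsCompact` lemmas giving lower bounds). Take `N` from `sdI_small (2*d+2) 2 ε`
(points of norm one have distance at most two).
For a chain `c` in `C^n` and `m : ℕ` let
 `Phi m c = pmap Prod.snd (sd mu m (pmap (fun x => lab (f x)) (sdI m N c)))`.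
Then `bd (Phi (m+1) c) = Phi m (bd c)` (`pmap_bd`, `bd_sd`, `bd_sdI`). For `c` on lists whose convex hull
does not contain the origin (`Nice`), `Phi m (pmap tau c) = shf (Phi m c)`: by `sdI_pmap` (tau as a
real linear map), then `pmap (lab ∘ f) (pmap tau c') = pmap up (pmap (lab ∘ f) c')` for chains `c'` on
lists of nonzero points (`sdI_hull` applied to each generator of `c` with `C` = its convex hull
shows that the points of `sdI m N c` are nonzero), `sd_mu_up`, and `Prod.snd ∘ up = (· + 1) ∘ Prod.snd`.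
Apply `cochain_main d` to `A i = Phi (2*i+1) (Ac n i)`, `E i = Phi (2*i+2) (Ec n i)`: lengths from
`sd_mu_on` and `sdI_hull`; `h0`: `Ac n 0 = gen [bs n 0]`, `sdI 1 N (gen [x]) = gen [x]`, so
`A 0 = gen [g]`, `bet [g] = 1`; `h1`, `h2` from `bd_Ec`, `bd_Ac_succ` and the equivariance. So
`lin alp (E d) = 1`. But every list `l` in `sdI (2*d+2) N (Ec n d)` consists of `2 d + 2` points of `K`
with mutual distances at most `ε`, so `l.map (lab ∘ f)` satisfies the hypotheses of `alp_vanish`,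
and `lin alp (E d) = 0` (`On.map_eq`). Contradiction.

PROOF of `bu3_sphere`: apply `bu3` to `x ↦ f (‖x‖⁻¹ • x)`, which is continuous on the complement of
`0`; `‖tau x‖ = ‖x‖`.
-/

namespace Pool.Agent.H11.TV

variable {n : ℕ}

/-- `tau` as a real linear map -/
noncomputable def tauL (n : ℕ) : (Fin n → ℂ) →ₗ[ℝ] (Fin n → ℂ) where
  toFun := tau
  map_add' x y := by funext i; simp [tau, mul_add]
  map_smul' a x := by
    funext i
    simp only [tau, Pi.smul_apply, RingHom.id_apply, Complex.real_smul]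
    ring

/-- the total subdivision operator -/
noncomputable def Phi (g : (Fin n → ℂ) → Lab) (m N : ℕ) : Ch (Fin n → ℂ) →ₗ[ZMod 3] Ch (ZMod 3) :=
  pmap Prod.snd ∘ₗ sd mu m ∘ₗ pmap g ∘ₗ sdI m N

lemma Phi_apply (g : (Fin n → ℂ) → Lab) (m N : ℕ) (c : Ch (Fin n → ℂ)) :
    Phi g m N c = pmap Prod.snd (sd mu m (pmap g (sdI m N c))) := rfl

lemma bd_Phi (g : (Fin n → ℂ) → Lab) (m N : ℕ) (c : Ch (Fin n → ℂ)) :
    bd (Phi g (m + 1) N c) = Phi g m N (bd c) := by
  rw [Phi_apply, Phi_apply, ← pmap_bd, bd_sd, ← pmap_bd, bd_sdI]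

lemma bu3_sm {m : ℕ} {l : List (Fin n → ℂ)} (h : Nice n m l) :
    Sm (convexHull ℝ {x | x ∈ l}) m 2 l := by
  refine ⟨h.1, fun x hx => subset_convexHull ℝ _ hx, fun x hx y hy => ?_⟩
  have h1 := h.2.1 x hx
  have h2 := h.2.1 y hy
  calc dist x y ≤ ‖x‖ + ‖y‖ := by rw [dist_eq_norm]; exact norm_sub_le x y
    _ ≤ 2 := by rw [h1, h2]; norm_num

/-- the subdivided chain stays in the convex hull -/
lemma bu3_hull {m : ℕ} (N : ℕ) {l : List (Fin n → ℂ)} (h : Nice n m l) :
    On (Sm (convexHull ℝ {x | x ∈ l}) m 2) (sdI m N (gen l)) :=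
  sdI_hull _ (convex_convexHull ℝ _) m 2 (by norm_num) N _ (on_gen (bu3_sm h))

lemma Phi_tau (g : (Fin n → ℂ) → Lab) (hg : ∀ x, x ≠ 0 → g (tau x) = up (g x)) (m N : ℕ)
    (c : Ch (Fin n → ℂ)) (h : On (Nice n m) c) :
    Phi g m N (pmap tau c) = shf (Phi g m N c) := by
  refine h.map_eq (Phi g m N ∘ₗ pmap tau) (shf ∘ₗ Phi g m N) ?_
  intro l hl
  simp only [LinearMap.comp_apply]
  rw [Phi_apply, Phi_apply]
  have h1 : sdI m N (pmap tau (gen l)) = pmap tau (sdI m N (gen l)) :=
    sdI_pmap (tauL n) m N (gen l)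
  have h2 : pmap g (pmap tau (sdI m N (gen l))) = pmap up (pmap g (sdI m N (gen l))) := by
    refine (bu3_hull N hl).map_eq (pmap g ∘ₗ pmap tau) (pmap up ∘ₗ pmap g) ?_
    intro l' hl'
    simp only [LinearMap.comp_apply, pmap_gen, List.map_map]
    congr 1
    apply List.map_congr_left
    intro x hx
    have hx0 : x ≠ 0 := by
      rintro rfl
      exact hl.2.2 (hl'.2.1 _ hx)
    exact hg x hx0
  rw [h1, h2, sd_mu_up, shf, pmap_pmap, pmap_pmap]
  rfl

lemma Phi_len (g : (Fin n → ℂ) → Lab) (m N : ℕ) (c : Ch (Fin n → ℂ)) (h : On (Nice n m) c) :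
    On (fun l => l.length = m) (Phi g m N c) := by
  refine h.map _ ?_
  intro l hl
  rw [Phi_apply]
  refine On.pmap (P := fun l => l.length = m) ?_ _ (fun l hl => by simpa using hl)
  have h1 : On (fun l => l.length = m) (pmap g (sdI m N (gen l))) :=
    (bu3_hull N hl).pmap g (fun l' hl' => by simpa using hl'.1)
  exact h1.map _ fun l' hl' => (sd_mu_on m l' hl').mono fun _ h => h.1

lemma bu3_sd_one_gen {X Y : Type} (b : List X → Y) (x : X) : sd b 1 (gen [x]) = gen [b [x]] := by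
  rw [sd_succ_gen, bdl_cons, bdl_nil, map_zero, sub_zero, sd_zero_gen, cone_gen]

lemma bu3_sdI_one_gen (N : ℕ) (x : Fin n → ℂ) : sdI 1 N (gen [x]) = gen [x] := by
  unfold sdI
  induction N with
  | zero => simp
  | succ N ih =>
    rw [pow_succ]
    show ((sd bary 1) ^ N) (sd bary 1 (gen [x])) = gen [x]
    rw [bu3_sd_one_gen]
    have : bary [x] = x := by simp [bary]
    rw [this]
    exact ih

lemma bu3_norm_tau (x : Fin n → ℂ) : ‖tau x‖ = ‖x‖ := by
  have h : ∀ i, ‖tau x i‖ = ‖x i‖ := fun i => by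
    show ‖om * x i‖ = _
    rw [norm_mul, norm_om, one_mul]
  apply le_antisymm
  · rw [pi_norm_le_iff_of_nonneg (norm_nonneg _)]
    intro i
    rw [h]
    exact norm_le_pi_norm x i
  · rw [pi_norm_le_iff_of_nonneg (norm_nonneg _)]
    intro i
    rw [← h]
    exact norm_le_pi_norm (tau x) i

lemma bu3_nice_tau {m : ℕ} {c : Ch (Fin n → ℂ)} (h : On (Nice n m) c) :
    On (Nice n m) (pmap tau c) := by
  refine h.pmap tau ?_
  rintro l ⟨h1, h2, h3⟩
  refine ⟨by simpa using h1, ?_, ?_⟩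
  · intro y hy
    rw [List.mem_map] at hy
    obtain ⟨x, hx, rfl⟩ := hy
    rw [bu3_norm_tau]; exact h2 x hx
  · intro h0
    have h4 : {y | y ∈ l.map tau} = (tauL n) '' {x | x ∈ l} := by
      ext y
      simp only [Set.mem_ofPred_eq, List.mem_map, Set.mem_image]
      rfl
    rw [h4, ← LinearMap.image_convexHull] at h0
    obtain ⟨x, hx, hx0⟩ := h0
    have hx1 : x = 0 := by
      by_contra hne
      exact tau_ne_zero hne hx0
    rw [hx1] at hx
    exact h3 hx

theorem bu3_aux (d n : ℕ) (hn : n = d + 1) (f : (Fin n → ℂ) → (Fin d → ℂ))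
    (hf : ContinuousOn f {0}ᶜ)
    (heq : ∀ x, x ≠ 0 → f (tau x) = tau (f x)) : ∃ x, x ≠ 0 ∧ f x = 0 := by
  classical
  by_contra hcon
  push Not at hcon
  obtain ⟨lab, hlab1, hlab2, hlab3⟩ := exists_label d
  have hdn : d < n := by omega
  -- the compact set
  let K : Set (Fin n → ℂ) := ⋃ l ∈ (Ec n d).support, convexHull ℝ {x | x ∈ l}
  have hK : IsCompact K := by
    apply Finset.isCompact_biUnion
    intro l _
    exact (List.finite_toSet l).isCompact_convexHull (𝕜 := ℝ)
  have hnice : ∀ l ∈ (Ec n d).support, Nice n (2 * d + 2) l := fun l hl =>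
    on_iff.1 (nice_Ec n d hdn) l (Finsupp.mem_support_iff.1 hl)
  have hK0 : ∀ x ∈ K, x ≠ 0 := by
    intro x hx h0
    simp only [K, Set.mem_iUnion] at hx
    obtain ⟨l, hl, hx⟩ := hx
    rw [h0] at hx
    exact (hnice l hl).2.2 hx
  have hfK : ContinuousOn f K := hf.mono fun x hx => hK0 x hx
  obtain ⟨c, hc0, hc⟩ := hK.exists_forall_le' hfK.norm (a := 0)
    (fun x hx => norm_pos_iff.2 (hcon x (hK0 x hx)))
  have hunif := hK.uniformContinuousOn_of_continuous hfK
  rw [Metric.uniformContinuousOn_iff_le] at hunif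
  obtain ⟨ε, hε, hunif⟩ := hunif (c / 4) (by linarith)
  obtain ⟨N, hN⟩ := sdI_small (E := Fin n → ℂ) (2 * d + 2) 2 ε (by norm_num) hε
  let g : (Fin n → ℂ) → Lab := fun x => lab (f x)
  have hg : ∀ x, x ≠ 0 → g (tau x) = up (g x) := by
    intro x hx
    show lab (f (tau x)) = up (lab (f x))
    rw [heq x hx, hlab2 _ (hcon x hx)]
  let A : ℕ → Ch (ZMod 3) := fun i => Phi g (2 * i + 1) N (Ac n i)
  let E : ℕ → Ch (ZMod 3) := fun i => Phi g (2 * i + 2) N (Ec n i)
  have hmain : lin alp (E d) = (1 : ZMod 3) := by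
    refine cochain_main d A E ?_ ?_ ?_ ?_ ?_
    · intro i hi
      exact Phi_len g _ N _ (nice_Ac n i (by omega))
    · intro i hi
      exact Phi_len g _ N _ (nice_Ec n i (by omega))
    · show lin bet (Phi g (2 * 0 + 1) N (Ac n 0)) = 1
      have h1 : Ac n 0 = gen [bs n 0] := by
        show cone (bs n 0) (gen []) = _
        rw [cone_gen]
      rw [h1, Phi_apply]
      show lin bet (pmap Prod.snd (sd mu 1 (pmap g (sdI 1 N (gen [bs n 0]))))) = 1
      rw [bu3_sdI_one_gen, pmap_gen, List.map_cons, List.map_nil, bu3_sd_one_gen, pmap_gen, lin_gen]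
      rfl
    · intro i hi
      show bd (Phi g (2 * i + 1 + 1) N (Ec n i)) = _
      rw [bd_Phi, bd_Ec, map_sub, Phi_tau g hg _ N _ (nice_Ac n i (by omega))]
    · intro i hi
      show bd (Phi g (2 * (i + 1) + 1) N (Ac n (i + 1))) = _
      have hE := nice_Ec n i (by omega : i < n)
      have h2 : (2 * (i + 1) + 1) = 2 * i + 2 + 1 := by ring
      rw [h2, bd_Phi, bd_Ac_succ, map_add, map_add, Phi_tau g hg _ N _ hE]
      have hE' : On (Nice n (2 * i + 2)) (pmap tau (Ec n i)) := bu3_nice_tau hE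
      rw [Phi_tau g hg _ N _ hE', Phi_tau g hg _ N _ hE]
  have hzero : lin alp (E d) = (0 : ZMod 3) := by
    have hon : On (fun l => l ∈ (Ec n d).support) (Ec n d) :=
      on_iff.2 fun l hl => Finsupp.mem_support_iff.2 hl
    refine hon.map_eq (lin alp ∘ₗ Phi g (2 * d + 2) N) 0 ?_
    intro l hl
    have hl' := hnice l hl
    rw [LinearMap.comp_apply, LinearMap.zero_apply, Phi_apply]
    have h1 := hN _ (convex_convexHull ℝ {x | x ∈ l}) (gen l) (on_gen (bu3_sm hl'))
    refine h1.map_eq (lin alp ∘ₗ pmap Prod.snd ∘ₗ sd mu (2 * d + 2) ∘ₗ pmap g) 0 ?_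
    intro l' hl''
    simp only [LinearMap.comp_apply, LinearMap.zero_apply, pmap_gen]
    have hmem : ∀ x ∈ l', x ∈ K := by
      intro x hx
      simp only [K, Set.mem_iUnion]
      exact ⟨l, hl, hl''.2.1 x hx⟩
    refine alp_vanish d (l'.map g) ?_ ?_ ?_
    · rw [List.length_map]; exact hl''.1
    · intro y hy
      rw [List.mem_map] at hy
      obtain ⟨x, hx, rfl⟩ := hy
      exact hlab1 _ (hcon x (hK0 x (hmem x hx)))
    · intro y hy y' hy' hyy
      rw [List.mem_map] at hy hy'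
      obtain ⟨x, hx, rfl⟩ := hy
      obtain ⟨x', hx', rfl⟩ := hy'
      refine hlab3 (f x) (f x') c hc0 (hc x (hmem x hx)) (hc x' (hmem x' hx')) ?_ hyy
      have := hunif x (hmem x hx) x' (hmem x' hx') (hl''.2.2 x hx x' hx')
      linarith
  rw [hmain] at hzero
  exact one_ne_zero hzero

theorem bu3 (d : ℕ) (f : (Fin (d + 1) → ℂ) → (Fin d → ℂ)) (hf : ContinuousOn f {0}ᶜ)
    (heq : ∀ x, x ≠ 0 → f (tau x) = tau (f x)) : ∃ x, x ≠ 0 ∧ f x = 0 :=
  bu3_aux d (d + 1) rfl f hf heq

theorem bu3_sphere (d : ℕ) (f : (Fin (d + 1) → ℂ) → (Fin d → ℂ)) (hf : Continuous f)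
    (heq : ∀ x, f (tau x) = tau (f x)) : ∃ x, ‖x‖ = 1 ∧ f x = 0 := by
  have h1 : ContinuousOn (fun x : Fin (d + 1) → ℂ => (‖x‖⁻¹ : ℝ) • x) {0}ᶜ := by
    refine ContinuousOn.smul (ContinuousOn.inv₀ continuous_norm.continuousOn ?_) continuousOn_id
    intro x hx
    simpa using hx
  obtain ⟨x, hx, hfx⟩ := bu3 d (fun x => f ((‖x‖⁻¹ : ℝ) • x)) (hf.comp_continuousOn h1) (by
      intro x _
      show f ((‖tau x‖⁻¹ : ℝ) • tau x) = _
      rw [bu3_norm_tau, ← heq]
      congr 1
      exact ((tauL (d + 1)).map_smul _ x).symm)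
  refine ⟨(‖x‖⁻¹ : ℝ) • x, ?_, hfx⟩
  rw [norm_smul, norm_inv, norm_norm, inv_mul_cancel₀ (norm_ne_zero_iff.2 hx)]

end Pool.Agent.H11.TV
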