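import Pool.Agent.H11.TV.PDefs

set_option autoImplicit false
set_option linter.unusedSectionVars false
set_option linter.unusedVariables false

/-!
# Birch: `3 s` nonzero points of depth `s` split into `s` triples capturing the origin

PROOF of `cap_three`. Let `X = sin (C - B)`, `Y = - sin (C - A)`, `Z = sin (B - A)`, all nonnegative.
The identity `sin(C-B) e^{iA} + sin(A-C) e^{iB} + sin(B-A) e^{iC} = 0` gives
`(X / ρ1) z1 + (Y / ρ2) z2 + (Z / ρ3) z3 = 0` with `z1 = ρ1 e^{iA}` etc. If `X + Y + Z > 0` normalise. Otherwise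
`sin (C - A) = 0` and `π ≤ C - A < 2π`, so `C = A + π` and `e^{iC} = -e^{iA}`: take the weights
`ρ3 / (ρ1 + ρ3), 0, ρ1 / (ρ1 + ρ3)`.

PROOF of `birch`. Let `e : Fin (3 s) → ι` be injective with image `J` and `k ↦ θ_k := arg (v (e k))`
monotone (compose `J.equivFin` with `Tuple.sort`). All `θ_k ∈ (-π, π]`, `v (e k) = ρ_k e^{iθ_k}`, `ρ_k > 0`,
and `ip (e^{iα}) (v (e k)) = ρ_k cos (θ_k - α)`. For `j < s` let `A = θ_j`, `B = θ_{j+s}`, `C = θ_{j+2s}`.
Claim 1: `B - A ≤ π`. Otherwise let `α = (A + B) / 2`. Since `B ≤ π` and `A > -π`, `-π/2 < α < π/2`. For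
`k ≤ j`: `-3π/2 < θ_k - α ≤ -(B - A)/2 < -π/2`, so the cosine is negative; for `k ≥ j + s`:
`π/2 < (B - A)/2 ≤ θ_k - α < 3π/2`, negative. So at most the `s - 1` indices `j < k < j + s` are counted for
`u = e^{iα}`, contradiction to the depth.
Claim 2: `C - B ≤ π`, in the same way (with `j + s`, `j + 2 s`; prove Claim 1 for general `j + s < 3 s`).
Claim 3: `C - A ≥ π`. Otherwise let `α = (A + C)/2 + π`, i.e. `u = - e^{i(A+C)/2}`. For `j ≤ k ≤ j + 2 s`:
`|θ_k - (A+C)/2| ≤ (C - A)/2 < π/2`, so `ip u (v (e k)) < 0`. So at most `3 s - (2 s + 1) = s - 1` indices are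
counted, contradiction. Also `C - A < 2π`.
By `cap_three` the triple `{e j, e (j+s), e (j+2s)}` captures the origin. Colouring: `c (e k) = k % s`
(for `i ∉ J` anything).
-/

namespace Pool.Agent.H11.TV

variable {ι : Type} [Fintype ι]

/-- the point with argument `x` on the unit circle -/
private lemma birch_exp (x : ℝ) : Complex.exp (x * Complex.I) = ⟨Real.cos x, Real.sin x⟩ := by
  apply Complex.ext
  · rw [Complex.exp_ofReal_mul_I_re]
  · rw [Complex.exp_ofReal_mul_I_im]

private lemma birch_ip (α ρ θ : ℝ) :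
    ip (Complex.exp (α * Complex.I)) (ρ * Complex.exp (θ * Complex.I)) = ρ * Real.cos (θ - α) := by
  rw [birch_exp, birch_exp, ip, Real.cos_sub]
  simp
  ring

/-- three points with arguments `A ≤ B ≤ C` and gaps at most `π` capture the origin -/
theorem cap_three (A B C ρ1 ρ2 ρ3 : ℝ) (h1 : 0 < ρ1) (h2 : 0 < ρ2) (h3 : 0 < ρ3)
    (hAB : A ≤ B) (hBC : B ≤ C) (hAB' : B - A ≤ Real.pi) (hBC' : C - B ≤ Real.pi)
    (hCA : Real.pi ≤ C - A) (hCA' : C - A < 2 * Real.pi) :
    ∃ a b c : ℝ, 0 ≤ a ∧ 0 ≤ b ∧ 0 ≤ c ∧ a + b + c = 1 ∧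
      (a : ℂ) * (ρ1 * Complex.exp (A * Complex.I)) + (b : ℂ) * (ρ2 * Complex.exp (B * Complex.I))
        + (c : ℂ) * (ρ3 * Complex.exp (C * Complex.I)) = 0 := by
  have hX : 0 ≤ Real.sin (C - B) := Real.sin_nonneg_of_nonneg_of_le_pi (by linarith) hBC'
  have hZ : 0 ≤ Real.sin (B - A) := Real.sin_nonneg_of_nonneg_of_le_pi (by linarith) hAB'
  have hY : 0 ≤ - Real.sin (C - A) := by
    have h := Real.sin_nonneg_of_nonneg_of_le_pi (x := C - A - Real.pi) (by linarith)
      (by linarith)
    rw [Real.sin_sub_pi] at h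
    exact h
  have hX1 : 0 ≤ Real.sin (C - B) / ρ1 := div_nonneg hX h1.le
  have hY1 : 0 ≤ - Real.sin (C - A) / ρ2 := div_nonneg hY h2.le
  have hZ1 : 0 ≤ Real.sin (B - A) / ρ3 := div_nonneg hZ h3.le
  rcases (by positivity : (0 : ℝ) ≤ Real.sin (C - B) / ρ1 + - Real.sin (C - A) / ρ2
      + Real.sin (B - A) / ρ3).lt_or_eq with hT | hT
  · set T : ℝ := Real.sin (C - B) / ρ1 + - Real.sin (C - A) / ρ2 + Real.sin (B - A) / ρ3 with hTd
    refine ⟨Real.sin (C - B) / ρ1 / T, - Real.sin (C - A) / ρ2 / T, Real.sin (B - A) / ρ3 / T,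
      div_nonneg hX1 hT.le, div_nonneg hY1 hT.le, div_nonneg hZ1 hT.le, ?_, ?_⟩
    · rw [← add_div, ← add_div, ← hTd, div_self hT.ne']
    · have k1 : Real.sin (C - B) / ρ1 / T * ρ1 = Real.sin (C - B) / T := by
        field_simp
      have k2 : - Real.sin (C - A) / ρ2 / T * ρ2 = - Real.sin (C - A) / T := by
        field_simp
      have k3 : Real.sin (B - A) / ρ3 / T * ρ3 = Real.sin (B - A) / T := by
        field_simp
      have e1 : ((Real.sin (C - B) / ρ1 / T : ℝ) : ℂ) * (ρ1 * Complex.exp (A * Complex.I))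
          = ((Real.sin (C - B) / T : ℝ) : ℂ) * Complex.exp (A * Complex.I) := by
        rw [← k1, ← mul_assoc, ← Complex.ofReal_mul]
      have e2 : ((- Real.sin (C - A) / ρ2 / T : ℝ) : ℂ) * (ρ2 * Complex.exp (B * Complex.I))
          = ((- Real.sin (C - A) / T : ℝ) : ℂ) * Complex.exp (B * Complex.I) := by
        rw [← k2, ← mul_assoc, ← Complex.ofReal_mul]
      have e3 : ((Real.sin (B - A) / ρ3 / T : ℝ) : ℂ) * (ρ3 * Complex.exp (C * Complex.I))
          = ((Real.sin (B - A) / T : ℝ) : ℂ) * Complex.exp (C * Complex.I) := by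
        rw [← k3, ← mul_assoc, ← Complex.ofReal_mul]
      rw [e1, e2, e3, birch_exp, birch_exp, birch_exp]
      have q1 : Real.sin (C - B) * Real.cos A - Real.sin (C - A) * Real.cos B
          + Real.sin (B - A) * Real.cos C = 0 := by
        rw [Real.sin_sub, Real.sin_sub, Real.sin_sub]; ring
      have q2 : Real.sin (C - B) * Real.sin A - Real.sin (C - A) * Real.sin B
          + Real.sin (B - A) * Real.sin C = 0 := by
        rw [Real.sin_sub, Real.sin_sub, Real.sin_sub]; ring
      apply Complex.ext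
      · simp only [Complex.add_re, Complex.mul_re, Complex.ofReal_re, Complex.ofReal_im,
          Complex.zero_re, zero_mul, sub_zero]
        have : Real.sin (C - B) / T * Real.cos A + -Real.sin (C - A) / T * Real.cos B
            + Real.sin (B - A) / T * Real.cos C
            = (Real.sin (C - B) * Real.cos A - Real.sin (C - A) * Real.cos B
          + Real.sin (B - A) * Real.cos C) / T := by ring
        rw [this, q1, zero_div]
      · simp only [Complex.add_im, Complex.mul_im, Complex.ofReal_re, Complex.ofReal_im,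
          Complex.zero_im, zero_mul, add_zero]
        have : Real.sin (C - B) / T * Real.sin A + -Real.sin (C - A) / T * Real.sin B
            + Real.sin (B - A) / T * Real.sin C
            = (Real.sin (C - B) * Real.sin A - Real.sin (C - A) * Real.sin B
          + Real.sin (B - A) * Real.sin C) / T := by ring
        rw [this, q2, zero_div]
  · have hY0 : - Real.sin (C - A) / ρ2 = 0 := by linarith
    have hY2 : Real.sin (C - A) = 0 := by
      have := (div_eq_zero_iff.1 hY0).resolve_right h2.ne'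
      linarith
    have hCA2 : C - A = Real.pi := by
      have h4 : Real.sin (C - A - Real.pi) = 0 := by rw [Real.sin_sub_pi, hY2, neg_zero]
      have h5 := (Real.sin_eq_zero_iff_of_lt_of_lt (x := C - A - Real.pi)
        (by linarith [Real.pi_pos]) (by linarith)).1 h4
      linarith
    have hC : C = A + Real.pi := by linarith
    have h13 : 0 < ρ1 + ρ3 := by linarith
    refine ⟨ρ3 / (ρ1 + ρ3), 0, ρ1 / (ρ1 + ρ3), by positivity, le_rfl, by positivity, ?_, ?_⟩
    · field_simp
      ring
    · rw [hC, birch_exp, birch_exp, birch_exp, Real.cos_add_pi, Real.sin_add_pi]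
      apply Complex.ext
      · simp only [Complex.add_re, Complex.mul_re, Complex.ofReal_re, Complex.ofReal_im,
          Complex.mul_im, Complex.zero_re, zero_mul, sub_zero, add_zero, Complex.ofReal_zero]
        field_simp
        ring
      · simp only [Complex.add_im, Complex.mul_im, Complex.ofReal_re, Complex.ofReal_im,
          Complex.mul_re, Complex.zero_im, zero_mul, sub_zero, add_zero, Complex.ofReal_zero]
        field_simp
        ring

private lemma birch_cos_neg {x : ℝ} (h1 : Real.pi / 2 < |x|) (h2 : |x| < 3 * Real.pi / 2) :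
    Real.cos x < 0 := by
  rw [← Real.cos_abs]
  exact Real.cos_neg_of_pi_div_two_lt_of_lt h1 (by linarith)

open Classical in
theorem birch (v : ι → ℂ) (J : Finset ι) (s : ℕ) (hJ : J.card = 3 * s)
    (hv : ∀ i ∈ J, v i ≠ 0) (hd : ∀ u : ℂ, s ≤ (J.filter fun i => 0 ≤ ip u (v i)).card) :
    ∃ c : ι → ℕ, ∀ l < s, Cap v (fun i => i ∈ J ∧ c i = l) := by
  set f0 : Fin (3 * s) ≃ J := (J.equivFinOfCardEq hJ).symm with hf0
  set g : Fin (3 * s) → ℝ := fun k => Complex.arg (v (f0 k)) with hg
  set σ := Tuple.sort g with hσ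
  set e : Fin (3 * s) → ι := fun k => (f0 (σ k) : ι) with he
  have hinj : Function.Injective e := fun a b h => σ.injective (f0.injective (Subtype.ext h))
  have hmem : ∀ k, e k ∈ J := fun k => (f0 (σ k)).2
  have hsurj : ∀ i ∈ J, ∃ k, e k = i := by
    intro i hi
    refine ⟨σ.symm (f0.symm ⟨i, hi⟩), ?_⟩
    simp [he]
  have hmono : Monotone fun k => Complex.arg (v (e k)) := Tuple.monotone_sort g
  set θ : Fin (3 * s) → ℝ := fun k => Complex.arg (v (e k)) with hθ
  have hθ1 : ∀ k, -Real.pi < θ k := fun k => Complex.neg_pi_lt_arg _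
  have hθ2 : ∀ k, θ k ≤ Real.pi := fun k => Complex.arg_le_pi _
  have hvk : ∀ k, v (e k) = (‖v (e k)‖ : ℂ) * Complex.exp (θ k * Complex.I) := fun k =>
    (Complex.norm_mul_exp_arg_mul_I _).symm
  have hρ : ∀ k, 0 < ‖v (e k)‖ := fun k => norm_pos_iff.2 (hv _ (hmem k))
  have hip : ∀ k (α : ℝ), ip (Complex.exp (α * Complex.I)) (v (e k))
      = ‖v (e k)‖ * Real.cos (θ k - α) := by
    intro k α
    conv_lhs => rw [hvk k]
    exact birch_ip _ _ _
  -- counting
  have hcount : ∀ (u : ℂ) (T : Finset ℕ),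
      (∀ k : Fin (3 * s), 0 ≤ ip u (v (e k)) → (k : ℕ) ∈ T) → s ≤ T.card := by
    intro u T hT
    refine (hd u).trans ?_
    refine Finset.card_le_card_of_forall_subsingleton (fun i n => ∃ k, e k = i ∧ (k : ℕ) = n)
      ?_ ?_
    · intro i hi
      rw [Finset.mem_filter] at hi
      obtain ⟨k, hk⟩ := hsurj i hi.1
      refine ⟨(k : ℕ), hT k (by rw [hk]; exact hi.2), k, hk, rfl⟩
    · intro n _ a ha b hb
      obtain ⟨_, k, hk, hkn⟩ := ha
      obtain ⟨_, k', hk', hkn'⟩ := hb
      rw [← hk, ← hk']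
      congr 1
      exact Fin.ext (hkn.trans hkn'.symm)
  have hpi := Real.pi_pos
  have claim1 : ∀ p q : Fin (3 * s), (q : ℕ) = p + s → θ q - θ p ≤ Real.pi := by
    intro p q hpq
    by_contra hcon
    push Not at hcon
    have hs : 0 < s := by
      rcases Nat.eq_zero_or_pos s with h | h
      · exfalso
        have : p = q := Fin.ext (by omega)
        rw [this, sub_self] at hcon
        linarith
      · exact h
    have h := hcount (Complex.exp (((θ p + θ q) / 2 : ℝ) * Complex.I)) (Finset.Ioo (p : ℕ) q) ?_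
    · rw [Nat.card_Ioo] at h
      omega
    · intro k hk
      rw [hip] at hk
      rw [Finset.mem_Ioo]
      have hcos : 0 ≤ Real.cos (θ k - (θ p + θ q) / 2) := by
        by_contra hc
        push Not at hc
        nlinarith [hρ k]
      have h1 := hθ1 p
      have h2 := hθ2 q
      have h3 := hθ1 k
      have h4 := hθ2 k
      constructor
      · by_contra hkp
        push Not at hkp
        have h5 : θ k ≤ θ p := hmono (Fin.le_def.2 hkp)
        refine absurd hcos (not_le.2 (birch_cos_neg ?_ ?_))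
        · rw [abs_of_neg (by linarith)]
          linarith
        · rw [abs_of_neg (by linarith)]
          linarith
      · by_contra hkq
        push Not at hkq
        have h5 : θ q ≤ θ k := hmono (Fin.le_def.2 hkq)
        refine absurd hcos (not_le.2 (birch_cos_neg ?_ ?_))
        · rw [abs_of_pos (by linarith)]
          linarith
        · rw [abs_of_pos (by linarith)]
          linarith
  have claim3 : ∀ p q : Fin (3 * s), (q : ℕ) = p + 2 * s → Real.pi ≤ θ q - θ p := by
    intro p q hpq
    by_contra hcon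
    push Not at hcon
    have hp := p.2
    have hq := q.2
    have h := hcount (-Complex.exp (((θ p + θ q) / 2 : ℝ) * Complex.I))
      (Finset.range (p : ℕ) ∪ Finset.Ioo (q : ℕ) (3 * s)) ?_
    · have h6 := Finset.card_union_le (Finset.range (p : ℕ)) (Finset.Ioo (q : ℕ) (3 * s))
      rw [Nat.card_Ioo, Finset.card_range] at h6
      omega
    · intro k hk
      rw [ip_neg_left, hip] at hk
      rw [Finset.mem_union, Finset.mem_range, Finset.mem_Ioo]
      by_contra hc
      push Not at hc
      have hk2 := k.2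
      have hkq : (k : ℕ) ≤ q := by
        by_contra h7
        have := hc.2 (by omega)
        omega
      have h5 : θ k ≤ θ q := hmono (Fin.le_def.2 hkq)
      have h6 : θ p ≤ θ k := hmono (Fin.le_def.2 hc.1)
      have hcos : 0 < Real.cos (θ k - (θ p + θ q) / 2) :=
        Real.cos_pos_of_mem_Ioo ⟨by linarith, by linarith⟩
      nlinarith [hρ k, mul_pos (hρ k) hcos]
  -- the colouring
  refine ⟨fun i => if h : ∃ k, e k = i then ((h.choose : Fin (3 * s)) : ℕ) % s else 0, ?_⟩
  have hcol : ∀ k : Fin (3 * s), (fun i => if h : ∃ k, e k = i then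
      ((h.choose : Fin (3 * s)) : ℕ) % s else 0) (e k) = (k : ℕ) % s := by
    intro k
    have h : ∃ k', e k' = e k := ⟨k, rfl⟩
    have h2 : h.choose = k := hinj h.choose_spec
    simp only [dif_pos h, h2]
  intro l hl
  set k0 : Fin (3 * s) := ⟨l, by omega⟩ with hk0
  set k1 : Fin (3 * s) := ⟨l + s, by omega⟩ with hk1
  set k2 : Fin (3 * s) := ⟨l + 2 * s, by omega⟩ with hk2
  have h01 : θ k0 ≤ θ k1 := hmono (Fin.le_def.2 (by simp [hk0, hk1]))
  have h12 : θ k1 ≤ θ k2 := hmono (Fin.le_def.2 (by simp [hk1, hk2]; omega))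
  have c1 : θ k1 - θ k0 ≤ Real.pi := claim1 k0 k1 (by simp [hk0, hk1])
  have c2 : θ k2 - θ k1 ≤ Real.pi := claim1 k1 k2 (by simp [hk1, hk2]; omega)
  have c3 : Real.pi ≤ θ k2 - θ k0 := claim3 k0 k2 (by simp [hk0, hk2])
  have c4 : θ k2 - θ k0 < 2 * Real.pi := by
    have := hθ1 k0
    have := hθ2 k2
    linarith
  obtain ⟨a, b, c, ha, hb, hc, habc, hsum⟩ := cap_three (θ k0) (θ k1) (θ k2) ‖v (e k0)‖
    ‖v (e k1)‖ ‖v (e k2)‖ (hρ k0) (hρ k1) (hρ k2) h01 h12 c1 c2 c3 c4
  rw [← hvk k0, ← hvk k1, ← hvk k2] at hsum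
  refine ⟨fun i => (if i = e k0 then a else 0) + (if i = e k1 then b else 0)
    + (if i = e k2 then c else 0), ?_, ?_, ?_, ?_⟩
  · intro i
    have h1 : 0 ≤ (if i = e k0 then a else 0) := by split_ifs <;> [exact ha; exact le_rfl]
    have h2 : 0 ≤ (if i = e k1 then b else 0) := by split_ifs <;> [exact hb; exact le_rfl]
    have h3 : 0 ≤ (if i = e k2 then c else 0) := by split_ifs <;> [exact hc; exact le_rfl]
    linarith
  · intro i hi
    have n0 : i ≠ e k0 := by
      rintro rfl
      exact hi ⟨hmem _, by rw [hcol]; exact Nat.mod_eq_of_lt hl⟩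
    have n1 : i ≠ e k1 := by
      rintro rfl
      refine hi ⟨hmem _, ?_⟩
      rw [hcol]
      simp only [hk1, Nat.add_mod_right]
      exact Nat.mod_eq_of_lt hl
    have n2 : i ≠ e k2 := by
      rintro rfl
      refine hi ⟨hmem _, ?_⟩
      rw [hcol]
      simp only [hk2, Nat.add_mul_mod_self_right]
      exact Nat.mod_eq_of_lt hl
    simp only [if_neg n0, if_neg n1, if_neg n2, add_zero]
  · rw [Finset.sum_add_distrib, Finset.sum_add_distrib]
    simp only [Finset.sum_ite_eq', Finset.mem_univ, if_true]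
    exact habc
  · have hterm : ∀ i, (((if i = e k0 then a else 0) + (if i = e k1 then b else 0)
        + (if i = e k2 then c else 0) : ℝ) : ℂ) * v i
        = (if i = e k0 then (a : ℂ) * v (e k0) else 0) + (if i = e k1 then (b : ℂ) * v (e k1) else 0)
        + (if i = e k2 then (c : ℂ) * v (e k2) else 0) := by
      intro i
      push_cast
      rw [add_mul, add_mul]
      congr 1
      · congr 1
        · split_ifs with h
          · rw [h]
          · simp
        · split_ifs with h
          · rw [h]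
          · simp
      · split_ifs with h
        · rw [h]
        · simp
    simp only [hterm]
    rw [Finset.sum_add_distrib, Finset.sum_add_distrib]
    simp only [Finset.sum_ite_eq', Finset.mem_univ, if_true]
    exact hsum

end Pool.Agent.H11.TV
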