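import Mathlib

set_option autoImplicit false
set_option linter.unusedSectionVars false
set_option linter.unusedVariables false

/-!
# Chains of lists with coefficients in Z/3, boundary, cone, subdivision operators

A chain is a finitely supported function on lists (lists of length `q + 1` are `q`-simplices,
the empty list is the generator of degree `-1`). Everything is ungraded.
-/

namespace Pool.Agent.H11.TV

/-- chains of lists over `X` with coefficients in `ZMod 3` -/
abbrev Ch (X : Type) : Type := List X →₀ ZMod 3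

/-- the generator -/
noncomputable def gen {X : Type} (l : List X) : Ch X := Finsupp.single l 1

/-- cone with apex `x` -/
noncomputable def cone {X : Type} (x : X) : Ch X →ₗ[ZMod 3] Ch X :=
  Finsupp.lmapDomain (ZMod 3) (ZMod 3) (List.cons x)

/-- linear extension of a map defined on lists -/
noncomputable def lin {X : Type} {M : Type} [AddCommGroup M] [Module (ZMod 3) M]
    (f : List X → M) : Ch X →ₗ[ZMod 3] M :=
  Finsupp.linearCombination (ZMod 3) f

/-- boundary of a list -/
noncomputable def bdl {X : Type} : List X → Ch X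
  | [] => 0
  | x :: l => gen l - cone x (bdl l)

/-- the boundary -/
noncomputable def bd {X : Type} : Ch X →ₗ[ZMod 3] Ch X := lin bdl

/-- the induced map -/
noncomputable def pmap {X Y : Type} (f : X → Y) : Ch X →ₗ[ZMod 3] Ch Y :=
  Finsupp.lmapDomain (ZMod 3) (ZMod 3) (List.map f)

/-- the subdivision operator belonging to a choice `b` of a point for each list -/
noncomputable def sd {X Y : Type} (b : List X → Y) : ℕ → (Ch X →ₗ[ZMod 3] Ch Y)
  | 0 => lin (fun _ => gen [])
  | n + 1 => lin (fun l => cone (b l) (sd b n (bdl l)))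

section
variable {X Y W : Type}

lemma lin_gen {M : Type} [AddCommGroup M] [Module (ZMod 3) M] (f : List X → M) (l : List X) :
    lin f (gen l) = f l := by
  simp [lin, gen, Finsupp.linearCombination_single]

lemma ch_ext {M : Type} [AddCommGroup M] [Module (ZMod 3) M] {f g : Ch X →ₗ[ZMod 3] M}
    (h : ∀ l, f (gen l) = g (gen l)) : f = g := by
  apply Finsupp.lhom_ext'
  intro l
  ext
  exact h l

lemma cone_gen (x : X) (l : List X) : cone x (gen l) = gen (x :: l) := by
  simp [cone, gen, Finsupp.lmapDomain_apply, Finsupp.mapDomain_single]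

lemma pmap_gen (f : X → Y) (l : List X) : pmap f (gen l) = gen (l.map f) := by
  simp [pmap, gen, Finsupp.lmapDomain_apply, Finsupp.mapDomain_single]

@[simp] lemma bd_gen (l : List X) : bd (gen l) = bdl l := lin_gen _ _

@[simp] lemma bdl_nil : bdl ([] : List X) = 0 := rfl

lemma bdl_cons (x : X) (l : List X) : bdl (x :: l) = gen l - cone x (bdl l) := rfl

lemma bd_cone (x : X) (c : Ch X) : bd (cone x c) = c - cone x (bd c) := by
  have : (bd ∘ₗ cone x : Ch X →ₗ[ZMod 3] Ch X) = LinearMap.id - cone x ∘ₗ bd := by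
    apply ch_ext
    intro l
    simp [cone_gen, bdl_cons]
  have h := congrArg (fun φ : Ch X →ₗ[ZMod 3] Ch X => φ c) this
  simpa using h

lemma bd_bdl (l : List X) : bd (bdl l) = 0 := by
  induction l with
  | nil => simp
  | cons x l ih => rw [bdl_cons, map_sub, bd_cone, ih, bd_gen]; simp

lemma bd_bd (c : Ch X) : bd (bd c) = 0 := by
  have : (bd ∘ₗ bd : Ch X →ₗ[ZMod 3] Ch X) = 0 := by
    apply ch_ext
    intro l
    simp [bd_bdl]
  have h := congrArg (fun φ : Ch X →ₗ[ZMod 3] Ch X => φ c) this
  simpa using h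

lemma pmap_cone (f : X → Y) (x : X) (c : Ch X) : pmap f (cone x c) = cone (f x) (pmap f c) := by
  have : (pmap f ∘ₗ cone x : Ch X →ₗ[ZMod 3] Ch Y) = cone (f x) ∘ₗ pmap f := by
    apply ch_ext
    intro l
    simp [cone_gen, pmap_gen]
  have h := congrArg (fun φ : Ch X →ₗ[ZMod 3] Ch Y => φ c) this
  simpa using h

lemma pmap_bdl (f : X → Y) (l : List X) : pmap f (bdl l) = bdl (l.map f) := by
  induction l with
  | nil => simp
  | cons x l ih => rw [bdl_cons, map_sub, pmap_cone, ih, pmap_gen, List.map_cons, bdl_cons]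

lemma pmap_bd (f : X → Y) (c : Ch X) : pmap f (bd c) = bd (pmap f c) := by
  have : (pmap f ∘ₗ bd : Ch X →ₗ[ZMod 3] Ch Y) = bd ∘ₗ pmap f := by
    apply ch_ext
    intro l
    simp [pmap_bdl, pmap_gen]
  have h := congrArg (fun φ : Ch X →ₗ[ZMod 3] Ch Y => φ c) this
  simpa using h

lemma pmap_pmap (f : X → Y) (g : Y → W) (c : Ch X) : pmap g (pmap f c) = pmap (g ∘ f) c := by
  have : (pmap g ∘ₗ pmap f : Ch X →ₗ[ZMod 3] Ch W) = pmap (g ∘ f) := by
    apply ch_ext
    intro l
    simp [pmap_gen]
  have h := congrArg (fun φ : Ch X →ₗ[ZMod 3] Ch W => φ c) this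
  simpa using h

lemma pmap_id (c : Ch X) : pmap (fun x => x) c = c := by
  have : (pmap (fun x => x) : Ch X →ₗ[ZMod 3] Ch X) = LinearMap.id := by
    apply ch_ext
    intro l
    simp [pmap_gen]
  have h := congrArg (fun φ : Ch X →ₗ[ZMod 3] Ch X => φ c) this
  simpa using h

lemma sd_zero_gen (b : List X → Y) (l : List X) : sd b 0 (gen l) = gen [] := lin_gen _ _

lemma sd_succ_gen (b : List X → Y) (n : ℕ) (l : List X) :
    sd b (n + 1) (gen l) = cone (b l) (sd b n (bdl l)) := lin_gen _ _

/-- subdivision operators are chain maps -/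
lemma bd_sd (b : List X → Y) (n : ℕ) (c : Ch X) : bd (sd b (n + 1) c) = sd b n (bd c) := by
  have key : ∀ n, (bd ∘ₗ sd b (n + 1) : Ch X →ₗ[ZMod 3] Ch Y) = sd b n ∘ₗ bd := by
    intro n
    induction n with
    | zero =>
      apply ch_ext
      intro l
      have h0 : ∀ c : Ch X, bd (sd b 0 c) = 0 := by
        intro c
        have : (bd ∘ₗ sd b 0 : Ch X →ₗ[ZMod 3] Ch Y) = 0 := by
          apply ch_ext
          intro l
          simp [sd_zero_gen]
        have h := congrArg (fun φ : Ch X →ₗ[ZMod 3] Ch Y => φ c) this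
        simpa using h
      simp [sd_succ_gen, bd_cone, h0]
    | succ n ih =>
      apply ch_ext
      intro l
      have h1 : bd (sd b (n + 1) (bdl l)) = 0 := by
        have h := congrArg (fun φ : Ch X →ₗ[ZMod 3] Ch Y => φ (bdl l)) ih
        simp only [LinearMap.comp_apply] at h
        rw [h, bd_bdl, map_zero]
      simp only [LinearMap.comp_apply]
      rw [sd_succ_gen, bd_cone, h1, map_zero, sub_zero, bd_gen]
  have h := congrArg (fun φ : Ch X →ₗ[ZMod 3] Ch Y => φ c) (key n)
  simpa using h

/-- naturality of subdivision operators -/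
lemma sd_pmap {X' Y' : Type} (b : List X → Y) (b' : List X' → Y') (f : X → X') (g : Y → Y')
    (h : ∀ l : List X, l ≠ [] → b' (l.map f) = g (b l)) (n : ℕ) (c : Ch X) :
    sd b' n (pmap f c) = pmap g (sd b n c) := by
  have key : ∀ n, (sd b' n ∘ₗ pmap f : Ch X →ₗ[ZMod 3] Ch Y') = pmap g ∘ₗ sd b n := by
    intro n
    induction n with
    | zero =>
      apply ch_ext
      intro l
      simp [pmap_gen, sd_zero_gen]
    | succ n ih =>
      apply ch_ext
      intro l
      simp only [LinearMap.comp_apply, pmap_gen, sd_succ_gen]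
      rw [← pmap_bdl, pmap_cone]
      have h1 := congrArg (fun φ : Ch X →ₗ[ZMod 3] Ch Y' => φ (bdl l)) ih
      simp only [LinearMap.comp_apply] at h1
      rw [h1]
      by_cases hl : l = []
      · subst hl; simp
      · rw [h l hl]
  have h' := congrArg (fun φ : Ch X →ₗ[ZMod 3] Ch Y' => φ c) (key n)
  simpa using h'

/-! ### supports -/

/-- all lists occurring in `c` satisfy `P` -/
def On (P : List X → Prop) (c : Ch X) : Prop := c ∈ Finsupp.supported (ZMod 3) (ZMod 3) {l | P l}

lemma on_iff {P : List X → Prop} {c : Ch X} : On P c ↔ ∀ l, c l ≠ 0 → P l := by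
  unfold On
  rw [Finsupp.mem_supported]
  constructor
  · intro h l hl
    exact h (Finsupp.mem_support_iff.2 hl)
  · intro h l hl
    exact h l (Finsupp.mem_support_iff.1 hl)

lemma On.mono {P Q : List X → Prop} {c : Ch X} (h : On P c) (hPQ : ∀ l, P l → Q l) : On Q c :=
  Finsupp.supported_mono (fun l hl => hPQ l hl) h

lemma on_zero (P : List X → Prop) : On P (0 : Ch X) := Submodule.zero_mem _

lemma On.add {P : List X → Prop} {c c' : Ch X} (h : On P c) (h' : On P c') : On P (c + c') :=
  Submodule.add_mem _ h h'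

lemma On.sub {P : List X → Prop} {c c' : Ch X} (h : On P c) (h' : On P c') : On P (c - c') :=
  Submodule.sub_mem _ h h'

lemma On.smul {P : List X → Prop} {c : Ch X} (h : On P c) (a : ZMod 3) : On P (a • c) :=
  Submodule.smul_mem _ a h

lemma on_gen {P : List X → Prop} {l : List X} (h : P l) : On P (gen l) :=
  Finsupp.single_mem_supported _ _ h

/-- a linear map sends chains on `P` to chains on `Q` if it does so for the generators -/
lemma On.map {P : List X → Prop} {Q : List Y → Prop} {c : Ch X} (h : On P c)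
    (φ : Ch X →ₗ[ZMod 3] Ch Y) (hφ : ∀ l, P l → On Q (φ (gen l))) : On Q (φ c) := by
  have h1 : c = ∑ l ∈ c.support, c l • gen l := by
    conv_lhs => rw [← Finsupp.sum_single c]
    unfold Finsupp.sum
    apply Finset.sum_congr rfl
    intro l _
    rw [gen, Finsupp.smul_single, smul_eq_mul, mul_one]
  rw [h1, map_sum]
  apply Submodule.sum_mem
  intro l hl
  rw [map_smul]
  exact Submodule.smul_mem _ _ (hφ l (on_iff.1 h l (Finsupp.mem_support_iff.1 hl)))

/-- two linear maps agreeing on the generators satisfying `P` agree on chains on `P` -/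
lemma On.map_eq {M : Type} [AddCommGroup M] [Module (ZMod 3) M] {P : List X → Prop} {c : Ch X}
    (h : On P c) (φ ψ : Ch X →ₗ[ZMod 3] M) (hφ : ∀ l, P l → φ (gen l) = ψ (gen l)) :
    φ c = ψ c := by
  have h1 : c = ∑ l ∈ c.support, c l • gen l := by
    conv_lhs => rw [← Finsupp.sum_single c]
    unfold Finsupp.sum
    apply Finset.sum_congr rfl
    intro l _
    rw [gen, Finsupp.smul_single, smul_eq_mul, mul_one]
  rw [h1, map_sum, map_sum]
  apply Finset.sum_congr rfl
  intro l hl
  rw [map_smul, map_smul, hφ l (on_iff.1 h l (Finsupp.mem_support_iff.1 hl))]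

lemma On.cone {P Q : List X → Prop} {c : Ch X} (h : On P c) (x : X)
    (hQ : ∀ l, P l → Q (x :: l)) : On Q (cone x c) :=
  h.map _ fun l hl => by rw [cone_gen]; exact on_gen (hQ l hl)

lemma On.pmap {P : List X → Prop} {Q : List Y → Prop} {c : Ch X} (h : On P c) (f : X → Y)
    (hQ : ∀ l, P l → Q (l.map f)) : On Q (pmap f c) :=
  h.map _ fun l hl => by rw [pmap_gen]; exact on_gen (hQ l hl)

/-- the faces of `l` are sublists of `l` of length one less -/
lemma on_bdl (l : List X) : On (fun m => m.Sublist l ∧ m.length + 1 = l.length) (bdl l) := by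
  induction l with
  | nil => exact on_zero _
  | cons x l ih =>
    rw [bdl_cons]
    refine On.sub (on_gen ⟨List.sublist_cons_self x l, rfl⟩) (ih.cone x ?_)
    rintro m ⟨hm, hl⟩
    exact ⟨hm.cons_cons x, by simp [← hl]⟩

end

end Pool.Agent.H11.TV
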