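import Pool.Agent.H11.TV.PDefs

set_option autoImplicit false
set_option linter.unusedSectionVars false
set_option linter.unusedVariables false

/-!
# Closed: the set of configurations with `r` disjoint capturing sets is closed

PROOF. (a) For a predicate `P` the set `{v | Cap v P}` is closed: the set `K` of all `w : ι → ℝ` with
`0 ≤ w i`, `w i = 0` if `¬ P i`, `∑ w i = 1` is compact (closed in `stdSimplex ℝ ι`, or in
`Set.pi univ (fun _ => Set.Icc 0 1)`), and `{v | ∃ w ∈ K, ∑ w i * v i = 0}` is the image under the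
projection of a closed subset of `K × (ι → ℂ)`; e.g. `IsCompact.isClosed_...`, or by sequences
(`IsSeqClosed`, `IsCompact.tendsto_subseq`).
(b) `TVr r v` iff there is `c : ι → Fin (r + 1)` with `Cap v (fun i => (c i : ℕ) = l)` for all `l < r`
(replace `c i` by `min (c i) r`). So the set is a finite union of finite intersections of closed
sets.
`tvr_zero`: the zero configuration: only if `r ≤ card ι`: take an injection of `Fin r` into `ι`
(colour `l` for the image of `l`), weights `1` at one point.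
-/

namespace Pool.Agent.H11.TV

variable {ι : Type} [Fintype ι]

/-- The weights supported on `P` form a compact set. -/
private theorem closed_compact (P : ι → Prop) :
    IsCompact {w : ι → ℝ | (∀ i, 0 ≤ w i) ∧ (∀ i, ¬ P i → w i = 0) ∧ ∑ i, w i = 1} := by
  have h : {w : ι → ℝ | (∀ i, 0 ≤ w i) ∧ (∀ i, ¬ P i → w i = 0) ∧ ∑ i, w i = 1} =
      stdSimplex ℝ ι ∩ {w : ι → ℝ | ∀ i, ¬ P i → w i = 0} := by
    ext w
    simp only [Set.mem_ofPred_eq, Set.mem_inter_iff, stdSimplex]
    tauto
  rw [h]
  refine (isCompact_stdSimplex ℝ ι).inter_right ?_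
  simp only [Set.ofPred_forall]
  refine isClosed_iInter fun i => isClosed_iInter fun _ => ?_
  exact isClosed_eq (continuous_apply i) continuous_const

/-- Capturing by the points of `P` is a closed condition. -/
private theorem closed_cap (P : ι → Prop) : IsClosed {v : ι → ℂ | Cap v P} := by
  have hK := closed_compact (ι := ι) P
  rw [← isSeqClosed_iff_isClosed]
  intro x p hx hp
  choose w hw using hx
  have hmem : ∀ n, w n ∈ {w : ι → ℝ | (∀ i, 0 ≤ w i) ∧ (∀ i, ¬ P i → w i = 0) ∧ ∑ i, w i = 1} :=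
    fun n => ⟨(hw n).1, (hw n).2.1, (hw n).2.2.1⟩
  obtain ⟨a, ha, φ, hφ, hlim⟩ := hK.tendsto_subseq hmem
  refine ⟨a, ha.1, ha.2.1, ha.2.2, ?_⟩
  have hp' : Filter.Tendsto (x ∘ φ) Filter.atTop (nhds p) := hp.comp hφ.tendsto_atTop
  have h1 : Filter.Tendsto (fun n => ∑ i, ((w (φ n) i : ℝ) : ℂ) * x (φ n) i) Filter.atTop
      (nhds (∑ i, ((a i : ℝ) : ℂ) * p i)) := by
    refine tendsto_finsetSum _ fun i _ => ?_
    refine Filter.Tendsto.mul ?_ ?_
    · exact (Complex.continuous_ofReal.tendsto _).comp ((tendsto_pi_nhds.1 hlim) i)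
    · exact (tendsto_pi_nhds.1 hp') i
  have h2 : (fun n => ∑ i, ((w (φ n) i : ℝ) : ℂ) * x (φ n) i) = fun _ => (0 : ℂ) := by
    funext n
    exact (hw (φ n)).2.2.2
  rw [h2] at h1
  exact (tendsto_nhds_unique h1 tendsto_const_nhds)

/-- Only finitely many colours matter. -/
private theorem closed_eq (r : ℕ) : {v : ι → ℂ | TVr r v} =
    ⋃ c : ι → Fin (r + 1), ⋂ l : Fin r, {v : ι → ℂ | Cap v (fun i => (c i : ℕ) = l)} := by
  ext v
  simp only [Set.mem_ofPred_eq, Set.mem_iUnion, Set.mem_iInter]
  constructor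
  · rintro ⟨c, hc⟩
    refine ⟨fun i => ⟨min (c i) r, by omega⟩, fun l => ?_⟩
    have h := hc l l.2
    have he : (fun i => c i = (l : ℕ)) = fun i => (((⟨min (c i) r, by omega⟩ : Fin (r + 1)) : ℕ) = l) := by
      funext i
      apply propext
      have := l.2
      simp only
      omega
    rw [← he]
    exact h
  · rintro ⟨c, hc⟩
    exact ⟨fun i => c i, fun l hl => hc ⟨l, hl⟩⟩

theorem tv_closed (r : ℕ) : IsClosed {v : ι → ℂ | TVr r v} := by
  rw [closed_eq]
  exact isClosed_iUnion_of_finite fun c => isClosed_iInter fun l => closed_cap _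

theorem tvr_zero (r : ℕ) (h : r ≤ Fintype.card ι) : TVr r (0 : ι → ℂ) := by
  classical
  have h' : Fintype.card (Fin r) ≤ Fintype.card ι := by simpa using h
  obtain ⟨f⟩ := Function.Embedding.nonempty_of_card_le h'
  refine ⟨fun i => if hi : ∃ l, f l = i then (hi.choose : ℕ) else r, fun l hl => ?_⟩
  refine ⟨fun i => if i = f ⟨l, hl⟩ then 1 else 0, fun i => ?_, fun i hi => ?_, ?_, ?_⟩
  · dsimp only
    split_ifs <;> norm_num
  · dsimp only
    rw [if_neg]
    rintro rfl
    apply hi
    have hex : ∃ l', f l' = f ⟨l, hl⟩ := ⟨_, rfl⟩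
    dsimp only
    rw [dif_pos hex]
    have := f.injective hex.choose_spec
    rw [this]
  · simp
  · simp

end Pool.Agent.H11.TV
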