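import Pool.Agent.H11.TV.Chain

set_option autoImplicit false
set_option linter.unusedSectionVars false
set_option linter.unusedVariables false

/-!
# Cochain: the cochains of Z/3 and the main algebraic induction

`lin phi : Ch (ZMod 3) → ZMod 3` is the pairing with a function `phi` on lists, `shf` the shift.

PROOF. Facts on `ZMod 3` by `decide`:
 `kap g g = 0`, `car (g+1) (h+1) (k+1) = car g h k`,
 `kap g h + kap (g+1) (h+1) + kap (g+2) (h+2) = h - g`,
 `car h k m - car g k m + car g h m - car g h k = 0` (from the definition by `ring`).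

(a) `bet_shift`, by recursion (pattern of `bet`).

(b) `bet_bdl`: `lin bet (bdl l) = 0` for a list `l` with `l.length = 2 * i + 2`. Induction on `i`.
  `i = 0`: `l = [g, h]`, `bdl l = gen [h] - gen [g]` (plus `cone g (cone h 0)`), value `1 - 1 = 0`.
  `i + 1`: `l = g :: h :: k :: m :: l'`,
  `bdl l = gen (h::k::m::l') - gen (g::k::m::l') + gen (g::h::m::l') - cone g (cone h (cone k (bdl (m::l'))))`;
  use `lin bet (cone g (cone h (cone k c))) = car g h k * lin bet (cone k c)` for all chains `c`
  (check on generators: definition of `bet`, any tail), and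
  `cone k (bdl (m :: l')) = gen (m :: l') - bdl (k :: m :: l')`, so by induction
  `lin bet (cone k (bdl (m :: l'))) = bet (m :: l')`. Altogether the value is
  `(car h k m - car g k m + car g h m - car g h k) * bet (m :: l') = 0`.

(c) `sig_bdl`: `lin sig (bdl l) = alp l` for `l.length = 2 * i + 2`, `l = g :: h :: l'`:
  `bdl l = gen (h::l') - cone g (bdl (h::l'))`, `sig (h::l') = h * bet (h::l')`,
  `lin sig (cone g c) = g * lin bet (cone g c)` for all `c`, and
  `cone g (bdl (h::l')) = gen (h::l') - bdl (g::h::l')`, `lin bet (bdl (g::h::l')) = 0` by (b): so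
  the value is `h * bet (h::l') - g * bet (h::l')`.

(d) `rho_bdl`: `lin rho (bdl l) = bet l` for `l.length = 2 * i + 3`, `l = g :: h :: k :: l'`:
  `bdl l = gen (h::k::l') - gen (g::k::l') + cone g (cone h (bdl (k::l')))`,
  `lin rho (cone g (cone h c)) = kap g h * lin bet (cone h c)`, and
  `cone h (bdl (k::l')) = gen (k::l') - bdl (h::k::l')`, `lin bet (bdl (h::k::l')) = 0` by (b).
  The value is `(kap h k - kap g k + kap g h) * bet (k::l')`.

(e) `sig_shift`: `sig (l.map (· + 1)) - sig l = bet l` for `l ≠ []` (use (a)).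
(f) `rho_shift`: `rho l + rho (l.map (· + 1)) + rho ((l.map (· + 1)).map (· + 1)) = alp l` for all
  `l` (for lists of length at most one all terms are zero; use (a)).

(g) `alp_chain`: recursion: `bet_chain : bet l ≠ 0 → l.IsChain (· ≠ ·)` because
  `car g g k = 0`, `car g h h = 0`.

(h) `cochain_main`: prove by induction on `i ≤ d`: `lin bet (A i) = 1` and `lin alp (E i) = 1`.
  `lin alp (E i) = lin sig (bd (E i))` (`On.map_eq` with `lin alp` and `lin sig ∘ₗ bd`, (c))
  `= lin sig (shf (A i)) - lin sig (A i) = lin bet (A i)` (`On.map_eq`, (e)).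
  `lin bet (A (i+1)) = lin rho (bd (A (i+1)))` (d) `= lin rho (E i + shf (E i) + shf (shf (E i)))
  = lin alp (E i)` (f).
-/

namespace Pool.Agent.H11.TV

/-- descent indicator -/
def kap (g h : ZMod 3) : ZMod 3 := if h.val < g.val then 1 else 0

/-- carry cocycle -/
def car (g h k : ZMod 3) : ZMod 3 := kap h k - kap g k + kap g h

def bet : List (ZMod 3) → ZMod 3
  | [] => 0
  | [_] => 1
  | [_, _] => 0
  | g :: h :: k :: l => car g h k * bet (k :: l)

def alp : List (ZMod 3) → ZMod 3
  | g :: h :: l => (h - g) * bet (h :: l)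
  | _ => 0

def rho : List (ZMod 3) → ZMod 3
  | g :: h :: l => kap g h * bet (h :: l)
  | _ => 0

def sig : List (ZMod 3) → ZMod 3
  | g :: l => g * bet (g :: l)
  | _ => 0

/-- the shift on chains -/
noncomputable def shf : Ch (ZMod 3) →ₗ[ZMod 3] Ch (ZMod 3) := pmap (fun g => g + 1)

private lemma kap_self (g : ZMod 3) : kap g g = 0 := by
  unfold kap
  simp

private lemma car_shift (g h k : ZMod 3) : car (g + 1) (h + 1) (k + 1) = car g h k := by
  revert g h k
  decide

private lemma kap_sum (g h : ZMod 3) :
    kap g h + kap (g + 1) (h + 1) + kap (g + 1 + 1) (h + 1 + 1) = h - g := by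
  revert g h
  decide

private lemma car_left (g k : ZMod 3) : car g g k = 0 := by
  unfold car
  rw [kap_self]
  ring

private lemma car_right (g h : ZMod 3) : car g h h = 0 := by
  unfold car
  rw [kap_self]
  ring

private lemma bet_shift : ∀ l : List (ZMod 3), bet (l.map (fun g => g + 1)) = bet l
  | [] => rfl
  | [_] => rfl
  | [_, _] => rfl
  | g :: h :: k :: l => by
    have ih := bet_shift (k :: l)
    simp only [List.map_cons] at ih ⊢
    simp only [bet]
    rw [car_shift, ih]

private lemma bet_ccc (g h k : ZMod 3) (c : Ch (ZMod 3)) :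
    lin bet (cone g (cone h (cone k c))) = car g h k * lin bet (cone k c) := by
  have key : (lin bet ∘ₗ cone g ∘ₗ cone h ∘ₗ cone k : Ch (ZMod 3) →ₗ[ZMod 3] ZMod 3) =
      car g h k • (lin bet ∘ₗ cone k) := by
    apply ch_ext
    intro l
    simp [cone_gen, lin_gen, bet]
  have h2 := congrArg (fun φ : Ch (ZMod 3) →ₗ[ZMod 3] ZMod 3 => φ c) key
  simpa using h2

private lemma sig_c (g : ZMod 3) (c : Ch (ZMod 3)) :
    lin sig (cone g c) = g * lin bet (cone g c) := by
  have key : (lin sig ∘ₗ cone g : Ch (ZMod 3) →ₗ[ZMod 3] ZMod 3) =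
      g • (lin bet ∘ₗ cone g) := by
    apply ch_ext
    intro l
    simp [cone_gen, lin_gen, sig]
  have h2 := congrArg (fun φ : Ch (ZMod 3) →ₗ[ZMod 3] ZMod 3 => φ c) key
  simpa using h2

private lemma rho_cc (g h : ZMod 3) (c : Ch (ZMod 3)) :
    lin rho (cone g (cone h c)) = kap g h * lin bet (cone h c) := by
  have key : (lin rho ∘ₗ cone g ∘ₗ cone h : Ch (ZMod 3) →ₗ[ZMod 3] ZMod 3) =
      kap g h • (lin bet ∘ₗ cone h) := by
    apply ch_ext
    intro l
    simp [cone_gen, lin_gen, rho]
  have h2 := congrArg (fun φ : Ch (ZMod 3) →ₗ[ZMod 3] ZMod 3 => φ c) key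
  simpa using h2

private lemma bet_bdl : ∀ (i : ℕ) (l : List (ZMod 3)), l.length = 2 * i + 2 →
    lin bet (bdl l) = (0 : ZMod 3)
  | 0, l, hl => by
    match l, hl with
    | [g, h], _ =>
      simp [bdl_cons, cone_gen, lin_gen, bet]
  | i + 1, l, hl => by
    match l, hl with
    | g :: h :: k :: m :: l', hl =>
      have ih := bet_bdl i (k :: m :: l') (by simp only [List.length_cons] at hl ⊢; omega)
      have e1 : cone k (bdl (m :: l')) = gen (m :: l') - bdl (k :: m :: l') := by
        rw [bdl_cons k]
        abel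
      have e2 : lin bet (cone k (bdl (m :: l'))) = bet (m :: l') := by
        rw [e1, map_sub, ih, lin_gen, sub_zero]
      rw [bdl_cons g, bdl_cons h, bdl_cons k]
      simp only [map_sub, cone_gen, lin_gen]
      rw [bet_ccc, e2]
      simp only [bet, car]
      ring

private lemma sig_bdl (i : ℕ) (l : List (ZMod 3)) (hl : l.length = 2 * i + 2) :
    lin sig (bdl l) = (alp l : ZMod 3) := by
  match l, hl with
  | g :: h :: l', hl =>
    have h0 := bet_bdl i (g :: h :: l') hl
    have e1 : cone g (bdl (h :: l')) = gen (h :: l') - bdl (g :: h :: l') := by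
      rw [bdl_cons g]
      abel
    have e2 : lin bet (cone g (bdl (h :: l'))) = bet (h :: l') := by
      rw [e1, map_sub, h0, lin_gen, sub_zero]
    rw [bdl_cons g, map_sub, sig_c, e2, lin_gen]
    simp only [sig, alp]
    ring

private lemma rho_bdl (i : ℕ) (l : List (ZMod 3)) (hl : l.length = 2 * i + 3) :
    lin rho (bdl l) = (bet l : ZMod 3) := by
  match l, hl with
  | g :: h :: k :: l', hl =>
    have h0 := bet_bdl i (h :: k :: l') (by simp only [List.length_cons] at hl ⊢; omega)
    have e1 : cone h (bdl (k :: l')) = gen (k :: l') - bdl (h :: k :: l') := by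
      rw [bdl_cons h]
      abel
    have e2 : lin bet (cone h (bdl (k :: l'))) = bet (k :: l') := by
      rw [e1, map_sub, h0, lin_gen, sub_zero]
    rw [bdl_cons g, bdl_cons h]
    simp only [map_sub, cone_gen, lin_gen]
    rw [rho_cc, e2]
    simp only [rho, bet, car]
    ring

private lemma sig_shift (l : List (ZMod 3)) (hl : l ≠ []) :
    sig (l.map (fun g => g + 1)) - sig l = bet l := by
  match l, hl with
  | g :: l', _ =>
    have h1 := bet_shift (g :: l')
    simp only [List.map_cons] at h1 ⊢
    simp only [sig]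
    rw [h1]
    ring

private lemma rho_shift (l : List (ZMod 3)) :
    rho l + rho (l.map (fun g => g + 1)) + rho ((l.map (fun g => g + 1)).map (fun g => g + 1)) =
      alp l := by
  match l with
  | [] => simp [rho, alp]
  | [_] => simp [rho, alp]
  | g :: h :: l' =>
    have h1 := bet_shift (h :: l')
    have h2 := bet_shift ((h :: l').map (fun g => g + 1))
    rw [h1] at h2
    simp only [List.map_cons] at h1 h2 ⊢
    simp only [rho, alp]
    rw [h1, h2, ← kap_sum g h]
    ring

private lemma bet_chain : ∀ l : List (ZMod 3), bet l ≠ 0 → l.IsChain (fun a b => a ≠ b)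
  | [], _ => List.IsChain.nil
  | [_], _ => List.IsChain.singleton _
  | [_, _], h => absurd rfl h
  | g :: h :: k :: l, hb => by
    simp only [bet] at hb
    have h1 := left_ne_zero_of_mul hb
    have h2 := right_ne_zero_of_mul hb
    have ih := bet_chain (k :: l) h2
    refine List.IsChain.cons_cons ?_ (List.IsChain.cons_cons ?_ ih)
    · rintro rfl
      exact h1 (car_left _ _)
    · rintro rfl
      exact h1 (car_right _ _)

/-- consecutive entries are different if `alp` does not vanish -/
theorem alp_chain (l : List (ZMod 3)) (h : alp l ≠ 0) : l.IsChain (fun a b => a ≠ b) := by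
  match l, h with
  | [], _ => exact List.IsChain.nil
  | [_], _ => exact List.IsChain.singleton _
  | g :: h :: l', hb =>
    simp only [alp] at hb
    have h1 := left_ne_zero_of_mul hb
    have h2 := right_ne_zero_of_mul hb
    refine List.IsChain.cons_cons ?_ (bet_chain _ h2)
    rintro rfl
    exact h1 (sub_self _)

private lemma lin_shf (φ : List (ZMod 3) → ZMod 3) (c : Ch (ZMod 3)) :
    lin φ (shf c) = lin (fun l => φ (l.map (fun g => g + 1))) c := by
  have key : (lin φ ∘ₗ shf : Ch (ZMod 3) →ₗ[ZMod 3] ZMod 3) =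
      lin (fun l => φ (l.map (fun g => g + 1))) := by
    apply ch_ext
    intro l
    simp [shf, pmap_gen, lin_gen]
  have h2 := congrArg (fun φ : Ch (ZMod 3) →ₗ[ZMod 3] ZMod 3 => φ c) key
  simpa using h2

theorem cochain_main (d : ℕ) (A E : ℕ → Ch (ZMod 3))
    (hA : ∀ i ≤ d, On (fun l => l.length = 2 * i + 1) (A i))
    (hE : ∀ i ≤ d, On (fun l => l.length = 2 * i + 2) (E i))
    (h0 : lin bet (A 0) = (1 : ZMod 3))
    (h1 : ∀ i ≤ d, bd (E i) = shf (A i) - A i)
    (h2 : ∀ i < d, bd (A (i + 1)) = E i + shf (E i) + shf (shf (E i))) :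
    lin alp (E d) = (1 : ZMod 3) := by
  have hAE : ∀ i ≤ d, lin alp (E i) = lin bet (A i) := by
    intro i hi
    have e1 : lin alp (E i) = lin sig (bd (E i)) := by
      refine (hE i hi).map_eq (lin alp) (lin sig ∘ₗ bd) fun l hl => ?_
      rw [LinearMap.comp_apply, bd_gen, lin_gen, sig_bdl i l hl]
    have e2 : lin bet (A i) = lin sig (shf (A i)) - lin sig (A i) := by
      rw [lin_shf]
      refine (hA i hi).map_eq (lin bet)
        (lin (fun l => sig (l.map (fun g => g + 1))) - lin sig) fun l hl => ?_
      rw [LinearMap.sub_apply, lin_gen, lin_gen, lin_gen, sig_shift l]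
      rintro rfl
      simp at hl
    rw [e1, h1 i hi, map_sub, e2]
  have hEA : ∀ i < d, lin bet (A (i + 1)) = lin alp (E i) := by
    intro i hi
    have e1 : lin bet (A (i + 1)) = lin rho (bd (A (i + 1))) := by
      refine (hA (i + 1) hi).map_eq (lin bet) (lin rho ∘ₗ bd) fun l hl => ?_
      rw [LinearMap.comp_apply, bd_gen, lin_gen, rho_bdl i l (by omega)]
    have e2 : lin alp (E i) = lin rho (E i + shf (E i) + shf (shf (E i))) := by
      rw [map_add, map_add, lin_shf, lin_shf, lin_shf]
      refine (hE i hi.le).map_eq (lin alp) (lin rho + lin (fun l => rho (l.map (fun g => g + 1))) +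
        lin (fun l => rho ((l.map (fun g => g + 1)).map (fun g => g + 1)))) fun l hl => ?_
      rw [LinearMap.add_apply, LinearMap.add_apply, lin_gen, lin_gen, lin_gen, lin_gen,
        rho_shift l]
    rw [e1, h2 i hi, e2]
  have hall : ∀ i ≤ d, lin bet (A i) = (1 : ZMod 3) := by
    intro i
    induction i with
    | zero => exact fun _ => h0
    | succ i ih =>
      intro hi
      rw [hEA i hi, hAE i (by omega)]
      exact ih (by omega)
  rw [hAE d le_rfl]
  exact hall d le_rfl

end Pool.Agent.H11.TV
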