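import Pool.Agent.H11.TV.Pairs

set_option autoImplicit false
set_option linter.unusedSectionVars false
set_option linter.unusedVariables false

/-!
# Facts: critical directions of a deep configuration which is not a Tverberg configuration

PROOF of `facts_line`. All `v i ≠ 0` by `tv_of_zero`. Let `O = {i : 0 < ip u0 (v i)}`, `e = I * u0`,
`Lp = {i : ip u0 (v i) = 0, 0 < ip e (v i)}`, `Lm = {i : ip u0 (v i) = 0, ip e (v i) < 0}`. Points with
`ip u0 (v i) = 0` are in `Lp` or `Lm` (`eq_ip_add`, `v i ≠ 0`). For small `ε > 0`, `u' = u0 + ε e`: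
`{i : 0 ≤ ip u' (v i)} ⊆ O ∪ Lp`, so `r ≤ O.card + Lp.card`. Similarly with `u0 - ε e`: `r ≤ O.card + Lm.card`.
As `O.card < r`, both `Lp` and `Lm` are nonempty: this gives `a`, `b`. If `O.card < r - 1` then `Lp`, `Lm` have at
least two elements each: `a, a' ∈ Lp`, `b, b' ∈ Lm` different; `v a = ip e (v a) e`, `v b = ip e (v b) e`, so
`Anti (v a) (v b)` and `Anti (v a') (v b')`, and `tv_of_pairs` gives a contradiction.

PROOF of `facts_two`. Take `a, b` for `u0` and `a', b'` for `u1` from `facts_line`. If `u1 ≠ ± u0` then a vector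
`x` with `ip u0 x = 0 = ip u1 x` is zero (`x = s * I * u0`, `ip u1 (I * u0) ≠ 0`: from `eq_ip_add`,
`u1 = ip u0 u1 u0 + ip (I u0) u1 (I u0)`; if `ip (I * u0) u1 = 0` then `u1 = ± u0`). So
`{a, b}` and `{a', b'}` are disjoint, `a ≠ b`, `a' ≠ b'` (signs), and `tv_of_pairs` gives a contradiction.
-/

namespace Pool.Agent.H11.TV

variable {ι : Type} [Fintype ι]

omit [Fintype ι] in
private lemma facts_anti {u x y : ℂ} (hu : ‖u‖ = 1) (hx : ip u x = 0) (hy : ip u y = 0)
    (hx1 : 0 < ip (Complex.I * u) x) (hy1 : ip (Complex.I * u) y < 0) : Anti x y := by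
  have h1 := eq_ip_add u x hu
  have h2 := eq_ip_add u y hu
  rw [hx] at h1
  rw [hy] at h2
  simp only [Complex.ofReal_zero, zero_mul, zero_add] at h1 h2
  refine ⟨-ip (Complex.I * u) y / ip (Complex.I * u) x, div_pos (by linarith) hx1, ?_⟩
  have hne : ((ip (Complex.I * u) x : ℝ) : ℂ) ≠ 0 := by
    exact_mod_cast hx1.ne'
  calc y = (ip (Complex.I * u) y : ℂ) * (Complex.I * u) := h2
    _ = -((-ip (Complex.I * u) y / ip (Complex.I * u) x : ℝ) : ℂ)
          * ((ip (Complex.I * u) x : ℂ) * (Complex.I * u)) := by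
        push_cast
        field_simp
    _ = _ := by rw [← h1]

private lemma facts_pert (v : ι → ℂ) (u e : ℂ) :
    ∃ ε : ℝ, 0 < ε ∧ ∀ i, ip u (v i) < 0 → ip (u + (ε : ℂ) * e) (v i) < 0 := by
  have h : ∀ i, ∀ᶠ ε : ℝ in nhdsWithin 0 (Set.Ioi 0), (ip u (v i) < 0 →
      ip (u + (ε : ℂ) * e) (v i) < 0) := by
    intro i
    by_cases hi : ip u (v i) < 0
    · have hc : Filter.Tendsto (fun ε : ℝ => ip u (v i) + ε * ip e (v i))
          (nhdsWithin 0 (Set.Ioi 0)) (nhds (ip u (v i) + 0 * ip e (v i))) := by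
        refine Filter.Tendsto.mono_left ?_ nhdsWithin_le_nhds
        exact (continuous_const.add (continuous_id.mul continuous_const)).tendsto _
      rw [zero_mul, add_zero] at hc
      filter_upwards [hc.eventually (gt_mem_nhds hi)] with ε hε _
      rw [ip_add_left, ip_smul_left]
      exact hε
    · exact Filter.Eventually.of_forall fun _ h => absurd h hi
  have h2 := (Filter.eventually_all.2 h).and
    (self_mem_nhdsWithin : Set.Ioi (0 : ℝ) ∈ nhdsWithin (0 : ℝ) (Set.Ioi 0))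
  obtain ⟨ε, h3, h4⟩ := h2.exists
  exact ⟨ε, h4, h3⟩

open Classical in
private lemma facts_count (r : ℕ) (v : ι → ℂ) (hd : Deep r v) (u e : ℂ)
    (he : ∀ i, ip u (v i) = 0 → ip e (v i) ≠ 0) :
    r ≤ cnt' v u + (Finset.univ.filter fun i => ip u (v i) = 0 ∧ 0 < ip e (v i)).card := by
  obtain ⟨ε, hε, h⟩ := facts_pert v u e
  refine (hd (u + (ε : ℂ) * e)).trans ?_
  rw [cnt, cnt']
  refine le_trans (Finset.card_le_card ?_) (Finset.card_union_le _ _)
  intro i hi
  rw [Finset.mem_filter] at hi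
  rw [Finset.mem_union, Finset.mem_filter, Finset.mem_filter]
  rcases lt_trichotomy (ip u (v i)) 0 with h1 | h1 | h1
  · exact absurd hi.2 (not_le.2 (h i h1))
  · right
    refine ⟨Finset.mem_univ _, h1, ?_⟩
    have h2 := hi.2
    rw [ip_add_left, ip_smul_left, h1, zero_add] at h2
    rcases lt_or_gt_of_ne (he i h1) with h3 | h3
    · exfalso
      nlinarith
    · exact h3
  · left
    exact ⟨Finset.mem_univ _, h1⟩

theorem facts_line (r : ℕ) (hr : 1 ≤ r) (hN : Fintype.card ι = 3 * r - 2) (v : ι → ℂ)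
    (hd : Deep r v) (hnt : ¬ TVr r v) (u0 : ℂ) (hu : ‖u0‖ = 1) (h0 : cnt' v u0 < r) :
    cnt' v u0 + 1 = r ∧ ∃ a b : ι, ip u0 (v a) = 0 ∧ ip u0 (v b) = 0 ∧
      0 < ip (Complex.I * u0) (v a) ∧ ip (Complex.I * u0) (v b) < 0 := by
  classical
  have hnz : ∀ i, v i ≠ 0 := by
    intro i hi
    exact hnt (tv_of_zero r hr hN v hd ⟨i, hi⟩)
  have he : ∀ i, ip u0 (v i) = 0 → ip (Complex.I * u0) (v i) ≠ 0 := by
    intro i h1 h2
    have h3 := eq_ip_add u0 (v i) hu
    rw [h1, h2] at h3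
    simp only [Complex.ofReal_zero, zero_mul, add_zero] at h3
    exact hnz i h3
  have k1 := facts_count r v hd u0 (Complex.I * u0) he
  have k2 := facts_count r v hd u0 (-(Complex.I * u0)) (by
    intro i h1 h2
    rw [ip_neg_left, neg_eq_zero] at h2
    exact he i h1 h2)
  set Lp := Finset.univ.filter fun i => ip u0 (v i) = 0 ∧ 0 < ip (Complex.I * u0) (v i) with hLp
  set Lm := Finset.univ.filter fun i => ip u0 (v i) = 0 ∧ 0 < ip (-(Complex.I * u0)) (v i)
    with hLm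
  have mp : ∀ i, i ∈ Lp → ip u0 (v i) = 0 ∧ 0 < ip (Complex.I * u0) (v i) := by
    intro i hi
    rw [hLp, Finset.mem_filter] at hi
    exact hi.2
  have mm : ∀ i, i ∈ Lm → ip u0 (v i) = 0 ∧ ip (Complex.I * u0) (v i) < 0 := by
    intro i hi
    rw [hLm, Finset.mem_filter] at hi
    have := hi.2.2
    rw [ip_neg_left] at this
    exact ⟨hi.2.1, by linarith⟩
  have hone : cnt' v u0 + 1 = r := by
    by_contra hne
    have c1 : 1 < Lp.card := by omega
    have c2 : 1 < Lm.card := by omega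
    obtain ⟨a, ha, a', ha', haa⟩ := Finset.one_lt_card.1 c1
    obtain ⟨b, hb, b', hb', hbb⟩ := Finset.one_lt_card.1 c2
    have pa := mp a ha
    have pa' := mp a' ha'
    have pb := mm b hb
    have pb' := mm b' hb'
    have ne : ∀ x y : ι, 0 < ip (Complex.I * u0) (v x) → ip (Complex.I * u0) (v y) < 0 →
        x ≠ y := by
      rintro x y h1 h2 rfl
      linarith
    exact hnt (tv_of_pairs r hr hN v hd hnz a b a' b' (ne _ _ pa.2 pb.2) haa
      (ne _ _ pa.2 pb'.2) (ne _ _ pa'.2 pb.2).symm hbb (ne _ _ pa'.2 pb'.2)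
      (facts_anti hu pa.1 pb.1 pa.2 pb.2) (facts_anti hu pa'.1 pb'.1 pa'.2 pb'.2))
  refine ⟨hone, ?_⟩
  have c1 : 0 < Lp.card := by omega
  have c2 : 0 < Lm.card := by omega
  obtain ⟨a, ha⟩ := Finset.card_pos.1 c1
  obtain ⟨b, hb⟩ := Finset.card_pos.1 c2
  exact ⟨a, b, (mp a ha).1, (mm b hb).1, (mp a ha).2, (mm b hb).2⟩

theorem facts_two (r : ℕ) (hr : 1 ≤ r) (hN : Fintype.card ι = 3 * r - 2) (v : ι → ℂ)
    (hd : Deep r v) (hnt : ¬ TVr r v) (u0 u1 : ℂ) (hu0 : ‖u0‖ = 1) (hu1 : ‖u1‖ = 1)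
    (h0 : cnt' v u0 < r) (h1 : cnt' v u1 < r) : u1 = u0 ∨ u1 = -u0 := by
  classical
  by_contra hcon
  push Not at hcon
  have hnz : ∀ i, v i ≠ 0 := by
    intro i hi
    exact hnt (tv_of_zero r hr hN v hd ⟨i, hi⟩)
  obtain ⟨_, a, b, a0, b0, a1, b1⟩ := facts_line r hr hN v hd hnt u0 hu0 h0
  obtain ⟨_, a', b', a0', b0', a1', b1'⟩ := facts_line r hr hN v hd hnt u1 hu1 h1
  have hI : ip (Complex.I * u0) u1 ≠ 0 := by
    intro hI
    have h3 := eq_ip_add u0 u1 hu0
    rw [hI] at h3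
    simp only [Complex.ofReal_zero, zero_mul, add_zero] at h3
    have h4 : |ip u0 u1| = 1 := by
      have h5 := congrArg norm h3
      rw [norm_mul, hu0, hu1, mul_one, Complex.norm_real, Real.norm_eq_abs] at h5
      exact h5.symm
    rcases eq_or_eq_neg_of_abs_eq h4 with h5 | h5
    · rw [h5] at h3
      exact hcon.1 (by simpa using h3)
    · rw [h5] at h3
      exact hcon.2 (by simpa using h3)
  have hzero : ∀ x : ℂ, ip u0 x = 0 → ip u1 x = 0 → x = 0 := by
    intro x hx hx'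
    have h3 := eq_ip_add u0 x hu0
    rw [hx] at h3
    simp only [Complex.ofReal_zero, zero_mul, zero_add] at h3
    have h4 : ip (Complex.I * u0) x * ip u1 (Complex.I * u0) = 0 := by
      rw [← ip_smul, ← h3]
      exact hx'
    rw [ip_comm u1] at h4
    have h5 := (mul_eq_zero.1 h4).resolve_right hI
    rw [h5] at h3
    simpa using h3
  have hdis : ∀ x y : ι, ip u0 (v x) = 0 → ip u1 (v y) = 0 → x ≠ y := by
    rintro x y hx hy rfl
    exact hnz x (hzero _ hx hy)
  have n1 : a ≠ b := by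
    rintro rfl
    linarith
  have n2 : a' ≠ b' := by
    rintro rfl
    linarith
  exact hnt (tv_of_pairs r hr hN v hd hnz a b a' b' n1 (hdis _ _ a0 a0') (hdis _ _ a0 b0')
    (hdis _ _ b0 a0') (hdis _ _ b0 b0') n2 (facts_anti hu0 a0 b0 a1 b1)
    (facts_anti hu1 a0' b0' a1' b1'))

end Pool.Agent.H11.TV
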