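import Pool.Agent.H11.TV.Reduce

set_option autoImplicit false
set_option linter.unusedSectionVars false
set_option linter.unusedVariables false

/-!
# Final: the Tverberg-Vrecica theorem for `k = d - 2`

PROOF. `d = k + 2`. Enumerate `S j` by a bijection `s_j : Fin (3 * r j - 2) → S j` (`(r j - 1) * 3 + 1 = 3 * r j - 2`).
Apply `homog` to `a j i = (s_j i, 1) : Fin (k + 3) → ℝ` (`Fin.snoc`). Let `p m = (ζ m).re`, `q m = (ζ m).im`. From
`∑ ζ m ^ 2 = 0`: `∑ p m ^ 2 = ∑ q m ^ 2`, `∑ p m * q m = 0`; from `ζ ≠ 0`: `∑ p m ^ 2 > 0`. So `p, q` are linearly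
independent: if `x p + y q = 0` then `0 = ∑ (x p m + y q m)^2 = (x^2 + y^2) ∑ p m ^2`.
For `y : EuclideanSpace ℝ (Fin (k+2))` let `L y = (∑_{m < k+2} p m * y m, ∑_{m < k+2} q m * y m) : ℝ × ℝ`, linear, and
`y^ = (y, 1)`. From the capturing weights `w` of the colour class `l` of `j`: the point
`y = ∑ i, w i • s_j i` is in the convex hull of the class and `∑ m, ζ m * y^ m = 0`, i.e. `L y = - (p last, q last)`.
Fix one such point `y0` (from `j = 0`, `l = 0`, `1 ≤ r 0`). `D = AffineSubspace.mk' y0 (LinearMap.ker L)`: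
`y ∈ D` iff `L (y - y0) = 0` iff `L y = - (p last, q last)`. So `D` meets all the convex hulls.
`finrank (ker L) = k`: `L` is surjective. Otherwise there is `(x, y) ≠ 0` with `x * (L u).1 + y * (L u).2 = 0` for
all `u`, i.e. the first `k + 2` coordinates of `x p + y q` vanish; pairing with `y0^` (which is
orthogonal to `p` and `q`) gives that the last coordinate vanishes too, so `x p + y q = 0`, contradiction. Then
`LinearMap.finrank_range_add_finrank_ker`.
Colours: `c j x = c_j (s_j⁻¹ x)` if this is `< r j`, and `0` otherwise (leftover points get the colour `0`): the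
convex hulls only increase (`convexHull_mono`); the classes are nonempty because the weights have sum `1`.
-/

namespace Pool.Agent.H11.TV

/-- the linear map given by the first coordinates of `p` and `q` -/
private noncomputable def final_L (k : ℕ) (p q : Fin (k + 3) → ℝ) :
    EuclideanSpace ℝ (Fin (k + 2)) →ₗ[ℝ] ℝ × ℝ where
  toFun y := (∑ m : Fin (k + 2), p m.castSucc * y m, ∑ m : Fin (k + 2), q m.castSucc * y m)
  map_add' y y' := by
    ext
    · simp [mul_add, Finset.sum_add_distrib]
    · simp [mul_add, Finset.sum_add_distrib]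
  map_smul' t y := by
    ext
    · simp only [PiLp.smul_apply, smul_eq_mul, RingHom.id_apply, Prod.smul_mk, Finset.mul_sum]
      exact Finset.sum_congr rfl fun m _ => by ring
    · simp only [PiLp.smul_apply, smul_eq_mul, RingHom.id_apply, Prod.smul_mk, Finset.mul_sum]
      exact Finset.sum_congr rfl fun m _ => by ring

private theorem final_finrank (k : ℕ) (p q : Fin (k + 3) → ℝ)
    (h1 : ∑ m, p m ^ 2 = ∑ m, q m ^ 2) (h2 : ∑ m, p m * q m = 0) (h3 : 0 < ∑ m, p m ^ 2)
    (y0 : EuclideanSpace ℝ (Fin (k + 2)))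
    (hy : final_L k p q y0 = (-p (Fin.last _), -q (Fin.last _))) :
    Module.finrank ℝ (LinearMap.ker (final_L k p q)) = k := by
  have hsurj : LinearMap.range (final_L k p q) = ⊤ := by
    by_contra hne
    obtain ⟨f, hf0, hf⟩ := Submodule.exists_le_ker_of_lt_top _ (lt_top_iff_ne_top.2 hne)
    have hff : ∀ a b : ℝ, f (a, b) = a * f (1, 0) + b * f (0, 1) := by
      intro a b
      have : ((a, b) : ℝ × ℝ) = a • ((1, 0) : ℝ × ℝ) + b • ((0, 1) : ℝ × ℝ) := by
        ext <;> simp
      rw [this, map_add, map_smul, map_smul]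
      simp
    obtain ⟨x, hx⟩ : ∃ x, x = f (1, 0) := ⟨_, rfl⟩
    obtain ⟨y, hyy⟩ : ∃ y, y = f (0, 1) := ⟨_, rfl⟩
    have hz : ∀ u, (final_L k p q u).1 * x + (final_L k p q u).2 * y = 0 := by
      intro u
      have h4 : final_L k p q u ∈ LinearMap.ker f := hf (LinearMap.mem_range_self _ u)
      rw [LinearMap.mem_ker] at h4
      have h5 := hff (final_L k p q u).1 (final_L k p q u).2
      rw [hx, hyy, ← h5]
      exact h4
    have ht := hz ((WithLp.equiv 2 _).symm fun m : Fin (k + 2) => x * p m.castSucc + y * q m.castSucc)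
    have h6 : ∑ m : Fin (k + 2), (x * p m.castSucc + y * q m.castSucc) ^ 2 = 0 := by
      rw [← ht]
      show _ = (∑ m : Fin (k + 2), p m.castSucc * (x * p m.castSucc + y * q m.castSucc)) * x +
        (∑ m : Fin (k + 2), q m.castSucc * (x * p m.castSucc + y * q m.castSucc)) * y
      rw [Finset.sum_mul, Finset.sum_mul, ← Finset.sum_add_distrib]
      exact Finset.sum_congr rfl fun m _ => by ring
    have h7 := hz y0
    rw [hy] at h7
    have h8 : x * p (Fin.last _) + y * q (Fin.last _) = 0 := by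
      simp only at h7
      linarith
    have h9 : ∑ m : Fin (k + 3), (x * p m + y * q m) ^ 2 = 0 := by
      rw [Fin.sum_univ_castSucc, h6, h8]
      simp
    have h10 : ∑ m : Fin (k + 3), (x * p m + y * q m) ^ 2 =
        x ^ 2 * ∑ m, p m ^ 2 + 2 * x * y * ∑ m, p m * q m + y ^ 2 * ∑ m, q m ^ 2 := by
      rw [Finset.mul_sum, Finset.mul_sum, Finset.mul_sum, ← Finset.sum_add_distrib, ← Finset.sum_add_distrib]
      exact Finset.sum_congr rfl fun m _ => by ring
    rw [h9, h2, ← h1] at h10
    have h11 : (x ^ 2 + y ^ 2) * ∑ m, p m ^ 2 = 0 := by linarith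
    have h12 : x ^ 2 + y ^ 2 = 0 := by
      rcases mul_eq_zero.1 h11 with h | h
      · exact h
      · exact absurd h h3.ne'
    have hx0 : x = 0 := by nlinarith [sq_nonneg x, sq_nonneg y]
    have hy0 : y = 0 := by nlinarith [sq_nonneg x, sq_nonneg y]
    apply hf0
    ext
    · simp [← hx, hx0]
    · simp [← hyy, hy0]
  have h4 := LinearMap.finrank_range_add_finrank_ker (final_L k p q)
  rw [hsurj] at h4
  simp at h4
  omega

theorem tv_final (k : ℕ) (r : Fin (k + 1) → ℕ) (hr : ∀ i, 1 ≤ r i)
    (S : Fin (k + 1) → Finset (EuclideanSpace ℝ (Fin (k + 2))))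
    (hS : ∀ i, (S i).card = (r i - 1) * 3 + 1) :
    ∃ c : Fin (k + 1) → EuclideanSpace ℝ (Fin (k + 2)) → ℕ,
      (∀ i, ∀ x ∈ S i, c i x < r i) ∧
      (∀ i, ∀ j < r i, ∃ x ∈ S i, c i x = j) ∧
      ∃ D : AffineSubspace ℝ (EuclideanSpace ℝ (Fin (k + 2))),
        Module.finrank ℝ D.direction = k ∧
        ∀ i, ∀ j < r i,
          ((D : Set (EuclideanSpace ℝ (Fin (k + 2)))) ∩
            convexHull ℝ {x | x ∈ S i ∧ c i x = j}).Nonempty := by
  classical
  have hcard : ∀ j, (S j).card = 3 * r j - 2 := by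
    intro j
    have := hr j
    rw [hS j]
    omega
  let e : (j : Fin (k + 1)) → {x // x ∈ S j} ≃ Fin (3 * r j - 2) := fun j =>
    Finset.equivFinOfCardEq (hcard j)
  let s : (j : Fin (k + 1)) → Fin (3 * r j - 2) → EuclideanSpace ℝ (Fin (k + 2)) := fun j i =>
    ((e j).symm i : EuclideanSpace ℝ (Fin (k + 2)))
  have hsS : ∀ j i, s j i ∈ S j := fun j i => ((e j).symm i).2
  have hes : ∀ j i (h : s j i ∈ S j), e j ⟨s j i, h⟩ = i := by
    intro j i h
    have : (⟨s j i, h⟩ : {x // x ∈ S j}) = (e j).symm i := Subtype.ext rfl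
    rw [this]
    exact (e j).apply_symm_apply i
  obtain ⟨ζ, hζ0, hζ, hT⟩ := homog k r hr (fun j i m =>
    Fin.snoc (α := fun _ => ℝ) (fun t : Fin (k + 2) => (s j i) t) 1 m)
  choose c0 hc0 using hT
  let p : Fin (k + 3) → ℝ := fun m => (ζ m).re
  let q : Fin (k + 3) → ℝ := fun m => (ζ m).im
  have hre := congrArg Complex.re hζ
  have him := congrArg Complex.im hζ
  have h1 : ∑ m, p m ^ 2 = ∑ m, q m ^ 2 := by
    have h4 : ∑ m, (p m ^ 2 - q m ^ 2) = 0 := by
      rw [← Complex.zero_re, ← hre, Complex.re_sum]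
      refine Finset.sum_congr rfl fun m _ => ?_
      rw [pow_two (ζ m), Complex.mul_re]
      ring
    rw [Finset.sum_sub_distrib] at h4
    linarith
  have h2 : ∑ m, p m * q m = 0 := by
    have h4 : ∑ m, (2 * (p m * q m)) = 0 := by
      rw [← Complex.zero_im, ← him, Complex.im_sum]
      refine Finset.sum_congr rfl fun m _ => ?_
      rw [pow_two (ζ m), Complex.mul_im]
      ring
    rw [← Finset.mul_sum] at h4
    linarith
  have h3 : 0 < ∑ m, p m ^ 2 := by
    rcases lt_or_eq_of_le (Finset.sum_nonneg fun m (_ : m ∈ Finset.univ) => sq_nonneg (p m)) with h | h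
    · exact h
    · exfalso
      apply hζ0
      have h4 : ∀ m ∈ Finset.univ, p m ^ 2 = 0 :=
        (Finset.sum_eq_zero_iff_of_nonneg fun m _ => sq_nonneg (p m)).1 h.symm
      have h5 : ∀ m ∈ Finset.univ, q m ^ 2 = 0 :=
        (Finset.sum_eq_zero_iff_of_nonneg fun m _ => sq_nonneg (q m)).1 (h1 ▸ h.symm)
      funext m
      apply Complex.ext
      · exact pow_eq_zero_iff (two_ne_zero) |>.1 (h4 m (Finset.mem_univ m))
      · exact pow_eq_zero_iff (two_ne_zero) |>.1 (h5 m (Finset.mem_univ m))
  let c : Fin (k + 1) → EuclideanSpace ℝ (Fin (k + 2)) → ℕ := fun j x =>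
    if h : x ∈ S j then (if c0 j (e j ⟨x, h⟩) < r j then c0 j (e j ⟨x, h⟩) else 0) else 0
  have hcs : ∀ j i l, l < r j → c0 j i = l → c j (s j i) = l := by
    intro j i l hl hi
    show (if h : s j i ∈ S j then (if c0 j (e j ⟨s j i, h⟩) < r j then c0 j (e j ⟨s j i, h⟩) else 0) else 0) = l
    rw [dif_pos (hsS j i), hes, if_pos (by rw [hi]; exact hl), hi]
  -- the points
  have key : ∀ j, ∀ l < r j, ∃ y : EuclideanSpace ℝ (Fin (k + 2)),
      final_L k p q y = (-p (Fin.last _), -q (Fin.last _)) ∧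
      y ∈ convexHull ℝ {x | x ∈ S j ∧ c j x = l} ∧ ∃ x ∈ S j, c j x = l := by
    intro j l hl
    obtain ⟨w, hw0, hwP, hw1, hw⟩ := hc0 j l hl
    refine ⟨∑ i, w i • s j i, ?_, ?_, ?_⟩
    · -- coordinates
      have hco : ∀ m : Fin (k + 2), (∑ i, w i • s j i) m = ∑ i, w i * (s j i) m := by
        intro m
        rw [WithLp.ofLp_sum]
        simp [Finset.sum_apply]
      have hC : ∑ m : Fin (k + 3), ζ m * ((∑ i, w i *
          (Fin.snoc (α := fun _ => ℝ) (fun t : Fin (k + 2) => (s j i) t) 1 m : ℝ) : ℝ) : ℂ) = 0 := by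
        rw [← hw]
        push_cast
        simp only [Finset.mul_sum]
        rw [Finset.sum_comm]
        exact Finset.sum_congr rfl fun i _ => Finset.sum_congr rfl fun m _ => by ring
      have hR : ∑ m : Fin (k + 3), p m * (∑ i, w i *
          (Fin.snoc (α := fun _ => ℝ) (fun t : Fin (k + 2) => (s j i) t) 1 m : ℝ)) = 0 := by
        have := congrArg Complex.re hC
        rw [Complex.re_sum, Complex.zero_re] at this
        rw [← this]
        exact Finset.sum_congr rfl fun m _ => by rw [Complex.re_mul_ofReal]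
      have hI : ∑ m : Fin (k + 3), q m * (∑ i, w i *
          (Fin.snoc (α := fun _ => ℝ) (fun t : Fin (k + 2) => (s j i) t) 1 m : ℝ)) = 0 := by
        have := congrArg Complex.im hC
        rw [Complex.im_sum, Complex.zero_im] at this
        rw [← this]
        exact Finset.sum_congr rfl fun m _ => by rw [Complex.im_mul_ofReal]
      rw [Fin.sum_univ_castSucc] at hR hI
      simp only [Fin.snoc_castSucc, Fin.snoc_last, mul_one, hw1] at hR hI
      show (∑ m : Fin (k + 2), p m.castSucc * (∑ i, w i • s j i) m,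
        ∑ m : Fin (k + 2), q m.castSucc * (∑ i, w i • s j i) m) = _
      simp only [hco]
      ext
      · show _ = -p (Fin.last _)
        linarith
      · show _ = -q (Fin.last _)
        linarith
    · have hfil : ∑ i, w i • s j i = ∑ i ∈ Finset.univ.filter (fun i => w i ≠ 0), w i • s j i := by
        rw [Finset.sum_filter]
        refine Finset.sum_congr rfl fun i _ => ?_
        by_cases hi : w i = 0
        · simp [hi]
        · simp [hi]
      have hfil1 : ∑ i ∈ Finset.univ.filter (fun i => w i ≠ 0), w i = 1 := by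
        rw [← hw1, Finset.sum_filter]
        refine Finset.sum_congr rfl fun i _ => ?_
        by_cases hi : w i = 0
        · simp [hi]
        · simp [hi]
      rw [hfil]
      refine (convex_convexHull ℝ _).sum_mem (fun i _ => hw0 i) hfil1 fun i hi => ?_
      apply subset_convexHull
      have hwi : w i ≠ 0 := (Finset.mem_filter.1 hi).2
      have hci : c0 j i = l := by
        by_contra h
        exact hwi (hwP i h)
      exact ⟨hsS j i, hcs j i l hl hci⟩
    · obtain ⟨i, hi⟩ : ∃ i, w i ≠ 0 := by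
        by_contra h
        push Not at h
        have : ∑ i, w i = 0 := Finset.sum_eq_zero fun i _ => h i
        rw [hw1] at this
        exact one_ne_zero this
      have hci : c0 j i = l := by
        by_contra h
        exact hi (hwP i h)
      exact ⟨s j i, hsS j i, hcs j i l hl hci⟩
  obtain ⟨y0, hy0, _, _⟩ := key 0 0 (hr 0)
  refine ⟨c, ?_, ?_, AffineSubspace.mk' y0 (LinearMap.ker (final_L k p q)), ?_, ?_⟩
  · intro j x hx
    show (if h : x ∈ S j then (if c0 j (e j ⟨x, h⟩) < r j then c0 j (e j ⟨x, h⟩) else 0) else 0) < r j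
    rw [dif_pos hx]
    split_ifs with h
    · exact h
    · exact hr j
  · intro j l hl
    obtain ⟨_, _, _, hx⟩ := key j l hl
    exact hx
  · rw [AffineSubspace.direction_mk']
    exact final_finrank k p q h1 h2 h3 y0 hy0
  · intro j l hl
    obtain ⟨y, hy, hyc, _⟩ := key j l hl
    refine ⟨y, ?_, hyc⟩
    show y ∈ AffineSubspace.mk' y0 (LinearMap.ker (final_L k p q))
    rw [AffineSubspace.mem_mk', LinearMap.mem_ker, vsub_eq_sub, map_sub, hy, hy0, sub_self]

end Pool.Agent.H11.TV
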