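import Pool.Agent.H11.TV.Chain
import Pool.Agent.H11.TV.PDefs

set_option autoImplicit false
set_option linter.unusedSectionVars false
set_option linter.unusedVariables false

/-!
# Fund: the fundamental chains in `C^n`

PROOF.
`pmap_tau_Z`: induction; `pmap tau` permutes the three terms cyclically (`tau_tau_tau`, `pmap_pmap`,
`pmap_id`), for `i = 0` use `pmap_gen`.
`bd_Ec`: `bd_cone` twice, `bd_Z`; `pmap tau (Ac n i) = cone (tau e) (Zc n i)` by `pmap_cone`,
`pmap_tau_Z`. `bd_Z` by induction: `bd (Zc n (i+1)) = bd E + pmap tau (bd E) + ...` telescopes to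
`pmap tau (pmap tau (pmap tau (Ac n i))) - Ac n i = 0`. (`bd_Z` and `bd_Ec` by simultaneous
induction.) `bd_Ac`: `bd_cone`, `bd_Z`.

Supports. By induction on `i ≤ n` every list `l` in `Zc n i` has length `2 * i`, all its points
have norm one (sup norm; `‖bs n j‖ = 1` for `j < n`, `‖tau x‖ = ‖x‖`), their coordinates with
index `≥ i` vanish, and there is `u : Fin n → ℂ` with `0 < ∑ m, ip (u m) (x m)` for every `x` in `l`.
Step: for `E`-lists `bs n i :: tau (bs n i) :: l` take the same `u` except that the coordinate `i` is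
replaced by `-om ^ 2`: the old points have coordinate `i` equal to zero; for the new ones
`ip (-om^2) 1 = 1/2`, `ip (-om^2) om = 1/2`. The predicate is invariant under `tau` (take `tau u`;
`ip_rot`, `norm_om`). For `Ac` (one new point `bs n i`) the same `u` works.
Given such `u`, the origin is not in the convex hull: the half space
`{x | 0 < ∑ m, ip (u m) (x m)}` is convex, contains the points, and does not contain `0`
(`convexHull_min`).
-/

namespace Pool.Agent.H11.TV

/-- basis vector -/
noncomputable def bs (n i : ℕ) : Fin n → ℂ := fun j => if (j : ℕ) = i then 1 else 0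

/-- the joins of the first `i` circles (triangles) -/
noncomputable def Zc (n : ℕ) : ℕ → Ch (Fin n → ℂ)
  | 0 => gen []
  | i + 1 => cone (bs n i) (cone (tau (bs n i)) (Zc n i))
      + pmap tau (cone (bs n i) (cone (tau (bs n i)) (Zc n i)))
      + pmap tau (pmap tau (cone (bs n i) (cone (tau (bs n i)) (Zc n i))))

noncomputable def Ac (n i : ℕ) : Ch (Fin n → ℂ) := cone (bs n i) (Zc n i)

noncomputable def Ec (n i : ℕ) : Ch (Fin n → ℂ) := cone (bs n i) (cone (tau (bs n i)) (Zc n i))

/-- lists of `m` unit vectors whose convex hull does not contain the origin -/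
def Nice (n m : ℕ) (l : List (Fin n → ℂ)) : Prop :=
  l.length = m ∧ (∀ x ∈ l, ‖x‖ = 1) ∧ (0 : Fin n → ℂ) ∉ convexHull ℝ {x | x ∈ l}

private lemma T3 {n : ℕ} (c : Ch (Fin n → ℂ)) :
    pmap tau (pmap tau (pmap tau c)) = c := by
  rw [pmap_pmap, pmap_pmap]
  have : (tau ∘ (tau ∘ tau) : (Fin n → ℂ) → (Fin n → ℂ)) = fun x => x := by
    funext x
    exact tau_tau_tau x
  have h2 : ((tau ∘ tau) ∘ tau : (Fin n → ℂ) → (Fin n → ℂ)) = fun x => x := by
    funext x
    exact tau_tau_tau x
  first
    | rw [this, pmap_id]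
    | rw [h2, pmap_id]

private lemma Zc_succ (n i : ℕ) :
    Zc n (i + 1) = Ec n i + pmap tau (Ec n i) + pmap tau (pmap tau (Ec n i)) := rfl

private lemma pmap_tau_Z (n i : ℕ) : pmap tau (Zc n i) = Zc n i := by
  cases i with
  | zero => 
    show pmap tau (gen []) = gen []
    rw [pmap_gen, List.map_nil]
  | succ i =>
    rw [Zc_succ, map_add, map_add, T3]
    abel

private lemma pmap_tau_Ac (n i : ℕ) : pmap tau (Ac n i) = cone (tau (bs n i)) (Zc n i) := by
  unfold Ac
  rw [pmap_cone, pmap_tau_Z]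

private lemma bd_Ec_aux (n i : ℕ) (h : bd (Zc n i) = 0) :
    bd (Ec n i) = pmap tau (Ac n i) - Ac n i := by
  rw [pmap_tau_Ac]
  unfold Ec Ac
  rw [bd_cone, bd_cone, h]
  simp

private lemma bd_Z (n i : ℕ) : bd (Zc n i) = 0 := by
  induction i with
  | zero => 
    show bd (gen []) = 0
    simp
  | succ i ih =>
    have h1 := bd_Ec_aux n i ih
    rw [Zc_succ, map_add, map_add, ← pmap_bd, ← pmap_bd, ← pmap_bd, h1]
    simp only [map_sub]
    rw [T3]
    abel

theorem bd_Ec (n i : ℕ) : bd (Ec n i) = pmap tau (Ac n i) - Ac n i :=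
  bd_Ec_aux n i (bd_Z n i)

theorem bd_Ac_zero (n : ℕ) : bd (Ac n 0) = gen [] := by
  unfold Ac
  rw [bd_cone, bd_Z, map_zero, sub_zero]
  rfl

theorem bd_Ac_succ (n i : ℕ) :
    bd (Ac n (i + 1)) = Ec n i + pmap tau (Ec n i) + pmap tau (pmap tau (Ec n i)) := by
  unfold Ac
  rw [bd_cone, bd_Z, map_zero, sub_zero, Zc_succ]

/-- the predicate used in the induction -/
private def FP (n m i : ℕ) (l : List (Fin n → ℂ)) : Prop :=
  l.length = m ∧ (∀ x ∈ l, ‖x‖ = 1) ∧ (∀ x ∈ l, ∀ j : Fin n, i ≤ (j : ℕ) → x j = 0) ∧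
    ∃ u : Fin n → ℂ, ∀ x ∈ l, 0 < ∑ m, ip (u m) (x m)

private lemma norm_tau {n : ℕ} (x : Fin n → ℂ) : ‖tau x‖ = ‖x‖ := by
  have : tau x = om • x := by
    funext i
    simp [tau]
  rw [this, norm_smul, norm_om, one_mul]

private lemma norm_bs (n i : ℕ) (hi : i < n) : ‖bs n i‖ = 1 := by
  apply le_antisymm
  · rw [pi_norm_le_iff_of_nonneg zero_le_one]
    intro j
    unfold bs
    split_ifs <;> simp
  · have h := norm_le_pi_norm (bs n i) ⟨i, hi⟩
    have h2 : bs n i ⟨i, hi⟩ = 1 := by simp [bs]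
    rw [h2, norm_one] at h
    exact h

private lemma FP_tau {n m i : ℕ} {l : List (Fin n → ℂ)} (h : FP n m i l) :
    FP n m i (l.map tau) := by
  obtain ⟨h1, h2, h3, u, h4⟩ := h
  refine ⟨by simpa using h1, ?_, ?_, tau u, ?_⟩
  · intro x hx
    obtain ⟨y, hy, rfl⟩ := List.mem_map.1 hx
    rw [norm_tau, h2 y hy]
  · intro x hx j hj
    obtain ⟨y, hy, rfl⟩ := List.mem_map.1 hx
    simp [tau, h3 y hy j hj]
  · intro x hx
    obtain ⟨y, hy, rfl⟩ := List.mem_map.1 hx
    have : ∑ m, ip (tau u m) (tau y m) = ∑ m, ip (u m) (y m) := by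
      refine Finset.sum_congr rfl fun m _ => ?_
      simp only [tau]
      rw [ip_rot, norm_om]
      ring
    rw [this]
    exact h4 y hy

private lemma sum_bs (n i : ℕ) (hi : i < n) (u : Fin n → ℂ) (z : ℂ) :
    ∑ m, ip (u m) (z * bs n i m) = ip (u ⟨i, hi⟩) z := by
  rw [Finset.sum_eq_single (⟨i, hi⟩ : Fin n)]
  · simp [bs]
  · intro b _ hb
    have : bs n i b = 0 := by
      unfold bs
      rw [if_neg]
      intro h
      exact hb (Fin.ext h)
    rw [this, mul_zero, ip_zero]
  · intro h
    exact absurd (Finset.mem_univ _) h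

private lemma sum_upd (n i : ℕ) (hi : i < n) (u : Fin n → ℂ) (z : ℂ) (x : Fin n → ℂ)
    (hx : x ⟨i, hi⟩ = 0) :
    ∑ m, ip (Function.update u ⟨i, hi⟩ z m) (x m) = ∑ m, ip (u m) (x m) := by
  refine Finset.sum_congr rfl fun m _ => ?_
  by_cases hm : m = ⟨i, hi⟩
  · subst hm
    rw [hx, ip_zero, ip_zero]
  · rw [Function.update_of_ne hm]

/-- the direction used for the new coordinate -/
private noncomputable def dir : ℂ := ⟨1 / 2, Real.sqrt 3 / 2⟩

private lemma ip_dir_one : 0 < ip dir 1 := by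
  simp [ip, dir]

private lemma ip_dir_om : 0 < ip dir om := by
  have h3 : Real.sqrt 3 * Real.sqrt 3 = 3 := Real.mul_self_sqrt (by norm_num)
  simp only [ip, dir, om]
  nlinarith

private lemma FP_A {n m i : ℕ} (hi : i < n) {l : List (Fin n → ℂ)} (h : FP n m i l) :
    FP n (m + 1) (i + 1) (bs n i :: l) := by
  obtain ⟨h1, h2, h3, u, h4⟩ := h
  refine ⟨by simp [h1], ?_, ?_, Function.update u ⟨i, hi⟩ dir, ?_⟩
  · intro x hx
    rcases List.mem_cons.1 hx with rfl | hx
    · exact norm_bs n i hi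
    · exact h2 x hx
  · intro x hx j hj
    rcases List.mem_cons.1 hx with rfl | hx
    · unfold bs
      rw [if_neg]
      omega
    · exact h3 x hx j (by omega)
  · intro x hx
    rcases List.mem_cons.1 hx with rfl | hx
    · have := sum_bs n i hi (Function.update u ⟨i, hi⟩ dir) 1
      simp only [one_mul] at this
      rw [this, Function.update_self]
      exact ip_dir_one
    · rw [sum_upd n i hi u dir x (h3 x hx _ le_rfl)]
      exact h4 x hx

private lemma FP_E {n m i : ℕ} (hi : i < n) {l : List (Fin n → ℂ)} (h : FP n m i l) :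
    FP n (m + 2) (i + 1) (bs n i :: tau (bs n i) :: l) := by
  obtain ⟨h1, h2, h3, u, h4⟩ := h
  refine ⟨by simp [h1], ?_, ?_, Function.update u ⟨i, hi⟩ dir, ?_⟩
  · intro x hx
    rcases List.mem_cons.1 hx with rfl | hx
    · exact norm_bs n i hi
    rcases List.mem_cons.1 hx with rfl | hx
    · rw [norm_tau, norm_bs n i hi]
    · exact h2 x hx
  · intro x hx j hj
    have hb : bs n i j = 0 := by
      unfold bs
      rw [if_neg]
      omega
    rcases List.mem_cons.1 hx with rfl | hx
    · exact hb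
    rcases List.mem_cons.1 hx with rfl | hx
    · simp [tau, hb]
    · exact h3 x hx j (by omega)
  · intro x hx
    rcases List.mem_cons.1 hx with rfl | hx
    · have := sum_bs n i hi (Function.update u ⟨i, hi⟩ dir) 1
      simp only [one_mul] at this
      rw [this, Function.update_self]
      exact ip_dir_one
    rcases List.mem_cons.1 hx with rfl | hx
    · have := sum_bs n i hi (Function.update u ⟨i, hi⟩ dir) om
      have h5 : ∀ m, tau (bs n i) m = om * bs n i m := fun m => rfl
      simp only [h5]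
      rw [this, Function.update_self]
      exact ip_dir_om
    · rw [sum_upd n i hi u dir x (h3 x hx _ le_rfl)]
      exact h4 x hx

private lemma FP_Ec {n i : ℕ} (hi : i < n) (h : On (FP n (2 * i) i) (Zc n i)) :
    On (FP n (2 * i + 2) (i + 1)) (Ec n i) := by
  unfold Ec
  have h1 : On (fun l => FP n (2 * i + 2) (i + 1) (bs n i :: l)) (cone (tau (bs n i)) (Zc n i)) :=
    h.cone _ fun l hl => FP_E hi hl
  exact h1.cone _ fun l hl => hl

private lemma FP_Z (n i : ℕ) (hi : i ≤ n) : On (FP n (2 * i) i) (Zc n i) := by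
  induction i with
  | zero =>
    refine on_gen ⟨rfl, ?_, ?_, 0, ?_⟩
    · intro x hx
      exact absurd hx (List.not_mem_nil)
    · intro x hx
      exact absurd hx (List.not_mem_nil)
    · intro x hx
      exact absurd hx (List.not_mem_nil)
  | succ i ih =>
    have h1 := FP_Ec hi (ih (by omega))
    have h2 : On (FP n (2 * i + 2) (i + 1)) (pmap tau (Ec n i)) :=
      h1.pmap _ fun l hl => FP_tau hl
    have h3 : On (FP n (2 * i + 2) (i + 1)) (pmap tau (pmap tau (Ec n i))) :=
      h2.pmap _ fun l hl => FP_tau hl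
    rw [Zc_succ]
    exact (h1.add h2).add h3

private lemma FP_nice {n m i : ℕ} {l : List (Fin n → ℂ)} (h : FP n m i l) : Nice n m l := by
  obtain ⟨h1, h2, h3, u, h4⟩ := h
  refine ⟨h1, h2, ?_⟩
  intro h0
  have hlin : IsLinearMap ℝ (fun x : Fin n → ℂ => ∑ m, ip (u m) (x m)) := by
    constructor
    · intro x y
      rw [← Finset.sum_add_distrib]
      refine Finset.sum_congr rfl fun m _ => ?_
      rw [Pi.add_apply, ip_add]
    · intro c x
      rw [smul_eq_mul, Finset.mul_sum]
      refine Finset.sum_congr rfl fun m _ => ?_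
      rw [Pi.smul_apply, Complex.real_smul, ip_smul]
  have hconv : Convex ℝ {x : Fin n → ℂ | 0 < ∑ m, ip (u m) (x m)} :=
    convex_halfSpace_gt hlin 0
  have hsub : {x | x ∈ l} ⊆ {x : Fin n → ℂ | 0 < ∑ m, ip (u m) (x m)} := fun x hx => h4 x hx
  have h5 := convexHull_min hsub hconv h0
  simp at h5

theorem nice_Ac (n i : ℕ) (hi : i < n) : On (Nice n (2 * i + 1)) (Ac n i) := by
  unfold Ac
  exact (FP_Z n i hi.le).cone _ fun l hl => FP_nice (FP_A hi hl)

theorem nice_Ec (n i : ℕ) (hi : i < n) : On (Nice n (2 * i + 2)) (Ec n i) :=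
  (FP_Ec hi (FP_Z n i hi.le)).mono fun l hl => FP_nice hl

end Pool.Agent.H11.TV
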