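import Pool.Agent.H11.TV.PDefs

set_option autoImplicit false
set_option linter.unusedSectionVars false
set_option linter.unusedVariables false

/-!
# GInt: the mean direction of the bad half planes

PROOF.
`psi_pos_iff`: `0 < psi r v u` iff some `I` with `I.card = card ι + 1 - r` has `ip u (v i) < 0` for all
`i ∈ I`, iff `card ι + 1 - r ≤ #{i : ip u (v i) < 0} = card ι - cnt v u`, iff `cnt v u < r` (use
`r ≤ card ι + 1`, `cnt v u ≤ card ι`).
`G_continuous`: `intervalIntegral.continuous_parametric_intervalIntegral_of_continuous'` (the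
integrand is jointly continuous; `psi` is a finite sum of finite products of continuous functions).
`G_rot`: `z = exp(i a)`; `psi r (z * v) (exp(iθ)) = psi r v (exp(i(θ - a)))` because
`ip (z * u) (z * x) = ip u x` for `‖z‖ = 1` (`ip_rot`); the integrand is `2π`-periodic; use
`Function.Periodic.intervalIntegral_add_eq` and `intervalIntegral.integral_comp_sub_right`.
`G_of_deep`: the integrand vanishes.
`ip_G_pos`: `ip (G r v) x = ∫ psi r v (exp(iθ)) * ip (exp(iθ)) x dθ` (real and imaginary parts of the
integral, or a continuous linear map through the integral). The integrand is continuous and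
nonnegative (where `psi = 0` it is zero, elsewhere the unit vector is bad and the second factor
is positive), and positive at some `θ ∈ [0, 2π)` (every unit vector is `exp(iθ)` with such a `θ`; by
continuity it is positive on an open interval inside `(0, 2π)`), e.g. with
`intervalIntegral.integral_pos` (continuous, nonnegative, positive at some point of the closed
interval).
`cnt_pos_smul`: scaling `u` with a positive real does not change the signs.
`deep_iff_unit`: for `u = 0` the count is `card ι`.
-/

namespace Pool.Agent.H11.TV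

open Finset

variable {ι : Type} [Fintype ι]

theorem psi_nonneg (r : ℕ) (v : ι → ℂ) (u : ℂ) : 0 ≤ psi r v u := by
  unfold psi
  exact Finset.sum_nonneg fun I _ => Finset.prod_nonneg fun i _ => le_max_right _ _

open Classical in
private lemma gint_cnt_add (v : ι → ℂ) (u : ℂ) :
    cnt v u + (univ.filter fun i => ip u (v i) < 0).card = Fintype.card ι := by
  unfold cnt
  have h := Finset.card_filter_add_card_filter_not (s := (univ : Finset ι))
    (fun i => 0 ≤ ip u (v i))
  simp only [not_le] at h
  rw [Finset.card_univ] at h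
  exact h

theorem psi_pos_iff (r : ℕ) (hr : r ≤ Fintype.card ι + 1) (v : ι → ℂ) (u : ℂ) :
    0 < psi r v u ↔ cnt v u < r := by
  classical
  have hc := gint_cnt_add v u
  have hnn : ∀ I ∈ powersetCard (Fintype.card ι + 1 - r) (univ : Finset ι),
      0 ≤ ∏ i ∈ I, max (-ip u (v i)) 0 := fun I _ =>
    Finset.prod_nonneg fun i _ => le_max_right _ _
  constructor
  · intro h
    unfold psi at h
    have h1 : ∃ I ∈ powersetCard (Fintype.card ι + 1 - r) (univ : Finset ι),
        0 < ∏ i ∈ I, max (-ip u (v i)) 0 := by
      by_contra hno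
      push Not at hno
      have : ∑ I ∈ powersetCard (Fintype.card ι + 1 - r) (univ : Finset ι),
          ∏ i ∈ I, max (-ip u (v i)) 0 ≤ 0 := Finset.sum_nonpos hno
      linarith
    obtain ⟨I, hI, hIp⟩ := h1
    rw [mem_powersetCard] at hI
    have h2 : I ⊆ univ.filter fun i => ip u (v i) < 0 := by
      intro i hi
      rw [Finset.mem_filter]
      refine ⟨mem_univ _, ?_⟩
      by_contra hge
      push Not at hge
      have : ∏ i ∈ I, max (-ip u (v i)) 0 = 0 := by
        apply Finset.prod_eq_zero hi
        exact max_eq_right (by linarith)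
      linarith
    have h3 := Finset.card_le_card h2
    rw [hI.2] at h3
    omega
  · intro h
    have h1 : Fintype.card ι + 1 - r ≤ (univ.filter fun i => ip u (v i) < 0).card := by omega
    obtain ⟨I, hI, hIc⟩ := Finset.exists_subset_card_eq h1
    unfold psi
    apply Finset.sum_pos' hnn
    refine ⟨I, ?_, ?_⟩
    · rw [mem_powersetCard]
      exact ⟨subset_univ _, hIc⟩
    · apply Finset.prod_pos
      intro i hi
      have := (Finset.mem_filter.1 (hI hi)).2
      exact lt_max_of_lt_left (by linarith)

theorem cnt_pos_smul (v : ι → ℂ) (t : ℝ) (ht : 0 < t) (u : ℂ) : cnt v ((t : ℂ) * u) = cnt v u := by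
  classical
  unfold cnt
  congr 1
  apply Finset.filter_congr
  intro i _
  rw [ip_smul_left]
  exact mul_nonneg_iff_of_pos_left ht

theorem deep_iff_unit (r : ℕ) (hr : r ≤ Fintype.card ι) (v : ι → ℂ) :
    Deep r v ↔ ∀ u : ℂ, ‖u‖ = 1 → r ≤ cnt v u := by
  classical
  constructor
  · intro h u _
    exact h u
  · intro h u
    by_cases hu : u = 0
    · subst hu
      have h1 := gint_cnt_add v 0
      have h2 : (univ.filter fun i => ip 0 (v i) < 0) = (∅ : Finset ι) := by
        apply Finset.filter_false_of_mem
        intro i _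
        simp
      rw [h2] at h1
      simp only [Finset.card_empty, add_zero] at h1
      omega
    · have hn : 0 < ‖u‖ := norm_pos_iff.2 hu
      have h1 : u = ((‖u‖ : ℝ) : ℂ) * (((‖u‖⁻¹ : ℝ) : ℂ) * u) := by
        rw [← mul_assoc, ← Complex.ofReal_mul, mul_inv_cancel₀ hn.ne']
        simp
      rw [h1, cnt_pos_smul v _ hn]
      apply h
      rw [norm_mul, Complex.norm_real, Real.norm_eq_abs, abs_of_pos (inv_pos.2 hn)]
      exact inv_mul_cancel₀ hn.ne'

private lemma gint_psi_cont (r : ℕ) :
    Continuous (fun p : (ι → ℂ) × ℂ => psi r p.1 p.2) := by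
  unfold psi
  apply continuous_finsetSum
  intro I _
  apply continuous_finsetProd
  intro i _
  apply Continuous.max _ continuous_const
  apply Continuous.neg
  exact continuous_ip.comp (continuous_snd.prodMk ((continuous_apply i).comp continuous_fst))

private lemma gint_exp_cont : Continuous (fun θ : ℝ => Complex.exp (θ * Complex.I)) := by
  fun_prop

private lemma gint_psi_cont' (r : ℕ) (v : ι → ℂ) :
    Continuous (fun θ : ℝ => psi r v (Complex.exp (θ * Complex.I))) :=
  (gint_psi_cont r).comp (continuous_const.prodMk gint_exp_cont)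

theorem G_continuous (r : ℕ) : Continuous (fun v : ι → ℂ => G r v) := by
  unfold G
  apply intervalIntegral.continuous_parametric_intervalIntegral_of_continuous'
  unfold Function.uncurry
  apply Continuous.mul
  · apply Complex.continuous_ofReal.comp
    exact (gint_psi_cont r).comp (continuous_fst.prodMk (gint_exp_cont.comp continuous_snd))
  · exact gint_exp_cont.comp continuous_snd

theorem G_rot (r : ℕ) (z : ℂ) (hz : ‖z‖ = 1) (v : ι → ℂ) :
    G r (fun i => z * v i) = z * G r v := by
  have hz0 : z ≠ 0 := by
    intro h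
    rw [h, norm_zero] at hz
    exact zero_ne_one hz
  have hza : z = Complex.exp ((Complex.arg z : ℝ) * Complex.I) := by
    have := Complex.norm_mul_exp_arg_mul_I z
    rw [hz, Complex.ofReal_one, one_mul] at this
    exact this.symm
  set a : ℝ := Complex.arg z with ha
  let F : ℝ → ℂ := fun θ =>
    (psi r v (Complex.exp (θ * Complex.I)) : ℂ) * Complex.exp (θ * Complex.I)
  have hF : ∀ θ : ℝ, (psi r (fun i => z * v i) (Complex.exp (θ * Complex.I)) : ℂ) *
      Complex.exp (θ * Complex.I) = z * F (θ - a) := by
    intro θ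
    have h1 : Complex.exp (θ * Complex.I) =
        z * Complex.exp (((θ - a : ℝ) : ℂ) * Complex.I) := by
      conv_rhs => rw [hza]
      rw [← Complex.exp_add]
      congr 1
      push_cast
      ring
    have h2 : psi r (fun i => z * v i) (Complex.exp (θ * Complex.I)) =
        psi r v (Complex.exp (((θ - a : ℝ) : ℂ) * Complex.I)) := by
      unfold psi
      apply Finset.sum_congr rfl
      intro I _
      apply Finset.prod_congr rfl
      intro i _
      rw [h1, ip_rot, hz, one_pow, one_mul]
    rw [h2]
    simp only [F]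
    conv_lhs => rw [h1]
    ring
  have hper : Function.Periodic F (2 * Real.pi) := by
    intro θ
    have : Complex.exp (((θ + 2 * Real.pi : ℝ) : ℂ) * Complex.I) =
        Complex.exp (θ * Complex.I) := by
      rw [← Complex.exp_periodic (θ * Complex.I)]
      congr 1
      push_cast
      ring
    simp only [F]
    rw [this]
  unfold G
  rw [intervalIntegral.integral_congr (g := fun θ => z * F (θ - a)) (fun θ _ => hF θ)]
  rw [intervalIntegral.integral_const_mul]
  congr 1
  rw [intervalIntegral.integral_comp_sub_right (fun θ => F θ) a]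
  have h := hper.intervalIntegral_add_eq (0 - a) 0
  rw [zero_add] at h
  rw [← h]
  congr 1
  ring

theorem G_of_deep (r : ℕ) (hr : r ≤ Fintype.card ι + 1) (v : ι → ℂ) (h : Deep r v) :
    G r v = 0 := by
  unfold G
  have h0 : ∀ u : ℂ, psi r v u = 0 := by
    intro u
    by_contra hne
    have h1 : 0 < psi r v u := lt_of_le_of_ne (psi_nonneg r v u) (Ne.symm hne)
    rw [psi_pos_iff r hr] at h1
    exact absurd (h u) (by omega)
  simp [h0]

private lemma gint_ip_G (r : ℕ) (v : ι → ℂ) (x : ℂ) :
    ip (G r v) x = ∫ θ in (0 : ℝ)..(2 * Real.pi),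
      psi r v (Complex.exp (θ * Complex.I)) * ip (Complex.exp (θ * Complex.I)) x := by
  let L : ℂ →L[ℝ] ℝ := (x.re) • Complex.reCLM + (x.im) • Complex.imCLM
  have hL : ∀ w : ℂ, L w = ip w x := by
    intro w
    simp only [L, ip, ContinuousLinearMap.add_apply, ContinuousLinearMap.smul_apply,
      Complex.reCLM_apply, Complex.imCLM_apply, smul_eq_mul]
    ring
  have hint : IntervalIntegrable (fun θ : ℝ =>
      (psi r v (Complex.exp (θ * Complex.I)) : ℂ) * Complex.exp (θ * Complex.I))
      MeasureTheory.volume 0 (2 * Real.pi) := by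
    apply Continuous.intervalIntegrable
    exact (Complex.continuous_ofReal.comp (gint_psi_cont' r v)).mul gint_exp_cont
  have h := L.intervalIntegral_comp_comm hint
  rw [← hL]
  unfold G
  rw [← h]
  apply intervalIntegral.integral_congr
  intro θ _
  simp only []
  rw [hL, ip_smul_left]

theorem ip_G_pos (r : ℕ) (hr : r ≤ Fintype.card ι + 1) (v : ι → ℂ) (x : ℂ)
    (h1 : ∀ u : ℂ, ‖u‖ = 1 → cnt v u < r → 0 < ip u x)
    (h2 : ∃ u : ℂ, ‖u‖ = 1 ∧ cnt v u < r) : 0 < ip (G r v) x := by
  rw [gint_ip_G]
  have hnorm : ∀ θ : ℝ, ‖Complex.exp (θ * Complex.I)‖ = 1 := fun θ =>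
    Complex.norm_exp_ofReal_mul_I θ
  have hnn : ∀ θ : ℝ, 0 ≤ psi r v (Complex.exp (θ * Complex.I)) *
      ip (Complex.exp (θ * Complex.I)) x := by
    intro θ
    rcases (psi_nonneg r v (Complex.exp (θ * Complex.I))).eq_or_lt with h | h
    · rw [← h, zero_mul]
    · exact (mul_pos h (h1 _ (hnorm θ) ((psi_pos_iff r hr v _).1 h))).le
  have hcont : Continuous (fun θ : ℝ => psi r v (Complex.exp (θ * Complex.I)) *
      ip (Complex.exp (θ * Complex.I)) x) := by
    apply (gint_psi_cont' r v).mul
    exact continuous_ip.comp (gint_exp_cont.prodMk continuous_const)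
  have hpi := Real.two_pi_pos
  apply intervalIntegral.integral_pos hpi hcont.continuousOn (fun θ _ => hnn θ)
  obtain ⟨u, hu, hc⟩ := h2
  have hexp : u = Complex.exp ((Complex.arg u : ℝ) * Complex.I) := by
    have := Complex.norm_mul_exp_arg_mul_I u
    rw [hu, Complex.ofReal_one, one_mul] at this
    exact this.symm
  have hpos : ∀ θ : ℝ, Complex.exp (θ * Complex.I) = u →
      0 < psi r v (Complex.exp (θ * Complex.I)) * ip (Complex.exp (θ * Complex.I)) x := by
    intro θ hθ
    rw [hθ]
    exact mul_pos ((psi_pos_iff r hr v u).2 hc) (h1 u hu hc)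
  have ha1 := Complex.neg_pi_lt_arg u
  have ha2 := Complex.arg_le_pi u
  have hpi' := Real.pi_pos
  by_cases ha : 0 ≤ Complex.arg u
  · refine ⟨Complex.arg u, ⟨ha, by linarith⟩, hpos _ hexp.symm⟩
  · refine ⟨Complex.arg u + 2 * Real.pi, ⟨by linarith, by linarith⟩, hpos _ ?_⟩
    conv_rhs => rw [hexp]
    rw [← Complex.exp_periodic ((Complex.arg u : ℝ) * Complex.I)]
    congr 1
    push_cast
    ring

end Pool.Agent.H11.TV
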