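import Pool.Agent.H11.TV.PDefs

set_option autoImplicit false
set_option linter.unusedSectionVars false
set_option linter.unusedVariables false

/-!
# HB: the bad directions lie in an open half plane

PROOF. Let `N = card ι`, `z` the number of zeros, `Ω = {u : ℂ | cnt v u ≤ m}`.
`Ω` is open: if `cnt v u ≤ m` then at least `N - m` indices have `ip u (v i) < 0`, and this persists
near `u` (finitely many continuous conditions).
`0 ∉ convexHull ℝ Ω`: otherwise by Carathéodory (`convexHull_eq_union`, `AffineIndependent` in `ℂ`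
gives at most three points: `AffineIndependent.card_le_finrank_succ`, `Complex.finrank_real_complex`)
there is a finite set `t ⊆ Ω` with `1 ≤ t.card ≤ 3` and `∑_{u ∈ t} λ_u u = 0`, `λ_u ≥ 0`, `∑ λ_u = 1`
(`Finset.convexHull_eq` / `mem_convexHull'`). For every `i` we have `∑ λ_u ip u (v i) = 0`, so some
`u ∈ t` has `0 ≤ ip u (v i)` (all `λ_u ≥ 0`, not all zero: otherwise the sum would be negative). If
`v i = 0` all `u ∈ t` qualify. Double counting the pairs `(i, u)`, `u ∈ t`, `0 ≤ ip u (v i)`:
`(N - z) + t.card * z ≤ t.card * m`; also `z ≤ m` (zeros are counted in `cnt v u` for one `u ∈ t`). So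
`N - z ≤ t.card * (m - z) ≤ 3 * (m - z)`, contradiction to `3 * m < N + 2 * z`.
`convexHull ℝ Ω` is open (`IsOpen.convexHull`) and convex, so by `geometric_hahn_banach_open_point`
there is a continuous real linear `φ : ℂ → ℝ` with `φ u < φ 0 = 0` for all `u ∈ Ω`. Write `φ u = - ip u x`
with `x = -(φ 1) - (φ I) I`. If `x = 0` then `Ω` is empty and `x = 1` works.
-/

namespace Pool.Agent.H11.TV

variable {ι : Type} [Fintype ι]

theorem hb_ip_sum (t : Finset ℂ) (w : ℂ → ℝ) (x : ℂ) :
    ip (∑ u ∈ t, w u • u) x = ∑ u ∈ t, w u * ip u x := by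
  classical
  induction t using Finset.induction_on with
  | empty => simp
  | insert a t ha ih =>
    rw [Finset.sum_insert ha, Finset.sum_insert ha, ip_add_left, ih, Complex.real_smul,
      ip_smul_left]

theorem hb_open (v : ι → ℂ) (m : ℕ) : IsOpen {u : ℂ | cnt v u ≤ m} := by
  classical
  rw [isOpen_iff_mem_nhds]
  intro u0 hu0
  have hc : ∀ i, Continuous fun u : ℂ => ip u (v i) := fun i =>
    continuous_ip.comp (continuous_id.prodMk continuous_const)
  have h1 : ∀ᶠ u in nhds u0, ∀ i ∈ Finset.univ.filter (fun i => ip u0 (v i) < 0),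
      ip u (v i) < 0 := by
    rw [Filter.eventually_all_finset]
    intro i hi
    have hi' : ip u0 (v i) < 0 := (Finset.mem_filter.1 hi).2
    exact (hc i).continuousAt.eventually (gt_mem_nhds hi')
  filter_upwards [h1] with u hu
  have h2 : cnt v u ≤ cnt v u0 := by
    unfold cnt
    apply Finset.card_le_card
    intro i hi
    rw [Finset.mem_filter] at hi ⊢
    refine ⟨hi.1, ?_⟩
    by_contra h3
    have h4 := hu i (Finset.mem_filter.2 ⟨Finset.mem_univ _, not_le.1 h3⟩)
    linarith [hi.2]
  exact h2.trans hu0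

theorem hb_hull (v : ι → ℂ) (m : ℕ) [DecidablePred fun i => v i = 0]
    (h : 3 * m < Fintype.card ι + 2 * (Finset.univ.filter fun i => v i = 0).card) :
    (0 : ℂ) ∉ convexHull ℝ {u : ℂ | cnt v u ≤ m} := by
  classical
  intro h0
  rw [convexHull_eq_union] at h0
  simp only [Set.mem_iUnion] at h0
  obtain ⟨t, hts, hai, ht⟩ := h0
  rw [Finset.mem_convexHull'] at ht
  obtain ⟨w, hw0, hw1, hw⟩ := ht
  have hc3 : t.card ≤ 3 := by
    have h1 := hai.card_le_finrank_succ
    have h2 := Submodule.finrank_le (vectorSpan ℝ (Set.range ((↑) : t → ℂ)))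
    rw [Complex.finrank_real_complex] at h2
    rw [Fintype.card_coe] at h1
    omega
  have hne : t.Nonempty := by
    rw [Finset.nonempty_iff_ne_empty]
    rintro rfl
    simp at hw1
  -- every index is caught
  have hcatch : ∀ i, ∃ u ∈ t, 0 ≤ ip u (v i) := by
    intro i
    by_contra hcon
    push Not at hcon
    have h1 : ∑ u ∈ t, w u * ip u (v i) = 0 := by
      rw [← hb_ip_sum, hw, zero_ip]
    have h2 : ∀ u ∈ t, w u * ip u (v i) ≤ 0 := fun u hu =>
      mul_nonpos_of_nonneg_of_nonpos (hw0 u hu) (hcon u hu).le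
    rw [Finset.sum_eq_zero_iff_of_nonpos h2] at h1
    have h3 : ∑ u ∈ t, w u = 0 := by
      refine Finset.sum_eq_zero fun u hu => ?_
      rcases mul_eq_zero.1 (h1 u hu) with h4 | h4
      · exact h4
      · exact absurd h4 (hcon u hu).ne
    rw [hw1] at h3
    exact one_ne_zero h3
  -- counting
  have hcnt : ∀ u, cnt v u = ∑ i, if 0 ≤ ip u (v i) then 1 else 0 := by
    intro u
    unfold cnt
    rw [Finset.card_filter]
  have hsum : ∑ u ∈ t, cnt v u ≤ t.card * m := by
    have h1 : ∑ u ∈ t, cnt v u ≤ ∑ _u ∈ t, m := Finset.sum_le_sum fun u hu => hts hu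
    rwa [Finset.sum_const, smul_eq_mul] at h1
  have hsum2 : ∑ i : ι, (if v i = 0 then t.card else 1) ≤ ∑ u ∈ t, cnt v u := by
    have h1 : ∑ u ∈ t, cnt v u = ∑ i, ∑ u ∈ t, if 0 ≤ ip u (v i) then 1 else 0 := by
      rw [Finset.sum_congr rfl fun u _ => hcnt u, Finset.sum_comm]
    rw [h1]
    refine Finset.sum_le_sum fun i _ => ?_
    split_ifs with hi
    · rw [hi]
      simp
    · obtain ⟨u, hu, hu2⟩ := hcatch i
      have h2 := Finset.single_le_sum (f := fun u => if 0 ≤ ip u (v i) then 1 else 0)
        (fun _ _ => Nat.zero_le _) hu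
      simp only [hu2, if_true] at h2
      exact h2
  have hz : ∑ i : ι, (if v i = 0 then t.card else 1) =
      (Finset.univ.filter fun i => v i = 0).card * t.card +
        (Fintype.card ι - (Finset.univ.filter fun i => v i = 0).card) := by
    rw [Finset.sum_ite, Finset.sum_const, Finset.sum_const, smul_eq_mul, smul_eq_mul, mul_one]
    congr 1
    have h1 := Finset.card_filter_add_card_filter_not (s := (Finset.univ : Finset ι))
      (fun i => v i = 0)
    rw [Finset.card_univ] at h1
    omega
  have hzN : (Finset.univ.filter fun i => v i = 0).card ≤ Fintype.card ι :=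
    Finset.card_le_univ _
  have hzm : (Finset.univ.filter fun i => v i = 0).card ≤ m := by
    obtain ⟨u, hu⟩ := hne
    refine le_trans ?_ (hts hu)
    unfold cnt
    apply Finset.card_le_card
    intro i hi
    rw [Finset.mem_filter] at hi ⊢
    refine ⟨hi.1, ?_⟩
    rw [hi.2, ip_zero]
  rw [hz] at hsum2
  obtain ⟨a, ha⟩ := Nat.exists_eq_add_of_le hzm
  obtain ⟨b, hb⟩ := Nat.exists_eq_add_of_le hzN
  have h5 := hsum2.trans hsum
  rw [hb, Nat.add_sub_cancel_left] at h5
  rw [hb] at h
  generalize (Finset.univ.filter fun i => v i = 0).card = z at *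
  subst ha
  have h6 : b ≤ t.card * a := by nlinarith
  have h7 : t.card * a ≤ 3 * a := Nat.mul_le_mul_right a hc3
  omega

open Classical in
theorem hb (v : ι → ℂ) (m : ℕ)
    (h : 3 * m < Fintype.card ι + 2 * (Finset.univ.filter fun i => v i = 0).card) :
    ∃ x : ℂ, x ≠ 0 ∧ ∀ u : ℂ, cnt v u ≤ m → 0 < ip u x := by
  obtain ⟨f, hf⟩ := geometric_hahn_banach_open_point (convex_convexHull ℝ {u : ℂ | cnt v u ≤ m})
    (hb_open v m).convexHull (hb_hull v m h)
  have hfu : ∀ u : ℂ, f u = u.re * f 1 + u.im * f Complex.I := by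
    intro u
    have h1 : u = u.re • (1 : ℂ) + u.im • Complex.I := by
      apply Complex.ext <;> simp
    conv_lhs => rw [h1]
    rw [map_add, map_smul, map_smul, smul_eq_mul, smul_eq_mul]
  have hlt : ∀ u : ℂ, cnt v u ≤ m → f u < 0 := by
    intro u hu
    have h1 := hf u (subset_convexHull ℝ _ hu)
    rwa [map_zero] at h1
  by_cases h0 : (⟨-f 1, -f Complex.I⟩ : ℂ) = 0
  · refine ⟨1, one_ne_zero, fun u hu => ?_⟩
    exfalso
    have h1 := hlt u hu
    have h2 := congrArg Complex.re h0
    have h3 := congrArg Complex.im h0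
    simp only [Complex.zero_re, Complex.zero_im] at h2 h3
    rw [hfu] at h1
    have h4 : f 1 = 0 := by linarith
    have h5 : f Complex.I = 0 := by linarith
    rw [h4, h5] at h1
    simp at h1
  · refine ⟨_, h0, fun u hu => ?_⟩
    have h1 := hlt u hu
    rw [hfu] at h1
    unfold ip
    dsimp only
    linarith

end Pool.Agent.H11.TV
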