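import Pool.Agent.H11.TV.Facts
import Pool.Agent.H11.TV.GInt

set_option autoImplicit false
set_option linter.unusedSectionVars false
set_option linter.unusedVariables false

/-!
# Local: near a deep configuration the marked point is not orthogonal to the mean direction

PROOF. Suppose `w` is deep and not Tverberg. Let `Z = {u : ‖u‖ = 1, cnt' w u < r}`.

Case `Z` empty: for every unit `u` at least `r` indices have `0 < ip u (w i)`, an open condition on
`(v, u)`; by `IsCompact.eventually_forall_of_forall_eventually` (unit circle compact) near `w` all unit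
`u` have `r ≤ cnt' v u ≤ cnt v u`: the hypothesis fails.

Case `u0 ∈ Z`. `facts_line` for `u0`: `O = {i : 0 < ip u0 (w i)}` has `r - 1` elements, and there are `a, b` with
`ip u0 (w a) = 0 = ip u0 (w b)`, `0 < ip e (w a)`, `ip e (w b) < 0`, `e = I * u0`. Let
`B = {i : 0 < ip (-u0) (w i)}`. For `(v, u)` let `Q v u` be: `r ≤ cnt' v u`, or
(`0 < ip u0 u` and `∀ i ∈ O, 0 < ip u (v i)`), or (`B.card = r - 1` and `ip u0 u < 0` and `∀ i ∈ B, 0 < ip u (v i)`).
For every unit `u`, `Q` holds on a neighbourhood of `(w, u)`: if `u ∉ Z` the first alternative; if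
`u ∈ Z` then `u = u0` or `u = -u0` by `facts_two`; for `u = u0` the second; for `u = -u0` the third
(`facts_line` for `-u0` gives `B.card = r - 1`). By compactness, for `v` near `w`, `Q v u` holds for all unit
`u`; also `0 < ip e (v a)` and `ip e (v b) < 0`.
Let `v` be such a point, and call a unit vector `u` bad if `cnt v u < r`; assume there is a bad one.
Let `α = ip e (v a) > 0`, `β = - ip e (v b) > 0`, `p = (β v a + α v b) / (α + β)`: `ip e p = 0`, so `p = t u0`,
`t = ip u0 p` (`eq_ip_add`). Let `u` be bad. The first alternative is impossible. Second: `O` is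
contained in `{i : 0 ≤ ip u (v i)}`, which has less than `r` elements, so both sets are equal:
`ip u (v i) < 0` for all `i ∉ O`; as `a, b ∉ O`, `ip u p < 0`, i.e. `t * ip u u0 < 0`, `t < 0`. Third: in the same
way `ip u (v i) < 0` for all `i ∉ B`, `a, b ∉ B`, `t * ip u u0 < 0` with `ip u0 u < 0`, so `t > 0`.
So if `t < 0` all bad `u` satisfy the second alternative: `ip u (v i0) > 0` for all bad `u` if `i0 ∈ O`, and
`ip u (v i0) < 0` for all bad `u` if `i0 ∉ O`. `ip_G_pos` with `x = v i0` or `x = - v i0` gives the claim.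
If `t ≥ 0` the same with `B`.
-/

namespace Pool.Agent.H11.TV

open Filter Topology Finset

variable {ι : Type} [Fintype ι]

lemma local_cnt_le (v : ι → ℂ) (u : ℂ) : cnt' v u ≤ cnt v u := by
  classical
  unfold cnt' cnt
  apply card_le_card
  intro i hi
  rw [mem_filter] at hi ⊢
  exact ⟨hi.1, hi.2.le⟩

lemma local_open (w : ι → ℂ) (u : ℂ) (O : Finset ι) (h : ∀ i ∈ O, 0 < ip u (w i)) :
    ∀ᶠ p : (ι → ℂ) × ℂ in 𝓝 (w, u), ∀ i ∈ O, 0 < ip p.2 (p.1 i) := by
  rw [eventually_all_finset]
  intro i hi
  have hc : Continuous fun p : (ι → ℂ) × ℂ => ip p.2 (p.1 i) :=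
    continuous_ip.comp (continuous_snd.prodMk ((continuous_apply i).comp continuous_fst))
  exact Filter.Tendsto.eventually_const_lt (h i hi) (hc.tendsto (w, u))

lemma local_open_cnt (r : ℕ) (w : ι → ℂ) (u : ℂ) (h : r ≤ cnt' w u) :
    ∀ᶠ p : (ι → ℂ) × ℂ in 𝓝 (w, u), r ≤ cnt' p.1 p.2 := by
  classical
  filter_upwards [local_open w u (univ.filter fun i => 0 < ip u (w i))
    (fun i hi => (mem_filter.1 hi).2)] with p hp
  refine h.trans ?_
  unfold cnt'
  apply card_le_card
  intro i hi
  exact mem_filter.2 ⟨mem_univ i, hp i hi⟩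

/-- if `r - 1` points are strictly inside a bad half plane, all the others are strictly outside -/
lemma local_out (r : ℕ) (v : ι → ℂ) (u : ℂ) (O : Finset ι) (hO : O.card + 1 = r)
    (hbad : cnt v u < r) (hpos : ∀ i ∈ O, 0 < ip u (v i)) (i : ι) (hi : i ∉ O) :
    ip u (v i) < 0 := by
  classical
  by_contra h
  push Not at h
  have h1 : insert i O ⊆ univ.filter fun i => 0 ≤ ip u (v i) := by
    intro j hj
    rw [mem_insert] at hj
    rw [mem_filter]
    rcases hj with rfl | hj
    · exact ⟨mem_univ _, h⟩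
    · exact ⟨mem_univ _, (hpos j hj).le⟩
  have h2 := card_le_card h1
  rw [card_insert_of_notMem hi] at h2
  unfold cnt at hbad
  omega

/-- conclusion from a uniform alternative -/
lemma local_sign (r : ℕ) (hr : r ≤ Fintype.card ι + 1) (v : ι → ℂ) (O : Finset ι)
    (hO : O.card + 1 = r) (i0 : ι) (hex : ∃ u : ℂ, ‖u‖ = 1 ∧ cnt v u < r)
    (hpos : ∀ u : ℂ, ‖u‖ = 1 → cnt v u < r → ∀ i ∈ O, 0 < ip u (v i)) :
    ip (G r v) (v i0) ≠ 0 := by
  by_cases hi : i0 ∈ O
  · exact (ip_G_pos r hr v (v i0) (fun u hu hb => hpos u hu hb i0 hi) hex).ne'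
  · have h1 := ip_G_pos r hr v (-(v i0)) (fun u hu hb => by
      rw [ip_neg]
      have := local_out r v u O hO hb (hpos u hu hb) i0 hi
      linarith) hex
    rw [ip_neg] at h1
    intro h2
    rw [h2] at h1
    simp at h1

theorem local_ne (r : ℕ) (hr : 1 ≤ r) (hN : Fintype.card ι = 3 * r - 2) (w : ι → ℂ)
    (hd : Deep r w) (hnt : ¬ TVr r w) (i0 : ι) :
    ∀ᶠ v in 𝓝 w, (∃ u : ℂ, ‖u‖ = 1 ∧ cnt v u < r) → ip (G r v) (v i0) ≠ 0 := by
  classical
  have hcard : r ≤ Fintype.card ι + 1 := by omega
  by_cases hZ : ∃ u0 : ℂ, ‖u0‖ = 1 ∧ cnt' w u0 < r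
  · obtain ⟨u0, hu0, h0⟩ := hZ
    obtain ⟨hO, a, b, ha, hb, hea, heb⟩ := facts_line r hr hN w hd hnt u0 hu0 h0
    let O : Finset ι := univ.filter fun i => 0 < ip u0 (w i)
    let B : Finset ι := univ.filter fun i => 0 < ip (-u0) (w i)
    have hOc : O.card + 1 = r := by
      rw [← hO]; unfold cnt'; congr 2
    have huu : ip u0 u0 = 1 := by rw [ip_self, hu0]; norm_num
    have hcu : Continuous fun p : (ι → ℂ) × ℂ => ip u0 p.2 :=
      continuous_ip.comp (continuous_const.prodMk continuous_snd)
    have hQ : ∀ u ∈ Metric.sphere (0 : ℂ) 1, ∀ᶠ p : (ι → ℂ) × ℂ in 𝓝 (w, u),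
        (r ≤ cnt' p.1 p.2) ∨ (0 < ip u0 p.2 ∧ ∀ i ∈ O, 0 < ip p.2 (p.1 i)) ∨
        (B.card + 1 = r ∧ ip u0 p.2 < 0 ∧ ∀ i ∈ B, 0 < ip p.2 (p.1 i)) := by
      intro u hu
      rw [mem_sphere_zero_iff_norm] at hu
      by_cases h1 : r ≤ cnt' w u
      · filter_upwards [local_open_cnt r w u h1] with p hp
        exact Or.inl hp
      · push Not at h1
        rcases facts_two r hr hN w hd hnt u0 u hu0 hu h0 h1 with rfl | rfl
        · filter_upwards [local_open w u O (fun i hi => (mem_filter.1 hi).2),
            Filter.Tendsto.eventually_const_lt (by rw [huu]; exact one_pos : 0 < ip u u)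
              (hcu.tendsto (w, u))]
            with p hp1 hp2
          exact Or.inr (Or.inl ⟨hp2, hp1⟩)
        · obtain ⟨hB, -⟩ := facts_line r hr hN w hd hnt (-u0) hu h1
          have hBc : B.card + 1 = r := by
            rw [← hB]; unfold cnt'; congr 2
          have hneg : ip u0 (-u0) < 0 := by rw [ip_neg, huu]; norm_num
          filter_upwards [local_open w (-u0) B (fun i hi => (mem_filter.1 hi).2),
            Filter.Tendsto.eventually_lt_const hneg (hcu.tendsto (w, -u0))] with p hp1 hp2
          exact Or.inr (Or.inr ⟨hBc, hp2, hp1⟩)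
    have hev := (isCompact_sphere (0 : ℂ) 1).eventually_forall_of_forall_eventually
      (P := fun (v : ι → ℂ) (u : ℂ) => (r ≤ cnt' v u) ∨ (0 < ip u0 u ∧ ∀ i ∈ O, 0 < ip u (v i)) ∨
        (B.card + 1 = r ∧ ip u0 u < 0 ∧ ∀ i ∈ B, 0 < ip u (v i))) hQ
    have hca : Continuous fun v : ι → ℂ => ip (Complex.I * u0) (v a) :=
      continuous_ip.comp (continuous_const.prodMk (continuous_apply a))
    have hcb : Continuous fun v : ι → ℂ => ip (Complex.I * u0) (v b) :=
      continuous_ip.comp (continuous_const.prodMk (continuous_apply b))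
    filter_upwards [hev, Filter.Tendsto.eventually_const_lt hea (hca.tendsto w),
      Filter.Tendsto.eventually_lt_const heb (hcb.tendsto w)] with v hv hva hvb hbad
    have haO : a ∉ O := by simp [O, ha]
    have hbO : b ∉ O := by simp [O, hb]
    have haB : a ∉ B := by simp [B, ha, ip_neg_left]
    have hbB : b ∉ B := by simp [B, hb, ip_neg_left]
    set α := ip (Complex.I * u0) (v a) with hα
    set β := -ip (Complex.I * u0) (v b) with hβ
    have hβ0 : 0 < β := by rw [hβ]; linarith
    set p : ℂ := (β : ℂ) * v a + (α : ℂ) * v b with hp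
    have hep : ip (Complex.I * u0) p = 0 := by
      rw [hp, ip_add, ip_smul, ip_smul, ← hα]
      have : ip (Complex.I * u0) (v b) = -β := by rw [hβ]; ring
      rw [this]; ring
    set t := ip u0 p with ht
    have hpt : p = (t : ℂ) * u0 := by
      have := eq_ip_add u0 p hu0
      rw [hep] at this
      simpa using this
    -- sign of t from a bad direction
    have hkey : ∀ u : ℂ, ip u (v a) < 0 → ip u (v b) < 0 → t * ip u u0 < 0 := by
      intro u h1 h2
      have h3 : ip u p = t * ip u u0 := by rw [hpt, ip_smul]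
      rw [← h3, hp, ip_add, ip_smul, ip_smul]
      nlinarith [mul_pos hβ0 (neg_pos.2 h1), mul_pos hva (neg_pos.2 h2)]
    have halt : ∀ u : ℂ, ‖u‖ = 1 → cnt v u < r →
        (t < 0 ∧ ∀ i ∈ O, 0 < ip u (v i)) ∨
        (0 < t ∧ B.card + 1 = r ∧ ∀ i ∈ B, 0 < ip u (v i)) := by
      intro u hu hb
      rcases hv u (by rw [mem_sphere_zero_iff_norm]; exact hu) with h1 | ⟨h1, h2⟩ | ⟨h1, h2, h3⟩
      · exact absurd (h1.trans (local_cnt_le v u)) (by omega)
      · left
        refine ⟨?_, h2⟩
        have := hkey u (local_out r v u O hOc hb h2 a haO) (local_out r v u O hOc hb h2 b hbO)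
        rw [ip_comm u u0] at this
        by_contra ht0
        push Not at ht0
        have := mul_nonneg ht0 h1.le
        linarith
      · right
        refine ⟨?_, h1, h3⟩
        have := hkey u (local_out r v u B h1 hb h3 a haB) (local_out r v u B h1 hb h3 b hbB)
        rw [ip_comm u u0] at this
        by_contra ht0
        push Not at ht0
        have := mul_nonneg_of_nonpos_of_nonpos ht0 h2.le
        linarith
    rcases lt_or_ge t 0 with ht0 | ht0
    · refine local_sign r hcard v O hOc i0 hbad ?_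
      intro u hu hb
      rcases halt u hu hb with h | h
      · exact h.2
      · linarith [h.1]
    · obtain ⟨u1, hu1, hb1⟩ := hbad
      have hB : B.card + 1 = r := by
        rcases halt u1 hu1 hb1 with h | h
        · linarith [h.1]
        · exact h.2.1
      refine local_sign r hcard v B hB i0 ⟨u1, hu1, hb1⟩ ?_
      intro u hu hb
      rcases halt u hu hb with h | h
      · linarith [h.1]
      · exact h.2.2
  · push Not at hZ
    have hQ : ∀ u ∈ Metric.sphere (0 : ℂ) 1, ∀ᶠ p : (ι → ℂ) × ℂ in 𝓝 (w, u),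
        r ≤ cnt' p.1 p.2 := by
      intro u hu
      rw [mem_sphere_zero_iff_norm] at hu
      exact local_open_cnt r w u (hZ u hu)
    have hev := (isCompact_sphere (0 : ℂ) 1).eventually_forall_of_forall_eventually
      (P := fun (v : ι → ℂ) (u : ℂ) => r ≤ cnt' v u) hQ
    filter_upwards [hev] with v hv hbad
    obtain ⟨u, hu, hb⟩ := hbad
    have h1 := hv u (by rw [mem_sphere_zero_iff_norm]; exact hu)
    have h2 := local_cnt_le v u
    omega

end Pool.Agent.H11.TV
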