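import Pool.Agent.H11.TV.Cochain

set_option autoImplicit false
set_option linter.unusedSectionVars false
set_option linter.unusedVariables false

/-!
# Mono: labels, the last subdivision

A label is a pair (type, element of `Z/3`). `sd mu n` sends a list of labels to the sum of its
flags of faces, each face being replaced by its first element of smallest type.

PROOF.
`mu_mem`, `mu_le`, `mu_up`: induction on the list.
`sd_mu_up`: `sd_pmap` with `mu_up`.
`sd_mu_on`: induction on `n`, for all `l`: `sd mu (n+1) (gen l) = cone (mu l) (sd mu n (bdl l))`; every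
face `l'` of `l` is a sublist of length `n` (`on_bdl`); by induction (`On.map`) the lists in
`sd mu n (bdl l)` have length `n`, elements in `l`, and are sorted; `mu l` has type at most that of
every element of `l` (`mu_le`) and is an element of `l` (`mu_mem`).
`alp_vanish`: let `m` be a list in `sd mu (2d+2) (gen l)` (`sd_mu_on`). Claim `alp (m.map Prod.snd) = 0`:
otherwise by `alp_chain` consecutive elements of `m` have different second components, hence
(`hadj`, elements of `m` are elements of `l`) different types, hence, the types being monotone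
along `m`, strictly increasing types; so `m.map Prod.fst` is a strictly increasing list of length
`2 d + 2` of numbers below `2 d`: contradiction (it is duplicate free and contained in
`Finset.range (2 * d)`, or `List.Sorted`...). Then use `On.map_eq`-like reasoning: the linear map
`lin alp ∘ₗ pmap Prod.snd` vanishes on the generators occurring.
-/

namespace Pool.Agent.H11.TV

/-- labels: (type, element of `Z/3`) -/
abbrev Lab : Type := ℕ × ZMod 3

/-- first element of smallest type -/
def mu : List Lab → Lab
  | [] => (0, 0)
  | [x] => x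
  | x :: y :: l => if x.1 ≤ (mu (y :: l)).1 then x else mu (y :: l)

/-- the action of the generator of `Z/3` on labels -/
def up (x : Lab) : Lab := (x.1, x.2 + 1)

private theorem mono_mu_mem : ∀ (l : List Lab), l ≠ [] → mu l ∈ l
  | [], h => absurd rfl h
  | [x], _ => by simp [mu]
  | x :: y :: l, _ => by
    have ih := mono_mu_mem (y :: l) (by simp)
    rw [mu]
    split_ifs
    · simp
    · exact List.mem_cons_of_mem x ih

private theorem mono_mu_le : ∀ (l : List Lab), ∀ x ∈ l, (mu l).1 ≤ x.1
  | [], x, hx => by simp at hx
  | [y], x, hx => by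
    rw [List.mem_singleton] at hx
    subst hx
    simp [mu]
  | z :: y :: l, x, hx => by
    have ih := mono_mu_le (y :: l)
    rw [mu]
    rcases List.mem_cons.1 hx with rfl | hx'
    · split_ifs with h
      · exact le_rfl
      · omega
    · have := ih x hx'
      split_ifs with h
      · omega
      · exact this

private theorem mono_mu_up : ∀ (l : List Lab), l ≠ [] → mu (l.map up) = up (mu l)
  | [], h => absurd rfl h
  | [x], _ => by simp [mu]
  | x :: y :: l, _ => by
    have ih := mono_mu_up (y :: l) (by simp)
    rw [List.map_cons, List.map_cons, mu, mu]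
    rw [List.map_cons] at ih
    rw [ih]
    have h1 : (up x).1 = x.1 := rfl
    have h2 : (up (mu (y :: l))).1 = (mu (y :: l)).1 := rfl
    rw [h1, h2]
    split_ifs <;> rfl

theorem sd_mu_up (n : ℕ) (c : Ch Lab) : sd mu n (pmap up c) = pmap up (sd mu n c) :=
  sd_pmap mu mu up up mono_mu_up n c

theorem sd_mu_on (n : ℕ) (l : List Lab) (hl : l.length = n) :
    On (fun m => m.length = n ∧ (∀ x ∈ m, x ∈ l) ∧ m.Pairwise (fun a b => a.1 ≤ b.1))
      (sd mu n (gen l)) := by
  induction n generalizing l with
  | zero =>
    rw [sd_zero_gen]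
    exact on_gen ⟨rfl, by simp, by simp⟩
  | succ n ih =>
    rw [sd_succ_gen]
    have h1 : On (fun m => m.length = n ∧ (∀ x ∈ m, x ∈ l) ∧
        m.Pairwise (fun a b => a.1 ≤ b.1)) (sd mu n (bdl l)) := by
      refine (on_bdl l).map (sd mu n) fun m hm => ?_
      refine (ih m (by omega)).mono fun m' hm' => ?_
      exact ⟨hm'.1, fun x hx => hm.1.subset (hm'.2.1 x hx), hm'.2.2⟩
    refine h1.cone (mu l) fun m hm => ?_
    have hl0 : l ≠ [] := by
      rintro rfl
      simp at hl
    refine ⟨by rw [List.length_cons, hm.1], ?_, ?_⟩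
    · intro x hx
      rcases List.mem_cons.1 hx with rfl | hx'
      · exact mono_mu_mem l hl0
      · exact hm.2.1 x hx'
    · rw [List.pairwise_cons]
      exact ⟨fun b hb => mono_mu_le l b (hm.2.1 b hb), hm.2.2⟩

private theorem mono_chain : ∀ (m : List Lab), m.Pairwise (fun a b => a.1 ≤ b.1) →
    (m.map Prod.snd).IsChain (fun a b => a ≠ b) →
    (∀ x ∈ m, ∀ y ∈ m, x.1 = y.1 → x.2 = y.2) → (m.map Prod.fst).IsChain (fun a b => a < b)
  | [], _, _, _ => by simp
  | [x], _, _, _ => by simp
  | x :: y :: m, hp, hc, ha => by
    rw [List.map_cons, List.map_cons, List.isChain_cons_cons] at hc ⊢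
    rw [List.pairwise_cons] at hp
    have ih := mono_chain (y :: m) hp.2 (by rw [List.map_cons]; exact hc.2)
      (fun a h b h' => ha a (List.mem_cons_of_mem x h) b (List.mem_cons_of_mem x h'))
    rw [List.map_cons] at ih
    refine ⟨?_, ih⟩
    have h1 : x.1 ≤ y.1 := hp.1 y (by simp)
    have h2 : x.1 ≠ y.1 := fun h => hc.1 (ha x (by simp) y (by simp) h)
    omega

theorem alp_vanish (d : ℕ) (l : List Lab) (hlen : l.length = 2 * d + 2)
    (htyp : ∀ x ∈ l, x.1 < 2 * d) (hadj : ∀ x ∈ l, ∀ y ∈ l, x.1 = y.1 → x.2 = y.2) :
    lin alp (pmap Prod.snd (sd mu (2 * d + 2) (gen l))) = (0 : ZMod 3) := by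
  have key := (sd_mu_on (2 * d + 2) l hlen).map_eq
    (lin alp ∘ₗ pmap Prod.snd : Ch Lab →ₗ[ZMod 3] ZMod 3) 0 (by
      rintro m ⟨hm1, hm2, hm3⟩
      rw [LinearMap.comp_apply, pmap_gen, lin_gen, LinearMap.zero_apply]
      by_contra hne
      have h1 := alp_chain _ hne
      have h2 := mono_chain m hm3 h1
        (fun x hx y hy => hadj x (hm2 x hx) y (hm2 y hy))
      have h3 : (m.map Prod.fst).Pairwise (fun a b => a < b) := List.isChain_iff_pairwise.1 h2
      have h4 : (m.map Prod.fst).Nodup := h3.imp (fun h => ne_of_lt h)
      have h5 : (m.map Prod.fst).toFinset ⊆ Finset.range (2 * d) := by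
        intro t ht
        rw [List.mem_toFinset, List.mem_map] at ht
        obtain ⟨x, hx, rfl⟩ := ht
        exact Finset.mem_range.2 (htyp x (hm2 x hx))
      have h6 := Finset.card_le_card h5
      rw [List.toFinset_card_of_nodup h4, List.length_map, hm1, Finset.card_range] at h6
      omega)
  simpa using key

end Pool.Agent.H11.TV
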