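import Pool.Agent.H11.TV.Birch
import Pool.Agent.H11.TV.HB

set_option autoImplicit false
set_option linter.unusedSectionVars false
set_option linter.unusedVariables false

/-!
# Pairs: deep configurations with a zero or two antipodal pairs

PROOF of `tv_of_zero`. Strong induction on the number `z ≥ 1` of zeros of `v`.
`z = 1`: `J` = the other `3 r - 3 = 3 (r - 1)` indices; every closed half plane contains at least `r - 1`
of the points of `J`. `birch` with `s = r - 1` gives `c`; the colouring equal to `c i` for `i ∈ J` if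
`c i < r - 1`, to `r` (any colour `≥ r`) for the other `i ∈ J`, and to `r - 1` for the zero, works: weight `1`
at the zero. (`Cap` for equivalent predicates; a monotonicity lemma for `Cap` is useful.)
`z ≥ 2`: then `r ≥ 2` and `3 r < (3 r - 2) + 2 z`, so `hb` with `m = r` gives `x ≠ 0` with `0 < ip u x` for every
`u` with `cnt v u ≤ r`. Let `i` be a zero of `v` and `v' = Function.update v i x`. Then `Deep r v'`: for
given `u`, if `cnt v u ≥ r + 1` then `cnt v' u ≥ r` (only the index `i` changed); otherwise `0 < ip u x`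
and `cnt v' u = cnt v u ≥ r`. `v'` has `z - 1 ≥ 1` zeros. By induction `TVr r v'`, and the same colouring
shows `TVr r v`: if the weights `w` of a colour class have `w i = 0` then the sum is the same; if the
class contains `i` (i.e. `c i = l`) use the weight `1` at `i` (as `v i = 0`).

PROOF of `tv_of_pairs`. The four indices are different, so `r ≥ 2`. Let `J` be the complement of
`{a, b, a', b'}`: `J.card = 3 (r - 2)`.
Removal lemma: let `J'` be a finite set of indices and suppose every closed half plane contains at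
least `q + 1` of the points `v i`, `i ∈ J'`; let `a, b ∈ J'` different with `Anti (v a) (v b)`, `v a ≠ 0`. Then
every closed half plane contains at least `q` of the points `i ∈ J' \ {a, b}`. Proof: if
`ip u (v a) ≠ 0` exactly one of `a, b` is in the half plane. If `ip u (v a) = 0`: for small `ε > 0` the vector
`u' = u + ε * v a` satisfies `{i ∈ J' | 0 ≤ ip u' (v i)} ⊆ {i ∈ J' | 0 ≤ ip u (v i)}` (finitely many strict
inequalities `ip u (v i) < 0` persist) and `ip u' (v a) = ε ‖v a‖² > 0`; apply the first case to `u'`.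
Apply the lemma twice (`J' = univ`, then `univ \ {a, b}`), then `birch` with `s = r - 2`, and add the
classes `{a, b}` and `{a', b'}` with colours `r - 2`, `r - 1`: for `v b = -t v a` the weights
`t / (1 + t)` at `a`, `1 / (1 + t)` at `b`.
-/

namespace Pool.Agent.H11.TV

variable {ι : Type} [Fintype ι]

private theorem pairs_cap_mono {v : ι → ℂ} {P Q : ι → Prop} (h : Cap v P) (hPQ : ∀ i, P i → Q i) :
    Cap v Q := by
  obtain ⟨w, h1, h2, h3, h4⟩ := h
  exact ⟨w, h1, fun i hi => h2 i (fun hp => hi (hPQ i hp)), h3, h4⟩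

private theorem pairs_cap_zero {v : ι → ℂ} {P : ι → Prop} (i : ι) (hi : P i) (hv : v i = 0) :
    Cap v P := by
  classical
  refine ⟨Pi.single i 1, fun j => ?_, fun j hj => ?_, ?_, ?_⟩
  · by_cases h : j = i
    · rw [h, Pi.single_eq_same]
      exact zero_le_one
    · rw [Pi.single_eq_of_ne h]
  · have h : j ≠ i := fun h => hj (h ▸ hi)
    rw [Pi.single_eq_of_ne h]
  · simp
  · rw [Finset.sum_eq_single i]
    · rw [hv, mul_zero]
    · intro j _ hj
      rw [Pi.single_eq_of_ne hj]
      simp
    · intro h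
      exact absurd (Finset.mem_univ i) h

private theorem pairs_cap_anti {v : ι → ℂ} {P : ι → Prop} (a b : ι) (ha : P a) (hb : P b)
    (hab : a ≠ b) (h : Anti (v a) (v b)) : Cap v P := by
  classical
  obtain ⟨t, ht, hv⟩ := h
  have h1 : 0 < 1 + t := by linarith
  obtain ⟨w, hw⟩ : ∃ w : ι → ℝ, w = fun j => if j = a then t / (1 + t) else
      if j = b then 1 / (1 + t) else 0 := ⟨_, rfl⟩
  have hwa : w a = t / (1 + t) := by rw [hw]; simp
  have hwb : w b = 1 / (1 + t) := by rw [hw]; simp [hab.symm]
  have hw0 : ∀ j, j ≠ a → j ≠ b → w j = 0 := by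
    intro j h2 h3
    rw [hw]
    simp [h2, h3]
  have hsum : ∀ (M : Type) [AddCommMonoid M] (f : ι → M), (∀ j, j ≠ a → j ≠ b → f j = 0) →
      ∑ j, f j = f a + f b := by
    intro M _ f hf
    rw [← Finset.sum_pair hab]
    symm
    apply Finset.sum_subset (Finset.subset_univ _)
    intro j _ hj
    rw [Finset.mem_insert, Finset.mem_singleton, not_or] at hj
    exact hf j hj.1 hj.2
  refine ⟨w, fun j => ?_, fun j hj => ?_, ?_, ?_⟩
  · rw [hw]
    show (0 : ℝ) ≤ if j = a then t / (1 + t) else if j = b then 1 / (1 + t) else 0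
    split_ifs <;> positivity
  · exact hw0 j (fun h => hj (h ▸ ha)) (fun h => hj (h ▸ hb))
  · rw [hsum ℝ w hw0, hwa, hwb]
    field_simp
    ring
  · rw [hsum ℂ (fun i => (w i : ℂ) * v i) (fun j h2 h3 => by rw [hw0 j h2 h3]; simp), hwa, hwb, hv]
    have h2 : (1 + (t : ℂ)) ≠ 0 := by
      have : ((1 + t : ℝ) : ℂ) ≠ 0 := by
        rw [Complex.ofReal_ne_zero]
        exact h1.ne'
      push_cast at this
      exact this
    push_cast
    field_simp
    ring

private theorem pairs_cap_update [DecidableEq ι] {v : ι → ℂ} {P : ι → Prop} (i : ι) (x : ℂ)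
    (hi : v i = 0) (h : Cap (Function.update v i x) P) : Cap v P := by
  by_cases hP : P i
  · exact pairs_cap_zero i hP hi
  · obtain ⟨w, h1, h2, h3, h4⟩ := h
    refine ⟨w, h1, h2, h3, ?_⟩
    rw [← h4]
    refine Finset.sum_congr rfl fun j _ => ?_
    by_cases hj : j = i
    · rw [hj, h2 i hP]
      simp
    · rw [Function.update_of_ne hj]

open Classical in
private theorem pairs_zero_aux (r : ℕ) (hr : 1 ≤ r) (hN : Fintype.card ι = 3 * r - 2) (z : ℕ) :
    ∀ v : ι → ℂ, (Finset.univ.filter fun i => v i = 0).card = z + 1 → Deep r v → TVr r v := by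
  induction z with
  | zero =>
    intro v hz hd
    rw [zero_add, Finset.card_eq_one] at hz
    obtain ⟨i0, hi0⟩ := hz
    have hmem : ∀ i, v i = 0 ↔ i = i0 := by
      intro i
      have h := congrArg (fun s => i ∈ s) hi0
      simp only [Finset.mem_filter, Finset.mem_univ, true_and, Finset.mem_singleton] at h
      rw [h]
    have hJ : (Finset.univ.erase i0).card = 3 * (r - 1) := by
      rw [Finset.card_erase_of_mem (Finset.mem_univ _), Finset.card_univ, hN]
      omega
    obtain ⟨c, hc⟩ := birch v (Finset.univ.erase i0) (r - 1) hJ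
      (fun i hi h => (Finset.mem_erase.1 hi).1 ((hmem i).1 h)) (by
        intro u
        have h1 := hd u
        unfold cnt at h1
        have h2 : (Finset.univ.filter fun i => 0 ≤ ip u (v i)) ⊆
            insert i0 ((Finset.univ.erase i0).filter fun i => 0 ≤ ip u (v i)) := by
          intro i hi
          rw [Finset.mem_filter] at hi
          rw [Finset.mem_insert, Finset.mem_filter, Finset.mem_erase]
          by_cases h : i = i0
          · exact Or.inl h
          · exact Or.inr ⟨⟨h, Finset.mem_univ _⟩, hi.2⟩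
        have h3 := (Finset.card_le_card h2).trans (Finset.card_insert_le _ _)
        omega)
    refine ⟨fun i => if i = i0 then r - 1 else if c i < r - 1 then c i else r, fun l hl => ?_⟩
    rcases Nat.lt_or_ge l (r - 1) with hl1 | hl1
    · refine pairs_cap_mono (hc l hl1) ?_
      rintro i ⟨hi, hci⟩
      show (if i = i0 then r - 1 else if c i < r - 1 then c i else r) = l
      rw [if_neg (Finset.mem_erase.1 hi).1, if_pos (by omega), hci]
    · refine pairs_cap_zero i0 ?_ ((hmem i0).2 rfl)
      show (if i0 = i0 then r - 1 else if c i0 < r - 1 then c i0 else r) = l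
      rw [if_pos rfl]
      omega
  | succ z ih =>
    intro v hz hd
    obtain ⟨x, hx, hxu⟩ := hb v r (by rw [hz, hN]; omega)
    obtain ⟨i, hi⟩ : ∃ i, v i = 0 := by
      have : (Finset.univ.filter fun i => v i = 0).Nonempty := by
        rw [← Finset.card_pos, hz]
        omega
      obtain ⟨i, hi⟩ := this
      exact ⟨i, (Finset.mem_filter.1 hi).2⟩
    have hne : ∀ j, j ≠ i → Function.update v i x j = v j := fun j hj =>
      Function.update_of_ne hj x v
    have heq : Function.update v i x i = x := Function.update_self i x v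
    obtain ⟨c, hc⟩ := ih (Function.update v i x) (by
      have e1 : (Finset.univ.filter fun j => Function.update v i x j = 0) =
          (Finset.univ.filter fun j => v j = 0).erase i := by
        ext j
        rw [Finset.mem_erase, Finset.mem_filter, Finset.mem_filter]
        by_cases hj : j = i
        · subst hj
          rw [heq]
          exact ⟨fun h => absurd h.2 hx, fun h => absurd rfl h.1⟩
        · rw [hne j hj]
          exact ⟨fun h => ⟨hj, h⟩, fun h => h.2⟩
      have e2 : i ∈ Finset.univ.filter fun j => v j = 0 :=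
        Finset.mem_filter.2 ⟨Finset.mem_univ i, hi⟩
      rw [e1, Finset.card_erase_of_mem e2, hz]
      omega) (by
      intro u
      rcases Nat.lt_or_ge r (cnt v u) with hu | hu
      · have h2 : (Finset.univ.filter fun j => 0 ≤ ip u (v j)) ⊆
            insert i (Finset.univ.filter fun j => 0 ≤ ip u (Function.update v i x j)) := by
          intro j hj
          rw [Finset.mem_filter] at hj
          rw [Finset.mem_insert, Finset.mem_filter]
          by_cases h : j = i
          · exact Or.inl h
          · refine Or.inr ⟨Finset.mem_univ _, ?_⟩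
            rw [hne j h]
            exact hj.2
        have h3 := (Finset.card_le_card h2).trans (Finset.card_insert_le _ _)
        unfold cnt at hu ⊢
        omega
      · refine (hd u).trans ?_
        unfold cnt
        apply Finset.card_le_card
        intro j hj
        rw [Finset.mem_filter] at hj ⊢
        refine ⟨Finset.mem_univ _, ?_⟩
        by_cases h : j = i
        · rw [h, heq]
          exact (hxu u hu).le
        · rw [hne j h]
          exact hj.2)
    exact ⟨c, fun l hl => pairs_cap_update i x hi (hc l hl)⟩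

open Classical in
private theorem pairs_remove_aux (v : ι → ℂ) (J : Finset ι) (q : ℕ) (a b : ι) (ha : a ∈ J)
    (hb : b ∈ J) (hab : a ≠ b) (h : Anti (v a) (v b)) (u : ℂ) (hu : ip u (v a) ≠ 0)
    (hd : q + 1 ≤ (J.filter fun i => 0 ≤ ip u (v i)).card) :
    q ≤ (((J.erase a).erase b).filter fun i => 0 ≤ ip u (v i)).card := by
  obtain ⟨t, ht, hv⟩ := h
  have hvb : ip u (v b) = -t * ip u (v a) := by
    rw [hv, ← Complex.ofReal_neg, ip_smul]
  obtain ⟨e, he⟩ : ∃ e : ι, ∀ i ∈ J, 0 ≤ ip u (v i) →
      i = e ∨ (i ∈ (J.erase a).erase b ∧ 0 ≤ ip u (v i)) := by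
    rcases lt_or_gt_of_ne hu with hneg | hpos
    · refine ⟨b, fun i hi h0 => ?_⟩
      by_cases hib : i = b
      · exact Or.inl hib
      · refine Or.inr ⟨Finset.mem_erase.2 ⟨hib, Finset.mem_erase.2 ⟨?_, hi⟩⟩, h0⟩
        intro hia
        rw [hia] at h0
        linarith
    · refine ⟨a, fun i hi h0 => ?_⟩
      by_cases hia : i = a
      · exact Or.inl hia
      · refine Or.inr ⟨Finset.mem_erase.2 ⟨?_, Finset.mem_erase.2 ⟨hia, hi⟩⟩, h0⟩
        intro hib
        rw [hib, hvb] at h0
        nlinarith
  have h2 : (J.filter fun i => 0 ≤ ip u (v i)) ⊆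
      insert e (((J.erase a).erase b).filter fun i => 0 ≤ ip u (v i)) := by
    intro i hi
    rw [Finset.mem_filter] at hi
    rw [Finset.mem_insert, Finset.mem_filter]
    exact he i hi.1 hi.2
  have h3 := (Finset.card_le_card h2).trans (Finset.card_insert_le _ _)
  omega

open Classical in
private theorem pairs_remove (v : ι → ℂ) (J : Finset ι) (q : ℕ) (a b : ι) (ha : a ∈ J)
    (hb : b ∈ J) (hab : a ≠ b) (h : Anti (v a) (v b)) (hva : v a ≠ 0)
    (hd : ∀ u : ℂ, q + 1 ≤ (J.filter fun i => 0 ≤ ip u (v i)).card) (u : ℂ) :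
    q ≤ (((J.erase a).erase b).filter fun i => 0 ≤ ip u (v i)).card := by
  by_cases hu : ip u (v a) = 0
  · have hcont : ∀ i, Filter.Tendsto (fun ε : ℝ => ip (u + (ε : ℂ) * v a) (v i))
        (nhds 0) (nhds (ip u (v i))) := by
      intro i
      have h1 : (fun ε : ℝ => ip (u + (ε : ℂ) * v a) (v i)) =
          fun ε : ℝ => ip u (v i) + ε * ip (v a) (v i) := by
        funext ε
        rw [ip_add_left, ip_smul_left]
      rw [h1]
      have h2 : Continuous (fun ε : ℝ => ip u (v i) + ε * ip (v a) (v i)) := by fun_prop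
      have h3 := h2.tendsto 0
      simpa using h3
    have hev : ∀ᶠ ε : ℝ in nhds 0, ∀ i ∈ (Finset.univ : Finset ι), ip u (v i) < 0 →
        ip (u + (ε : ℂ) * v a) (v i) < 0 := by
      rw [Filter.eventually_all_finset]
      intro i _
      by_cases hi : ip u (v i) < 0
      · filter_upwards [(hcont i).eventually_lt_const hi] with ε hε _ using hε
      · exact Filter.Eventually.of_forall fun ε h => absurd h hi
    obtain ⟨ε, hε1, hε2⟩ : ∃ ε : ℝ, 0 < ε ∧ ∀ i ∈ (Finset.univ : Finset ι), ip u (v i) < 0 →
        ip (u + (ε : ℂ) * v a) (v i) < 0 := by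
      have h1 : ∀ᶠ ε : ℝ in nhdsWithin 0 (Set.Ioi 0), 0 < ε ∧
          ∀ i ∈ (Finset.univ : Finset ι), ip u (v i) < 0 → ip (u + (ε : ℂ) * v a) (v i) < 0 :=
        (eventually_mem_nhdsWithin).and (hev.filter_mono nhdsWithin_le_nhds)
      exact h1.exists
    have h4 : ip (u + (ε : ℂ) * v a) (v a) ≠ 0 := by
      rw [ip_add_left, ip_smul_left, hu, zero_add, ip_self]
      have : 0 < ‖v a‖ := norm_pos_iff.2 hva
      positivity
    refine (pairs_remove_aux v J q a b ha hb hab h _ h4 (hd _)).trans (Finset.card_le_card ?_)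
    intro i hi
    rw [Finset.mem_filter] at hi ⊢
    refine ⟨hi.1, ?_⟩
    by_contra hcon
    have := hε2 i (Finset.mem_univ _) (not_le.1 hcon)
    linarith [hi.2]
  · exact pairs_remove_aux v J q a b ha hb hab h u hu (hd u)

theorem tv_of_zero (r : ℕ) (hr : 1 ≤ r) (hN : Fintype.card ι = 3 * r - 2) (v : ι → ℂ)
    (hd : Deep r v) (hz : ∃ i, v i = 0) : TVr r v := by
  classical
  obtain ⟨i, hi⟩ := hz
  have hpos : 0 < (Finset.univ.filter fun i => v i = 0).card :=
    Finset.card_pos.2 ⟨i, Finset.mem_filter.2 ⟨Finset.mem_univ _, hi⟩⟩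
  obtain ⟨z, hz⟩ : ∃ z, (Finset.univ.filter fun i => v i = 0).card = z + 1 :=
    ⟨(Finset.univ.filter fun i => v i = 0).card - 1, by omega⟩
  refine pairs_zero_aux r hr hN z v ?_ hd
  rw [← hz]

theorem tv_of_pairs (r : ℕ) (hr : 1 ≤ r) (hN : Fintype.card ι = 3 * r - 2) (v : ι → ℂ)
    (hd : Deep r v) (hnz : ∀ i, v i ≠ 0) (a b a' b' : ι)
    (hab : a ≠ b) (haa' : a ≠ a') (hab' : a ≠ b') (hba' : b ≠ a') (hbb' : b ≠ b')
    (ha'b' : a' ≠ b') (h1 : Anti (v a) (v b)) (h2 : Anti (v a') (v b')) : TVr r v := by
  classical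
  obtain ⟨J1, hJ1⟩ : ∃ J1 : Finset ι, J1 = (Finset.univ.erase a).erase b := ⟨_, rfl⟩
  obtain ⟨J2, hJ2⟩ : ∃ J2 : Finset ι, J2 = (J1.erase a').erase b' := ⟨_, rfl⟩
  have hm1 : ∀ i, i ∈ J1 ↔ i ≠ b ∧ i ≠ a := by
    intro i
    rw [hJ1, Finset.mem_erase, Finset.mem_erase]
    simp
  have hm2 : ∀ i, i ∈ J2 ↔ i ≠ b' ∧ i ≠ a' ∧ i ∈ J1 := by
    intro i
    rw [hJ2, Finset.mem_erase, Finset.mem_erase]
  have ha1 : a' ∈ J1 := (hm1 a').2 ⟨hba'.symm, haa'.symm⟩
  have hb1 : b' ∈ J1 := (hm1 b').2 ⟨hbb'.symm, hab'.symm⟩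
  have hc1 : J1.card = 3 * r - 2 - 2 := by
    rw [hJ1, Finset.card_erase_of_mem (Finset.mem_erase.2 ⟨hab.symm, Finset.mem_univ _⟩),
      Finset.card_erase_of_mem (Finset.mem_univ _), Finset.card_univ, hN]
    omega
  have hc2 : J2.card = J1.card - 2 := by
    rw [hJ2, Finset.card_erase_of_mem (Finset.mem_erase.2 ⟨ha'b'.symm, hb1⟩),
      Finset.card_erase_of_mem ha1]
    omega
  have h4 : 2 ≤ J1.card := by
    have h5 : ({a', b'} : Finset ι) ⊆ J1 := by
      intro i hi
      rw [Finset.mem_insert, Finset.mem_singleton] at hi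
      rcases hi with rfl | rfl
      · exact ha1
      · exact hb1
    have h6 := Finset.card_le_card h5
    rw [Finset.card_pair ha'b'] at h6
    exact h6
  have hr2 : 2 ≤ r := by omega
  have hd1 : ∀ u : ℂ, (r - 2) + 1 ≤ (J1.filter fun i => 0 ≤ ip u (v i)).card := by
    intro u
    rw [hJ1]
    refine pairs_remove v Finset.univ (r - 2 + 1) a b (Finset.mem_univ _) (Finset.mem_univ _) hab
      h1 (hnz a) (fun u => ?_) u
    have := hd u
    unfold cnt at this
    have h5 : r - 2 + 1 + 1 = r := by omega
    rw [h5]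
    exact this
  have hd2 : ∀ u : ℂ, r - 2 ≤ (J2.filter fun i => 0 ≤ ip u (v i)).card := by
    intro u
    rw [hJ2]
    exact pairs_remove v J1 (r - 2) a' b' ha1 hb1 ha'b' h2 (hnz a') hd1 u
  obtain ⟨c, hc⟩ := birch v J2 (r - 2) (by omega) (fun i _ => hnz i) hd2
  refine ⟨fun i => if i = a ∨ i = b then r - 2 else if i = a' ∨ i = b' then r - 1 else c i,
    fun l hl => ?_⟩
  rcases Nat.lt_or_ge l (r - 2) with hl1 | hl1
  · refine pairs_cap_mono (hc l hl1) ?_
    rintro i ⟨hi, hci⟩
    rw [hm2, hm1] at hi
    show (if i = a ∨ i = b then r - 2 else if i = a' ∨ i = b' then r - 1 else c i) = l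
    rw [if_neg (by tauto), if_neg (by tauto), hci]
  · rcases Nat.lt_or_ge l (r - 1) with hl2 | hl2
    · refine pairs_cap_anti a b ?_ ?_ hab h1
      · show (if a = a ∨ a = b then r - 2 else if a = a' ∨ a = b' then r - 1 else c a) = l
        rw [if_pos (Or.inl rfl)]
        omega
      · show (if b = a ∨ b = b then r - 2 else if b = a' ∨ b = b' then r - 1 else c b) = l
        rw [if_pos (Or.inr rfl)]
        omega
    · refine pairs_cap_anti a' b' ?_ ?_ ha'b' h2
      · show (if a' = a ∨ a' = b then r - 2 else if a' = a' ∨ a' = b' then r - 1 else c a') = l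
        rw [if_neg (by rintro (h | h); exacts [haa' h.symm, hba' h.symm]), if_pos (Or.inl rfl)]
        omega
      · show (if b' = a ∨ b' = b then r - 2 else if b' = a' ∨ b' = b' then r - 1 else c b') = l
        rw [if_neg (by rintro (h | h); exacts [hab' h.symm, hbb' h.symm]), if_pos (Or.inr rfl)]
        omega

end Pool.Agent.H11.TV
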