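import Pool.Agent.H11.TV.Local

set_option autoImplicit false
set_option linter.unusedSectionVars false
set_option linter.unusedVariables false

/-!
# Planar: the equivariant map of the plane

PROOF. `F v = v i0 + M * (I * G r v)` with a large natural number `M`: continuous (`G_continuous`),
equivariant (`G_rot`). Suppose that no `M` works: for every `M : ℕ` there is `v_M` with `‖v_M‖ ≤ R`,
`η ≤ dist v_M v'` for all Tverberg `v'`, and `v_M i0 = - M * (I * G r v_M)`. By compactness of the closed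
ball (`IsCompact.tendsto_subseq`) `v_{φ n} → w` for a strictly increasing `φ`.
(1) `η ≤ dist w v'` for all Tverberg `v'`, so `w` is not Tverberg.
(2) `φ n * ‖G r v_{φ n}‖ = ‖v_{φ n} i0‖ ≤ R`, so `G r v_{φ n} → 0`, and `G r w = 0`.
(3) `w` is deep: otherwise there is a unit `u` with `cnt w u < r` (`deep_iff_unit`, `r ≤ 3 r - 2`); `hb` with
`m = r - 1` gives `x` with `0 < ip u x` for all `u` with `cnt w u ≤ r - 1`, and `ip_G_pos` gives
`0 < ip (G r w) x = 0`.
(4) By `local_ne` for large `n`: if there is a unit `u` with `cnt v_{φ n} u < r` then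
`ip (G r v_{φ n}) (v_{φ n} i0) ≠ 0`, but `v_{φ n} i0 = - φ n * (I * G)` is orthogonal to `G` (`ip_I_self`,
`ip_smul`). If there is no such `u` then `v_{φ n}` is deep, `G r v_{φ n} = 0` (`G_of_deep`), so
`v_{φ n} i0 = 0` and `tv_of_zero` shows that `v_{φ n}` is Tverberg, contradiction to `0 < η ≤ dist v v = 0`.
-/

namespace Pool.Agent.H11.TV

variable {ι : Type} [Fintype ι]

open Filter Topology in
private theorem planar_key (r : ℕ) (hr : 1 ≤ r) (hN : Fintype.card ι = 3 * r - 2) (i0 : ι)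
    (η R : ℝ) (hη : 0 < η) : ∃ M : ℕ, ∀ v : ι → ℂ, ‖v‖ ≤ R →
      (∀ v' : ι → ℂ, TVr r v' → η ≤ dist v v') →
      v i0 + (((M : ℝ) : ℂ)) * (Complex.I * G r v) ≠ 0 := by
  have hN0 : r ≤ Fintype.card ι := by omega
  have hN1 : r ≤ Fintype.card ι + 1 := by omega
  by_contra hcon
  push Not at hcon
  choose v hR hd h0 using hcon
  obtain ⟨w, -, φ, hφ, hlim⟩ := (isCompact_closedBall (0 : ι → ℂ) R).tendsto_subseq
    (fun n => mem_closedBall_zero_iff.2 (hR n))
  have hself : ∀ x : ι → ℂ, (∀ v' : ι → ℂ, TVr r v' → η ≤ dist x v') → ¬ TVr r x := by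
    intro x hx hT
    have := hx x hT
    rw [dist_self] at this
    linarith
  have hnt : ¬ TVr r w := hself w fun v' hv' =>
    ge_of_tendsto (hlim.dist tendsto_const_nhds) (Eventually.of_forall fun n => hd (φ n) v' hv')
  have h1 : ∀ n, v n i0 = (((-(n : ℝ) : ℝ)) : ℂ) * (Complex.I * G r (v n)) := by
    intro n
    have := h0 n
    push_cast
    linear_combination this
  have h2 : ∀ n : ℕ, (n : ℝ) * ‖G r (v n)‖ ≤ R := by
    intro n
    have h3 : ‖v n i0‖ = (n : ℝ) * ‖G r (v n)‖ := by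
      rw [h1 n, norm_mul, norm_mul, Complex.norm_I, one_mul, Complex.norm_real, norm_neg,
        Real.norm_natCast]
    rw [← h3]
    exact (norm_le_pi_norm (v n) i0).trans (hR n)
  have hGlim : Tendsto (fun n => G r (v (φ n))) atTop (𝓝 (G r w)) :=
    ((G_continuous r).tendsto w).comp hlim
  have hG0 : G r w = 0 := by
    have h3 : Tendsto (fun n => ‖G r (v (φ n))‖) atTop (𝓝 0) := by
      have h4 : Tendsto (fun n : ℕ => R / (φ n : ℝ)) atTop (𝓝 0) :=
        tendsto_const_nhds.div_atTop (tendsto_natCast_atTop_atTop.comp hφ.tendsto_atTop)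
      refine squeeze_zero' (Eventually.of_forall fun n => norm_nonneg _) ?_ h4
      filter_upwards [eventually_gt_atTop 0] with n hn
      have h5 : 0 < (φ n : ℝ) := by
        have := hφ.le_apply (x := n)
        exact_mod_cast Nat.lt_of_lt_of_le hn this
      rw [le_div_iff₀ h5, mul_comm]
      exact h2 (φ n)
    have h4 := tendsto_nhds_unique hGlim.norm h3
    exact norm_eq_zero.1 h4
  have hdeep : Deep r w := by
    by_contra hnd
    rw [deep_iff_unit r hN0] at hnd
    push Not at hnd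
    obtain ⟨u, hu, hcu⟩ := hnd
    obtain ⟨x, -, hx⟩ := hb w (r - 1) (by omega)
    have h3 := ip_G_pos r hN1 w x (fun u _ hu => hx u (by omega)) ⟨u, hu, hcu⟩
    rw [hG0, zero_ip] at h3
    exact lt_irrefl _ h3
  obtain ⟨n, hn⟩ := (hlim.eventually (local_ne r hr hN w hdeep hnt i0)).exists
  simp only [Function.comp_apply] at hn
  by_cases hu : ∃ u : ℂ, ‖u‖ = 1 ∧ cnt (v (φ n)) u < r
  · apply hn hu
    rw [h1 (φ n), ip_smul, ip_I_self, mul_zero]
  · push Not at hu
    have hdn : Deep r (v (φ n)) := (deep_iff_unit r hN0 _).2 hu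
    have hGn : G r (v (φ n)) = 0 := G_of_deep r hN1 _ hdn
    have hz : v (φ n) i0 = 0 := by rw [h1 (φ n), hGn, mul_zero, mul_zero]
    exact hself _ (hd (φ n)) (tv_of_zero r hr hN _ hdn ⟨i0, hz⟩)

theorem planar (r : ℕ) (hr : 1 ≤ r) (hN : Fintype.card ι = 3 * r - 2) (i0 : ι) (η R : ℝ)
    (hη : 0 < η) : ∃ F : (ι → ℂ) → ℂ, Continuous F ∧
      (∀ (z : ℂ) (v : ι → ℂ), ‖z‖ = 1 → F (fun i => z * v i) = z * F v) ∧
      ∀ v : ι → ℂ, ‖v‖ ≤ R → (∀ v' : ι → ℂ, TVr r v' → η ≤ dist v v') → F v ≠ 0 := by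
  obtain ⟨M, hM⟩ := planar_key r hr hN i0 η R hη
  refine ⟨fun v => v i0 + (((M : ℝ) : ℂ)) * (Complex.I * G r v), ?_, ?_, hM⟩
  · exact (continuous_apply i0).add
      (continuous_const.mul (continuous_const.mul (G_continuous r)))
  · intro z v hz
    simp only [G_rot r z hz v]
    ring

end Pool.Agent.H11.TV
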