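import Pool.Agent.H11.TV.Planar
import Pool.Agent.H11.TV.Closed
import Pool.Agent.H11.TV.BU3

set_option autoImplicit false
set_option linter.unusedSectionVars false
set_option linter.unusedVariables false

/-!
# Reduce: the homogeneous theorem

PROOF. Write `v_j ζ = fun i => ∑ m, ζ m * a j i m`, continuous and linear in `ζ : Fin (k+3) → ℂ`,
`v_j (tau ζ) = om * v_j ζ`. Let `V_j = {v | TVr (r j) v}` (closed, `tv_closed`; nonempty, `tvr_zero`). Suppose the
claim fails; then there is no `ζ` with `‖ζ‖ = 1`, `∑ ζ m ^ 2 = 0` and `v_j ζ ∈ V_j` for all `j`. Let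
`Q = {ζ | ‖ζ‖ = 1 ∧ ∑ m, ζ m ^ 2 = 0}`, compact. The continuous function
`ζ ↦ ∑ j, Metric.infDist (v_j ζ) V_j` is positive on `Q` (`IsClosed.notMem_iff_infDist_pos`), so it is at least
some `η' > 0` on `Q` (if `Q` is empty take `η' = 1`). Put `η = η' / (2 (k + 1))`; `R` = an upper bound for all
`‖v_j ζ‖`, `‖ζ‖ = 1` (compactness of the sphere or explicit). `F_j` from `planar` for `r j, η, R` and the
index `i0 = 0` (`3 r j - 2 ≥ 1`).
`f : (Fin (k+3) → ℂ) → (Fin (k+2) → ℂ)`: for `j < k + 1`: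
`f ζ j = (max (Metric.infDist (v_j ζ) V_j - η) 0 : ℝ) * F_j (v_j ζ)`, and the last coordinate is
`conj (∑ m, ζ m ^ 2)` (use `Fin.snoc` or `Fin.lastCases`). Continuous. `f (tau ζ) = tau (f ζ)`: the distance
to `V_j` is invariant under multiplication with `om` (it is an isometry preserving `V_j`: `TVr r v` iff
`TVr r (om * v)`, same weights), `F_j` is equivariant, and `conj (om ^ 2 * s) = om * conj s` since
`conj om * om = 1`, `om ^ 3 = 1`.
`bu3_sphere (k+2) f` gives `ζ` with `‖ζ‖ = 1`, `f ζ = 0`. The last coordinate shows `ζ ∈ Q`; so for some `j`,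
`infDist (v_j ζ) V_j ≥ η' / (k+1) > η`, so the first factor is positive, hence `F_j (v_j ζ) = 0`; but
`η ≤ dist (v_j ζ) v'` for all `v' ∈ V_j` and `‖v_j ζ‖ ≤ R`: contradiction to `planar`.
-/

namespace Pool.Agent.H11.TV

private theorem reduce_tvr_mul {ι : Type} [Fintype ι] (r : ℕ) (z : ℂ) {v : ι → ℂ}
    (h : TVr r v) : TVr r (fun i => z * v i) := by
  obtain ⟨c, hc⟩ := h
  refine ⟨c, fun l hl => ?_⟩
  obtain ⟨w, h1, h2, h3, h4⟩ := hc l hl
  refine ⟨w, h1, h2, h3, ?_⟩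
  have : ∑ i, (w i : ℂ) * (z * v i) = z * ∑ i, (w i : ℂ) * v i := by
    rw [Finset.mul_sum]
    exact Finset.sum_congr rfl fun i _ => by ring
  rw [this, h4, mul_zero]

private theorem reduce_isometry {ι : Type} [Fintype ι] (z : ℂ) (hz : ‖z‖ = 1) :
    Isometry (fun (v : ι → ℂ) (i : ι) => z * v i) := by
  refine Isometry.of_dist_eq fun v w => ?_
  have h1 : (fun i => z * v i) - (fun i => z * w i) = z • (v - w) := by
    funext i
    simp [mul_sub]
  rw [dist_eq_norm, dist_eq_norm, h1, norm_smul, hz, one_mul]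

private theorem reduce_infDist {ι : Type} [Fintype ι] (r : ℕ) (z : ℂ) (hz : ‖z‖ = 1)
    (v : ι → ℂ) :
    Metric.infDist (fun i => z * v i) {v : ι → ℂ | TVr r v} =
      Metric.infDist v {v : ι → ℂ | TVr r v} := by
  have h1 := Metric.infDist_image (x := v) (t := {v : ι → ℂ | TVr r v})
    (reduce_isometry (ι := ι) z hz)
  have h2 : (fun (v : ι → ℂ) (i : ι) => z * v i) '' {v : ι → ℂ | TVr r v} =
      {v : ι → ℂ | TVr r v} := by
    ext u
    constructor
    · rintro ⟨w, hw, rfl⟩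
      exact reduce_tvr_mul r z hw
    · intro hu
      refine ⟨fun i => z⁻¹ * u i, reduce_tvr_mul r z⁻¹ hu, ?_⟩
      have hz0 : z ≠ 0 := by
        rintro rfl
        simp at hz
      funext i
      show z * (z⁻¹ * u i) = u i
      rw [← mul_assoc, mul_inv_cancel₀ hz0, one_mul]
  rw [h2] at h1
  exact h1

private theorem reduce_conj (s : ℂ) :
    (starRingEnd ℂ) (om ^ 2 * s) = om * (starRingEnd ℂ) s := by
  have h1 : (starRingEnd ℂ) om * om = 1 := by
    rw [← Complex.normSq_eq_conj_mul_self, Complex.normSq_eq_norm_sq, norm_om]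
    simp
  have h2 := om_cube
  rw [map_mul, map_pow]
  have h3 : (starRingEnd ℂ) om ^ 2 = om := by
    calc (starRingEnd ℂ) om ^ 2 = (starRingEnd ℂ) om ^ 2 * om ^ 3 := by rw [h2, mul_one]
      _ = ((starRingEnd ℂ) om * om) ^ 2 * om := by ring
      _ = om := by rw [h1]; ring
  rw [h3]

theorem homog (k : ℕ) (r : Fin (k + 1) → ℕ) (hr : ∀ j, 1 ≤ r j)
    (a : (j : Fin (k + 1)) → Fin (3 * r j - 2) → Fin (k + 3) → ℝ) :
    ∃ ζ : Fin (k + 3) → ℂ, ζ ≠ 0 ∧ ∑ m, ζ m ^ 2 = 0 ∧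
      ∀ j, TVr (r j) (fun i => ∑ m, ζ m * (a j i m : ℂ)) := by
  by_contra hcon
  push Not at hcon
  -- the configurations
  set v : (j : Fin (k + 1)) → (Fin (k + 3) → ℂ) → Fin (3 * r j - 2) → ℂ :=
    fun j ζ i => ∑ m, ζ m * (a j i m : ℂ) with hv
  have hvc : ∀ j, Continuous (v j) := fun j => by
    refine continuous_pi fun i => ?_
    refine continuous_finsetSum _ fun m _ => ?_
    exact (continuous_apply m).mul continuous_const
  have hvt : ∀ j ζ, v j (tau ζ) = fun i => om * v j ζ i := fun j ζ => by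
    funext i
    simp only [hv, tau]
    rw [Finset.mul_sum]
    exact Finset.sum_congr rfl fun m _ => by ring
  set V : (j : Fin (k + 1)) → Set (Fin (3 * r j - 2) → ℂ) := fun j => {v | TVr (r j) v} with hV
  have hVc : ∀ j, IsClosed (V j) := fun j => tv_closed (r j)
  have hVn : ∀ j, (V j).Nonempty := fun j => ⟨0, by
    refine tvr_zero (r j) ?_
    rw [Fintype.card_fin]
    have := hr j
    omega⟩
  have hdc : ∀ j, Continuous fun ζ => Metric.infDist (v j ζ) (V j) := fun j =>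
    (Metric.continuous_infDist_pt (V j)).comp (hvc j)
  have hd0 : ∀ j ζ, 0 ≤ Metric.infDist (v j ζ) (V j) := fun j ζ => Metric.infDist_nonneg
  -- the compact set Q
  set Q : Set (Fin (k + 3) → ℂ) := {ζ | ‖ζ‖ = 1 ∧ ∑ m, ζ m ^ 2 = 0} with hQ
  have hsc : Continuous fun ζ : Fin (k + 3) → ℂ => ∑ m, ζ m ^ 2 :=
    continuous_finsetSum _ fun m _ => (continuous_apply m).pow 2
  have hQc : IsCompact Q := by
    have h1 : Q = Metric.sphere (0 : Fin (k + 3) → ℂ) 1 ∩ {ζ | ∑ m, ζ m ^ 2 = 0} := by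
      ext ζ
      simp [hQ]
    rw [h1]
    exact (isCompact_sphere _ _).inter_right (isClosed_singleton.preimage hsc)
  set g : (Fin (k + 3) → ℂ) → ℝ := fun ζ => ∑ j, Metric.infDist (v j ζ) (V j) with hg
  have hgc : Continuous g := continuous_finsetSum _ fun j _ => hdc j
  have hgpos : ∀ ζ ∈ Q, 0 < g ζ := by
    intro ζ hζ
    have hne : ζ ≠ 0 := by
      rintro rfl
      have := hζ.1
      simp at this
    obtain ⟨j, hj⟩ := hcon ζ hne hζ.2
    have h1 : 0 < Metric.infDist (v j ζ) (V j) :=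
      ((hVc j).notMem_iff_infDist_pos (hVn j)).mp hj
    exact Finset.sum_pos' (fun j _ => hd0 j ζ) ⟨j, Finset.mem_univ j, h1⟩
  obtain ⟨η', hη', hle⟩ : ∃ η' : ℝ, 0 < η' ∧ ∀ ζ ∈ Q, η' ≤ g ζ := by
    rcases Q.eq_empty_or_nonempty with h | h
    · exact ⟨1, one_pos, fun ζ hζ => by rw [h] at hζ; exact absurd hζ (Set.notMem_empty _)⟩
    · obtain ⟨ζ0, h0, hm⟩ := hQc.exists_isMinOn h hgc.continuousOn
      exact ⟨g ζ0, hgpos ζ0 h0, fun ζ hζ => hm hζ⟩
  have hk : (0 : ℝ) < (k : ℝ) + 1 := by positivity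
  set η : ℝ := η' / (2 * ((k : ℝ) + 1)) with hηdef
  have hη : 0 < η := by positivity
  -- bound of the norms
  obtain ⟨R, hR⟩ : ∃ R : ℝ, ∀ j, ∀ ζ : Fin (k + 3) → ℂ, ‖ζ‖ = 1 → ‖v j ζ‖ ≤ R := by
    have hb : ∀ j, ∃ C : ℝ, ∀ ζ : Fin (k + 3) → ℂ, ‖ζ‖ = 1 → ‖v j ζ‖ ≤ C := fun j => by
      obtain ⟨C, hC⟩ := (isCompact_sphere (0 : Fin (k + 3) → ℂ) 1).exists_bound_of_continuousOn
        (hvc j).continuousOn
      exact ⟨C, fun ζ hζ => hC ζ (by simp [hζ])⟩
    choose C hC using hb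
    refine ⟨∑ j, |C j|, fun j ζ hζ => (hC j ζ hζ).trans ((le_abs_self _).trans ?_)⟩
    exact Finset.single_le_sum (f := fun j => |C j|) (fun j _ => abs_nonneg (C j))
      (Finset.mem_univ j)
  have hF : ∀ j : Fin (k + 1), ∃ F : (Fin (3 * r j - 2) → ℂ) → ℂ, Continuous F ∧
      (∀ (z : ℂ) (v : Fin (3 * r j - 2) → ℂ), ‖z‖ = 1 → F (fun i => z * v i) = z * F v) ∧
      ∀ v : Fin (3 * r j - 2) → ℂ, ‖v‖ ≤ R →
        (∀ v' : Fin (3 * r j - 2) → ℂ, TVr (r j) v' → η ≤ dist v v') → F v ≠ 0 := fun j =>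
    planar (r j) (hr j) (Fintype.card_fin _) ⟨0, by have := hr j; omega⟩ η R hη
  choose F hFc hFe hFn using hF
  -- the map
  set f : (Fin (k + 2 + 1) → ℂ) → (Fin (k + 2) → ℂ) := fun ζ =>
    Fin.snoc (α := fun _ => ℂ) (fun j : Fin (k + 1) =>
      ((max (Metric.infDist (v j ζ) (V j) - η) 0 : ℝ) : ℂ) * F j (v j ζ))
      ((starRingEnd ℂ) (∑ m, ζ m ^ 2)) with hf
  have fl : ∀ ζ, f ζ (Fin.last (k + 1)) = (starRingEnd ℂ) (∑ m, ζ m ^ 2) := fun ζ => by
    simp only [hf, Fin.snoc_last]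
  have fj : ∀ ζ (j : Fin (k + 1)), f ζ j.castSucc =
      ((max (Metric.infDist (v j ζ) (V j) - η) 0 : ℝ) : ℂ) * F j (v j ζ) := fun ζ j => by
    simp only [hf, Fin.snoc_castSucc]
  have hfc : Continuous f := by
    refine continuous_pi fun i => ?_
    refine Fin.lastCases ?_ (fun j => ?_) i
    · simp only [fl]
      exact Complex.continuous_conj.comp hsc
    · simp only [fj]
      exact (Complex.continuous_ofReal.comp (((hdc j).sub continuous_const).max
        continuous_const)).mul ((hFc j).comp (hvc j))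
  have hfe : ∀ ζ, f (tau ζ) = tau (f ζ) := by
    intro ζ
    funext i
    refine Fin.lastCases ?_ (fun j => ?_) i
    · show f (tau ζ) (Fin.last (k + 1)) = om * f ζ (Fin.last (k + 1))
      rw [fl, fl, ← reduce_conj]
      congr 1
      rw [Finset.mul_sum]
      exact Finset.sum_congr rfl fun m _ => by simp only [tau]; ring
    · show f (tau ζ) j.castSucc = om * f ζ j.castSucc
      rw [fj, fj, hvt, hFe j om (v j ζ) norm_om, reduce_infDist (r j) om norm_om]
      ring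
  obtain ⟨ζ, hζ1, hζ0⟩ := bu3_sphere (k + 2) f hfc hfe
  have hs : ∑ m, ζ m ^ 2 = 0 := by
    have h1 := congrFun hζ0 (Fin.last (k + 1))
    rw [fl] at h1
    exact (map_eq_zero (starRingEnd ℂ)).mp h1
  have hmem : ζ ∈ Q := ⟨hζ1, hs⟩
  obtain ⟨j, hj⟩ : ∃ j, η' / ((k : ℝ) + 1) ≤ Metric.infDist (v j ζ) (V j) := by
    by_contra hno
    push Not at hno
    have h1 : g ζ < ∑ _j : Fin (k + 1), η' / ((k : ℝ) + 1) :=
      Finset.sum_lt_sum_of_nonempty Finset.univ_nonempty fun j _ => hno j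
    rw [Finset.sum_const, Finset.card_univ, Fintype.card_fin, nsmul_eq_mul] at h1
    have h2 : ((k + 1 : ℕ) : ℝ) * (η' / ((k : ℝ) + 1)) = η' := by
      push_cast
      field_simp
    rw [h2] at h1
    exact absurd (hle ζ hmem) (not_le.mpr h1)
  have h2η : η' / ((k : ℝ) + 1) = 2 * η := by
    rw [hηdef]
    field_simp
  have hpos : 0 < max (Metric.infDist (v j ζ) (V j) - η) 0 := by
    refine lt_max_of_lt_left ?_
    rw [h2η] at hj
    linarith
  have hz : F j (v j ζ) = 0 := by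
    have h1 := congrFun hζ0 j.castSucc
    rw [fj] at h1
    rcases mul_eq_zero.mp h1 with h2 | h2
    · exact absurd (Complex.ofReal_eq_zero.mp h2) hpos.ne'
    · exact h2
  refine hFn j (v j ζ) (hR j ζ hζ1) (fun v' hv' => ?_) hz
  have h3 : Metric.infDist (v j ζ) (V j) ≤ dist (v j ζ) v' :=
    Metric.infDist_le_dist_of_mem hv'
  rw [h2η] at hj
  linarith

end Pool.Agent.H11.TV
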